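import Pool.Agent.LibHD.Basic

set_option autoImplicit false
set_option linter.unusedSectionVars false

open scoped Classical

noncomputable section

namespace HD

variable {V : Type*} [Fintype V] [DecidableEq V] {G : SimpleGraph V}

/-! Row A1 -/
theorem geo_aux (H : SimpleGraph V) (z : V) : ∀ (n : ℕ) (a : V), H.Reachable z a → H.dist z a = n →
    ∃ Q : Finset V, z ∈ Q ∧ a ∈ Q ∧ Conn H Q ∧
      (∀ x ∈ Q, ∀ y ∈ Q, H.dist z x = H.dist z y → x = y) ∧
      (∀ x ∈ Q, H.Reachable z x) ∧ (∀ x ∈ Q, x ≠ a → H.dist z x < n) ∧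
      (a ≠ z → Conn H (Q.erase z)) := by
  intro n
  induction n with
  | zero =>
    intro a ha h0
    have h1 : z = a := ha.dist_eq_zero_iff.1 h0
    subst h1
    refine ⟨{z}, by simp, by simp, conn_singleton z, ?_, ?_, ?_, ?_⟩
    · intro x hx y hy _
      rw [Finset.mem_singleton.1 hx, Finset.mem_singleton.1 hy]
    · intro x hx
      rw [Finset.mem_singleton.1 hx]
    · intro x hx hne
      exact absurd (Finset.mem_singleton.1 hx) hne
    · intro h
      exact absurd rfl h
  | succ n ih =>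
    intro a ha h1
    obtain ⟨b, hb, hadj, hbr⟩ : ∃ b, H.dist z b = n ∧ H.Adj a b ∧ H.Reachable z b := by
      obtain ⟨p, hp⟩ := ha.symm.exists_walk_length_eq_dist
      rw [SimpleGraph.dist_comm, h1] at hp
      cases p with
      | nil => simp at hp
      | cons hadj q =>
        rename_i b
        rw [SimpleGraph.Walk.length_cons] at hp
        have hq : q.length = n := by omega
        have hr : H.Reachable z b := ⟨q.reverse⟩
        refine ⟨b, ?_, hadj, hr⟩
        have h2 : H.dist z b ≤ n := by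
          have := SimpleGraph.dist_le q.reverse
          rwa [SimpleGraph.Walk.length_reverse, hq] at this
        obtain ⟨w, hw⟩ := hr.exists_walk_length_eq_dist
        have h3 : H.dist z a ≤ H.dist z b + 1 := by
          have := SimpleGraph.dist_le (w.append (SimpleGraph.Walk.cons hadj.symm SimpleGraph.Walk.nil))
          rwa [SimpleGraph.Walk.length_append, hw, SimpleGraph.Walk.length_cons,
            SimpleGraph.Walk.length_nil, zero_add] at this
        omega
    obtain ⟨Q, q1, q2, q3, q4, q5, q6, q7⟩ := ih b hbr hb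
    have hle : ∀ x ∈ Q, H.dist z x ≤ n := by
      intro x hx
      by_cases hxb : x = b
      · rw [hxb, hb]
      · exact (q6 x hx hxb).le
    have hins : ∀ T : Finset V, T ∪ {a} = insert a T := by
      intro T
      ext y; simp [or_comm]
    refine ⟨insert a Q, Finset.mem_insert_of_mem q1, Finset.mem_insert_self _ _, ?_, ?_, ?_, ?_, ?_⟩
    · rw [← hins]
      exact q3.union_touch (conn_singleton a) ⟨b, q2, a, Finset.mem_singleton_self a, hadj.symm⟩
    · intro x hx y hy hxy
      rcases Finset.mem_insert.1 hx with hx | hx <;> rcases Finset.mem_insert.1 hy with hy | hy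
      · rw [hx, hy]
      · rw [hx, h1] at hxy
        have := hle y hy
        omega
      · rw [hy, h1] at hxy
        have := hle x hx
        omega
      · exact q4 x hx y hy hxy
    · intro x hx
      rcases Finset.mem_insert.1 hx with hx | hx
      · rw [hx]; exact ha
      · exact q5 x hx
    · intro x hx hne
      rcases Finset.mem_insert.1 hx with hx | hx
      · exact absurd hx hne
      · have := hle x hx
        omega
    · intro hne
      by_cases hbz : b = z
      · have h0 : n = 0 := by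
          rw [← hb, hbz, SimpleGraph.dist_self]
        have hQ : (insert a Q).erase z = {a} := by
          ext x
          rw [Finset.mem_erase, Finset.mem_insert, Finset.mem_singleton]
          constructor
          · rintro ⟨hx1, hx2 | hx2⟩
            · exact hx2
            · exfalso
              have := q6 x hx2 (by rw [hbz]; exact hx1)
              omega
          · intro hx
            rw [hx]
            exact ⟨hne, Or.inl rfl⟩
        rw [hQ]
        exact conn_singleton a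
      · have hQ : (insert a Q).erase z = Q.erase z ∪ {a} := by
          rw [hins]
          ext x
          simp only [Finset.mem_erase, Finset.mem_insert]
          constructor
          · rintro ⟨hx1, hx2 | hx2⟩
            · exact Or.inl hx2
            · exact Or.inr ⟨hx1, hx2⟩
          · rintro (hx | ⟨hx1, hx2⟩)
            · exact ⟨by rw [hx]; exact hne, Or.inl hx⟩
            · exact ⟨hx1, Or.inr hx2⟩
        rw [hQ]
        exact (q7 hbz).union_touch (conn_singleton a)
          ⟨b, Finset.mem_erase.2 ⟨hbz, q2⟩, a, Finset.mem_singleton_self a, hadj.symm⟩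

/-- A1: geodesic sets. -/
theorem geo (H : SimpleGraph V) (z : V) (A : Finset V) (h : ∃ a ∈ A, H.Reachable z a) :
    ∃ (Q : Finset V) (a : V), a ∈ A ∧ z ∈ Q ∧ a ∈ Q ∧ Q ∩ A = {a} ∧ Conn H Q ∧
      (∀ x ∈ Q, ∀ y ∈ Q, H.dist z x = H.dist z y → x = y) ∧ (∀ x ∈ Q, H.Reachable z x) ∧
      (a ≠ z → Conn H (Q.erase z)) := by
  have h' : ∃ n : ℕ, ∃ a ∈ A, H.Reachable z a ∧ H.dist z a = n := by
    obtain ⟨a, ha, hr⟩ := h
    exact ⟨_, a, ha, hr, rfl⟩
  obtain ⟨a, ha, hr, hn⟩ := Nat.find_spec h'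
  obtain ⟨Q, q1, q2, q3, q4, q5, q6, q7⟩ := geo_aux H z _ a hr hn
  refine ⟨Q, a, ha, q1, q2, ?_, q3, q4, q5, q7⟩
  ext x
  rw [Finset.mem_inter, Finset.mem_singleton]
  constructor
  · rintro ⟨hx, hxA⟩
    by_contra hne
    exact Nat.find_min h' (q6 x hx hne) ⟨x, hxA, q5 x hx, rfl⟩
  · intro hx
    rw [hx]
    exact ⟨q2, ha⟩

/-! Row A2 -/
/-- A2: parity. -/
theorem parity {Y A B : Finset V} (g : V → ℕ) (hg : ∀ u ∈ Y, ∀ v ∈ Y, G.Adj u v → g u % 2 ≠ g v % 2)
    (w : V → ℕ) {p q : V} (hp : Y ∩ A = {p}) (hq : Y ∩ B = {q})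
    (hA : ∀ S ⊆ Y \ A, Stable G S → 2 * ∑ v ∈ S, w v < ∑ v ∈ Y, w v)
    (hB : ∀ S ⊆ Y \ B, Stable G S → 2 * ∑ v ∈ S, w v < ∑ v ∈ Y, w v) :
    g p % 2 = g q % 2 := by
  by_contra hne
  have hpY : p ∈ Y ∧ p ∈ A := by
    have : p ∈ Y ∩ A := by rw [hp]; exact Finset.mem_singleton_self p
    exact Finset.mem_inter.1 this
  have hqY : q ∈ Y ∧ q ∈ B := by
    have : q ∈ Y ∩ B := by rw [hq]; exact Finset.mem_singleton_self q
    exact Finset.mem_inter.1 this
  have h1 := hA (Y.filter (fun y => g y % 2 = g q % 2)) (by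
    intro y hy
    rw [Finset.mem_filter] at hy
    refine Finset.mem_sdiff.2 ⟨hy.1, fun hyA => ?_⟩
    have h2 : y = p := by
      have : y ∈ Y ∩ A := Finset.mem_inter.2 ⟨hy.1, hyA⟩
      rw [hp] at this
      exact Finset.mem_singleton.1 this
    rw [h2] at hy
    exact hne hy.2) (by
    intro u hu v hv huv
    rw [Finset.mem_filter] at hu hv
    exact hg u hu.1 v hv.1 huv (hu.2.trans hv.2.symm))
  have h2 := hB (Y.filter (fun y => ¬ g y % 2 = g q % 2)) (by
    intro y hy
    rw [Finset.mem_filter] at hy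
    refine Finset.mem_sdiff.2 ⟨hy.1, fun hyB => ?_⟩
    have h2 : y = q := by
      have : y ∈ Y ∩ B := Finset.mem_inter.2 ⟨hy.1, hyB⟩
      rw [hq] at this
      exact Finset.mem_singleton.1 this
    rw [h2] at hy
    exact hy.2 rfl) (by
    intro u hu v hv huv
    rw [Finset.mem_filter] at hu hv
    have := hg u hu.1 v hv.1 huv
    have h3 := hu.2
    have h4 := hv.2
    omega)
  have h3 := Finset.sum_filter_add_sum_filter_not Y (fun y => g y % 2 = g q % 2) w
  omega

/-! Row A3 -/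
theorem A3_reach {X : Finset V} (hX : Conn G X) {x y : V} (hx : x ∈ X) (hy : y ∈ X) :
    (res G X).Reachable x y := by
  have h := hX.preconnected ⟨x, hx⟩ ⟨y, hy⟩
  let f : G.induce (X : Set V) →g res G X := ⟨Subtype.val, fun {a b} hab => ⟨hab, a.2, b.2⟩⟩
  exact h.map f

theorem A3_sub {X Q : Finset V} {q : V} (hQ : Conn (res G X) Q) (hq : q ∈ Q) (hqX : q ∈ X) :
    Q ⊆ X ∧ Conn G Q := by
  constructor
  · intro y hy
    obtain ⟨w⟩ := hQ.preconnected ⟨q, hq⟩ ⟨y, hy⟩
    have key : ∀ (a b : (Q : Set V)), ((res G X).induce (Q : Set V)).Walk a b → a.1 ∈ X → b.1 ∈ X := by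
      intro a b w
      induction w with
      | nil => exact id
      | cons hadj w ih =>
        intro _
        have h1 := hadj
        rw [SimpleGraph.induce_adj] at h1
        exact ih h1.2.2
    exact key _ _ w hqX
  · refine SimpleGraph.Connected.mono ?_ hQ
    intro a b h
    rw [SimpleGraph.induce_adj] at h ⊢
    exact h.1

theorem A3_dist {H : SimpleGraph V} {z u v : V} (h : H.Reachable z u) (huv : H.Adj u v) :
    H.dist z v ≤ H.dist z u + 1 := by
  obtain ⟨p, hp⟩ := h.exists_walk_length_eq_dist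
  have h1 := SimpleGraph.dist_le (p.concat huv)
  rw [SimpleGraph.Walk.length_concat, hp] at h1
  exact h1

theorem A3_par {H : SimpleGraph V} {z u v : V} (h : H.Reachable z u) (huv : H.Adj u v)
    (hne : H.dist z u ≠ H.dist z v) : H.dist z u % 2 ≠ H.dist z v % 2 := by
  have h1 := A3_dist h huv
  have h2 := A3_dist (h.trans huv.reachable) huv.symm
  omega

/-- a vertex which can be removed. -/
theorem A3_leaf {X : Finset V} (hX : Conn G X) (h2 : 1 < X.card) :
    ∃ p ∈ X, Conn G (X.erase p) := by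
  have hnt : Nontrivial (X : Set V) := by
    rw [Set.nontrivial_coe_sort]
    exact Finset.one_lt_card_iff_nontrivial.1 h2
  obtain ⟨v, hv⟩ := SimpleGraph.Connected.exists_connected_induce_compl_singleton_of_finite_nontrivial
    (G := G.induce (X : Set V)) hX
  refine ⟨v.1, v.2, ?_⟩
  let f : (G.induce (X : Set V)).induce {v}ᶜ →g G.induce ((X.erase v.1 : Finset V) : Set V) :=
    ⟨fun x => ⟨x.1.1, Finset.mem_coe.2 (Finset.mem_erase.2 ⟨fun h => x.2 (Subtype.ext h), x.1.2⟩)⟩,
      fun {a b} hab => hab⟩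
  refine SimpleGraph.Connected.map f ?_ hv
  rintro ⟨y, hy⟩
  have hy' := Finset.mem_erase.1 (Finset.mem_coe.1 hy)
  exact ⟨⟨⟨y, hy'.2⟩, fun h => hy'.1 (congrArg Subtype.val h)⟩, rfl⟩

/-- the geodesic set at `z` which avoids the component of `p0`, with the parity. -/
theorem A3_side {ι : Type*} {X : Finset V} (hX : Conn G X) (A : ι → Finset V) (w : V → ℕ)
    (hA : ∀ i, (X ∩ A i).Nonempty)
    (hmin : ∀ X' ⊂ X, Conn G X' → ∃ i, X' ∩ A i = ∅)
    (hb : ∀ i, ∀ Y ⊆ X, Conn G Y → (Y ∩ A i).Nonempty → ∀ S ⊆ Y \ A i, Stable G S →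
      2 * ∑ v ∈ S, w v < ∑ v ∈ Y, w v) {p0 z : V} (hp0 : p0 ∈ X) (hz : z ∈ X) (hne : p0 ≠ z)
    {i0 : ι} (hi0 : X ∩ A i0 = {p0}) :
    ∃ (i : ι) (Q : Finset V) (a : V), comp G (X \ {z}) p0 ∩ A i = ∅ ∧ Q ⊆ X ∧ z ∈ Q ∧ a ∈ Q ∧
      Conn G Q ∧ Q ∩ A i = {a} ∧ (∀ y ∈ Q, y ∉ comp G (X \ {z}) p0) ∧
      (∀ x ∈ Q, ∀ y ∈ Q, (res G X).dist z x = (res G X).dist z y → x = y) ∧
      (res G X).dist z p0 % 2 = (res G X).dist z a % 2 := by
  have hp0z : p0 ∈ X \ {z} := Finset.mem_sdiff.2 ⟨hp0, by simpa using hne⟩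
  have hcc := conn_comp (G := G) hp0z
  have hcs : comp G (X \ {z}) p0 ⊆ X \ {z} := comp_subset _ _
  have hss : comp G (X \ {z}) p0 ⊂ X := by
    refine ⟨hcs.trans Finset.sdiff_subset, fun h => ?_⟩
    have h1 := Finset.mem_sdiff.1 (hcs (h hz))
    exact h1.2 (Finset.mem_singleton_self z)
  obtain ⟨i, hi⟩ := hmin _ hss hcc
  have hQex : ∃ (Q : Finset V) (a : V), Q ⊆ X ∧ z ∈ Q ∧ a ∈ Q ∧ Conn G Q ∧ Q ∩ A i = {a} ∧
      (∀ y ∈ Q, y ∉ comp G (X \ {z}) p0) ∧
      (∀ x ∈ Q, ∀ y ∈ Q, (res G X).dist z x = (res G X).dist z y → x = y) := by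
    obtain ⟨a1, ha1⟩ := hA i
    have ha1' := Finset.mem_inter.1 ha1
    obtain ⟨Q, a, haA, hzQ, haQ, hQA, hQc, hinj, -, herase⟩ :=
      geo (res G X) z (A i) ⟨a1, ha1'.2, A3_reach hX hz ha1'.1⟩
    obtain ⟨hQX, hQc'⟩ := A3_sub hQc hzQ hz
    by_cases haz : a = z
    · refine ⟨{z}, z, ?_, by simp, by simp, conn_singleton z, ?_, ?_, ?_⟩
      · intro y hy
        rw [Finset.mem_singleton.1 hy]
        exact hz
      · rw [haz] at haA
        ext y
        simp only [Finset.mem_inter, Finset.mem_singleton]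
        constructor
        · exact fun h => h.1
        · intro h
          rw [h]
          exact ⟨rfl, haA⟩
      · intro y hy hy2
        rw [Finset.mem_singleton.1 hy] at hy2
        exact (Finset.mem_sdiff.1 (hcs hy2)).2 (Finset.mem_singleton_self z)
      · intro x hx y hy _
        rw [Finset.mem_singleton.1 hx, Finset.mem_singleton.1 hy]
    · refine ⟨Q, a, hQX, hzQ, haQ, hQc', hQA, ?_, hinj⟩
      have hae : a ∈ Q.erase z := Finset.mem_erase.2 ⟨haz, haQ⟩
      obtain ⟨hEX, hEc⟩ := A3_sub (herase haz) hae (hQX haQ)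
      intro y hy hy2
      by_cases hyz : y = z
      · rw [hyz] at hy2
        exact (Finset.mem_sdiff.1 (hcs hy2)).2 (Finset.mem_singleton_self z)
      · have hsub : Q.erase z ⊆ X \ {z} := by
          intro u hu
          rw [Finset.mem_sdiff, Finset.mem_singleton]
          exact ⟨hEX hu, (Finset.mem_erase.1 hu).1⟩
        have h1 := comp_absorb hEc hsub (Finset.mem_erase.2 ⟨hyz, hy⟩) hy2
        have h2 : a ∈ comp G (X \ {z}) p0 ∩ A i := Finset.mem_inter.2 ⟨h1 hae, haA⟩
        rw [hi] at h2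
        simp at h2
  obtain ⟨Q, a, hQX, hzQ, haQ, hQc, hQA, hQavoid, hQinj⟩ := hQex
  refine ⟨i, Q, a, hi, hQX, hzQ, haQ, hQc, hQA, hQavoid, hQinj, ?_⟩
  obtain ⟨P, b, hbA, hzP, hbP, -, hPc, hPinj, -, herase⟩ :=
    geo (res G X) z {p0} ⟨p0, Finset.mem_singleton_self _, A3_reach hX hz hp0⟩
  rw [Finset.mem_singleton] at hbA
  subst hbA
  obtain ⟨hPX, hPc'⟩ := A3_sub hPc hzP hz
  have hbe : b ∈ P.erase z := Finset.mem_erase.2 ⟨hne, hbP⟩
  obtain ⟨hEX, hEc⟩ := A3_sub (herase hne) hbe hp0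
  have hPcomp : ∀ y ∈ P, y ≠ z → y ∈ comp G (X \ {z}) b := by
    intro y hy hyz
    have hsub : P.erase z ⊆ X \ {z} := by
      intro u hu
      rw [Finset.mem_sdiff, Finset.mem_singleton]
      exact ⟨hEX hu, (Finset.mem_erase.1 hu).1⟩
    exact comp_absorb hEc hsub hbe (mem_comp_self hp0z) (Finset.mem_erase.2 ⟨hyz, hy⟩)
  have hYX : P ∪ Q ⊆ X := Finset.union_subset hPX hQX
  have hYc : Conn G (P ∪ Q) := hPc'.union_mem hQc hzP hzQ
  have hYi0 : (P ∪ Q) ∩ A i0 = {b} := by
    ext y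
    rw [Finset.mem_inter, Finset.mem_singleton]
    constructor
    · rintro ⟨h1, h2⟩
      have h3 : y ∈ X ∩ A i0 := Finset.mem_inter.2 ⟨hYX h1, h2⟩
      rw [hi0] at h3
      exact Finset.mem_singleton.1 h3
    · intro h
      have h3 : b ∈ X ∩ A i0 := by
        rw [hi0]
        exact Finset.mem_singleton_self _
      rw [h]
      exact ⟨Finset.mem_union_left _ hbP, (Finset.mem_inter.1 h3).2⟩
  have hYi : (P ∪ Q) ∩ A i = {a} := by
    ext y
    rw [Finset.mem_inter, Finset.mem_singleton]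
    constructor
    · rintro ⟨h1, h2⟩
      have h3 : y ∈ Q := by
        rcases Finset.mem_union.1 h1 with h4 | h4
        · by_cases hyz : y = z
          · rw [hyz]
            exact hzQ
          · have h5 : y ∈ comp G (X \ {z}) b ∩ A i :=
              Finset.mem_inter.2 ⟨hPcomp y h4 hyz, h2⟩
            rw [hi] at h5
            simp at h5
        · exact h4
      have h6 : y ∈ Q ∩ A i := Finset.mem_inter.2 ⟨h3, h2⟩
      rw [hQA] at h6
      exact Finset.mem_singleton.1 h6
    · intro h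
      have h3 : a ∈ Q ∩ A i := by
        rw [hQA]
        exact Finset.mem_singleton_self _
      rw [h]
      exact ⟨Finset.mem_union_right _ haQ, (Finset.mem_inter.1 h3).2⟩
  have hcross : ∀ u ∈ P, ∀ v ∈ Q, u ∉ Q → v ∉ P → ¬ G.Adj u v := by
    intro u hu v hv huQ hvP huv
    have huz : u ≠ z := by
      rintro rfl
      exact huQ hzQ
    have hvz : v ≠ z := by
      rintro rfl
      exact hvP hzP
    apply comp_no_touch (G := G) (X \ {z}) b
    refine ⟨u, hPcomp u hu huz, v, Finset.mem_sdiff.2 ⟨Finset.mem_sdiff.2 ⟨hQX hv, ?_⟩,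
      hQavoid v hv⟩, huv⟩
    rw [Finset.mem_singleton]
    exact hvz
  refine parity (G := G) (Y := P ∪ Q) (A := A i0) (B := A i) (fun y => (res G X).dist z y) ?_ w
    hYi0 hYi ?_ ?_
  · intro u hu v hv huv
    have huX := hYX hu
    have hvX := hYX hv
    have hadj : (res G X).Adj u v := ⟨huv, huX, hvX⟩
    refine A3_par (A3_reach hX hz huX) hadj ?_
    intro heq
    have hneq : u ≠ v := huv.ne
    by_cases huP : u ∈ P
    · by_cases hvP : v ∈ P
      · exact hneq (hPinj u huP v hvP heq)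
      · have hvQ : v ∈ Q := (Finset.mem_union.1 hv).resolve_left hvP
        by_cases huQ : u ∈ Q
        · exact hneq (hQinj u huQ v hvQ heq)
        · exact hcross u huP v hvQ huQ hvP huv
    · have huQ : u ∈ Q := (Finset.mem_union.1 hu).resolve_left huP
      by_cases hvQ : v ∈ Q
      · exact hneq (hQinj u huQ v hvQ heq)
      · have hvP : v ∈ P := (Finset.mem_union.1 hv).resolve_right hvQ
        exact hcross v hvP u huQ hvQ huP huv.symm
  · refine hb i0 _ hYX hYc ?_
    rw [hYi0]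
    exact Finset.singleton_nonempty _
  · refine hb i _ hYX hYc ?_
    rw [hYi]
    exact Finset.singleton_nonempty _

/-- a colouring by parity is enough. -/
theorem A3_heavy {X : Finset V} (w g : V → ℕ)
    (hg : ∀ u ∈ X, ∀ v ∈ X, G.Adj u v → g u % 2 ≠ g v % 2) :
    ∃ S ⊆ X, Stable G S ∧ ∑ v ∈ X, w v ≤ 2 * ∑ v ∈ S, w v := by
  have hsum := Finset.sum_filter_add_sum_filter_not X (fun v => g v % 2 = 0) w
  by_cases h : ∑ v ∈ X.filter (fun v => ¬ g v % 2 = 0), w v ≤
      ∑ v ∈ X.filter (fun v => g v % 2 = 0), w v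
  · refine ⟨X.filter (fun v => g v % 2 = 0), Finset.filter_subset _ _, ?_, by omega⟩
    intro u hu v hv huv
    rw [Finset.mem_filter] at hu hv
    exact hg u hu.1 v hv.1 huv (by rw [hu.2, hv.2])
  · refine ⟨X.filter (fun v => ¬ g v % 2 = 0), Finset.filter_subset _ _, ?_, by omega⟩
    intro u hu v hv huv
    rw [Finset.mem_filter] at hu hv
    exact hg u hu.1 v hv.1 huv (by omega)

/-- A3: a minimal connected set meeting all the sets A i is bipartite, so it has a heavy stable subset. -/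
theorem bip_min {ι : Type*} {X : Finset V} (hX : Conn G X) (A : ι → Finset V) (w : V → ℕ)
    (hA : ∀ i, (X ∩ A i).Nonempty)
    (hmin : ∀ X' ⊂ X, Conn G X' → ∃ i, X' ∩ A i = ∅)
    (hb : ∀ i, ∀ Y ⊆ X, Conn G Y → (Y ∩ A i).Nonempty → ∀ S ⊆ Y \ A i, Stable G S →
      2 * ∑ v ∈ S, w v < ∑ v ∈ Y, w v) :
    ∃ S ⊆ X, Stable G S ∧ ∑ v ∈ X, w v ≤ 2 * ∑ v ∈ S, w v := by
  by_cases hcard : 1 < X.card
  swap
  · refine ⟨X, Finset.Subset.refl _, ?_, by omega⟩
    intro u hu v hv huv
    exact huv.ne (Finset.card_le_one.1 (not_lt.1 hcard) u hu v hv)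
  obtain ⟨p0, hp0, hleaf⟩ := A3_leaf hX hcard
  obtain ⟨i0, hi0'⟩ := hmin _ (Finset.erase_ssubset hp0) hleaf
  have hi0 : X ∩ A i0 = {p0} := by
    obtain ⟨q, hq⟩ := hA i0
    have hall : ∀ y ∈ X ∩ A i0, y = p0 := by
      intro y hy
      by_contra hy2
      have h1 : y ∈ X.erase p0 ∩ A i0 :=
        Finset.mem_inter.2 ⟨Finset.mem_erase.2 ⟨hy2, (Finset.mem_inter.1 hy).1⟩,
          (Finset.mem_inter.1 hy).2⟩
      rw [hi0'] at h1
      simp at h1
    ext y
    rw [Finset.mem_singleton]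
    constructor
    · exact hall y
    · intro h
      rw [h, ← hall q hq]
      exact hq
  refine A3_heavy w (fun y => (res G X).dist p0 y) ?_
  intro z hz z' hz' hzz'
  have hadj : (res G X).Adj z z' := ⟨hzz', hz, hz'⟩
  refine A3_par (A3_reach hX hp0 hz) hadj ?_
  intro hd
  have hneq : z ≠ z' := hzz'.ne
  have hp0z : p0 ≠ z := by
    rintro rfl
    rw [SimpleGraph.dist_self] at hd
    exact hneq (((A3_reach hX hz hz').dist_eq_zero_iff).1 hd.symm)
  have hp0z' : p0 ≠ z' := by
    rintro rfl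
    rw [SimpleGraph.dist_self] at hd
    exact hneq (((A3_reach hX hz' hz).dist_eq_zero_iff).1 hd).symm
  -- each end is in the component of the other one
  have hin : ∀ x ∈ X, ∀ y ∈ X, x ≠ y → (res G X).dist p0 x = (res G X).dist p0 y →
      y ∈ comp G (X \ {x}) p0 := by
    intro x hx y hy hxy hxyd
    obtain ⟨P, b, hbA, hpP, hbP, -, hPc, hPinj, -, -⟩ :=
      geo (res G X) p0 {y} ⟨y, Finset.mem_singleton_self _, A3_reach hX hp0 hy⟩
    rw [Finset.mem_singleton] at hbA
    subst hbA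
    obtain ⟨hPX, hPc'⟩ := A3_sub hPc hpP hp0
    refine mem_comp.2 ⟨P, ?_, hpP, hbP, hPc'⟩
    intro u hu
    rw [Finset.mem_sdiff, Finset.mem_singleton]
    refine ⟨hPX hu, ?_⟩
    rintro rfl
    exact hxy (hPinj _ hu _ hbP hxyd)
  have hz'in : z' ∈ comp G (X \ {z}) p0 := hin z hz z' hz' hneq hd
  have hzin : z ∈ comp G (X \ {z'}) p0 := hin z' hz' z hz hneq.symm hd.symm
  obtain ⟨i, Q, a, hi, hQX, hzQ, haQ, hQc, hQA, hQav, hQinj, hQpar⟩ :=
    A3_side hX A w hA hmin hb hp0 hz hp0z hi0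
  obtain ⟨i', Q', a', hi', hQX', hzQ', haQ', hQc', hQA', hQav', hQinj', hQpar'⟩ :=
    A3_side hX A w hA hmin hb hp0 hz' hp0z' hi0
  have hzz : z ∉ Q' := fun h => hQav' z h hzin
  have hzz2 : z' ∉ Q := fun h => hQav z' h hz'in
  have hQ'sub : Q' ⊆ comp G (X \ {z}) p0 := by
    refine comp_absorb hQc' ?_ hzQ' hz'in
    intro u hu
    rw [Finset.mem_sdiff, Finset.mem_singleton]
    refine ⟨hQX' hu, ?_⟩
    rintro rfl
    exact hzz hu
  have hQsub : Q ⊆ comp G (X \ {z'}) p0 := by
    refine comp_absorb hQc ?_ hzQ hzin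
    intro u hu
    rw [Finset.mem_sdiff, Finset.mem_singleton]
    refine ⟨hQX hu, ?_⟩
    rintro rfl
    exact hzz2 hu
  have hdisj : ∀ y ∈ Q', y ∉ Q := fun y hy hy2 => hQav y hy2 (hQ'sub hy)
  have hcross : ∀ u ∈ Q, ∀ v ∈ Q', G.Adj u v → u = z ∧ v = z' := by
    intro u hu v hv huv
    constructor
    · by_contra huz
      apply comp_no_touch (G := G) (X \ {z}) p0
      refine ⟨v, hQ'sub hv, u, Finset.mem_sdiff.2 ⟨Finset.mem_sdiff.2 ⟨hQX hu, ?_⟩, hQav u hu⟩,
        huv.symm⟩
      rw [Finset.mem_singleton]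
      exact huz
    · by_contra hvz
      apply comp_no_touch (G := G) (X \ {z'}) p0
      refine ⟨u, hQsub hu, v, Finset.mem_sdiff.2 ⟨Finset.mem_sdiff.2 ⟨hQX' hv, ?_⟩, hQav' v hv⟩,
        huv⟩
      rw [Finset.mem_singleton]
      exact hvz
  have hYX : Q ∪ Q' ⊆ X := Finset.union_subset hQX hQX'
  have hYc : Conn G (Q ∪ Q') := hQc.union_touch hQc' ⟨z, hzQ, z', hzQ', hzz'⟩
  have hYi : (Q ∪ Q') ∩ A i = {a} := by
    rw [Finset.union_inter_distrib_right, hQA]
    have h1 : Q' ∩ A i = ∅ := by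
      rw [← Finset.subset_empty, ← hi]
      exact Finset.inter_subset_inter_right hQ'sub
    rw [h1, Finset.union_empty]
  have hYi' : (Q ∪ Q') ∩ A i' = {a'} := by
    rw [Finset.union_inter_distrib_right, hQA']
    have h1 : Q ∩ A i' = ∅ := by
      rw [← Finset.subset_empty, ← hi']
      exact Finset.inter_subset_inter_right hQsub
    rw [h1, Finset.empty_union]
  have hpar := parity (G := G) (Y := Q ∪ Q') (A := A i) (B := A i')
    (fun y => if y ∈ Q then (res G X).dist z y else 1 + (res G X).dist z' y) ?_ w hYi hYi' ?_ ?_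
  · have ha'Q : a' ∉ Q := hdisj a' haQ'
    simp only [haQ, ha'Q, if_true, if_false] at hpar
    have h1 : (res G X).dist z p0 = (res G X).dist z' p0 := by
      rw [SimpleGraph.dist_comm, hd, SimpleGraph.dist_comm]
    omega
  · intro u hu v hv huv
    have huX := hYX hu
    have hvX := hYX hv
    have hadj' : (res G X).Adj u v := ⟨huv, huX, hvX⟩
    by_cases huQ : u ∈ Q
    · by_cases hvQ : v ∈ Q
      · simp only [huQ, hvQ, if_true]
        exact A3_par (A3_reach hX hz huX) hadj' fun heq => huv.ne (hQinj u huQ v hvQ heq)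
      · have hvQ' : v ∈ Q' := (Finset.mem_union.1 hv).resolve_left hvQ
        obtain ⟨h1, h2⟩ := hcross u huQ v hvQ' huv
        simp only [huQ, hvQ, if_true, if_false]
        rw [h1, h2, SimpleGraph.dist_self, SimpleGraph.dist_self]
        norm_num
    · have huQ' : u ∈ Q' := (Finset.mem_union.1 hu).resolve_left huQ
      by_cases hvQ : v ∈ Q
      · obtain ⟨h1, h2⟩ := hcross v hvQ u huQ' huv.symm
        simp only [huQ, hvQ, if_true, if_false]
        rw [h1, h2, SimpleGraph.dist_self, SimpleGraph.dist_self]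
        norm_num
      · have hvQ' : v ∈ Q' := (Finset.mem_union.1 hv).resolve_left hvQ
        simp only [huQ, hvQ, if_false]
        have h1 := A3_par (A3_reach hX hz' huX) hadj' fun heq => huv.ne (hQinj' u huQ' v hvQ' heq)
        omega
  · refine hb i _ hYX hYc ?_
    rw [hYi]
    exact Finset.singleton_nonempty _
  · refine hb i' _ hYX hYc ?_
    rw [hYi']
    exact Finset.singleton_nonempty _

/-! Row A4 -/
theorem A4_stable_union {S T : Finset V} (hS : Stable G S) (hT : Stable G T)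
    (h : ∀ u ∈ S, ∀ v ∈ T, ¬ G.Adj u v) : Stable G (S ∪ T) := by
  intro u hu v hv huv
  rcases Finset.mem_union.1 hu with hu | hu <;> rcases Finset.mem_union.1 hv with hv | hv
  · exact hS u hu v hv huv
  · exact h u hu v hv huv
  · exact h v hv u hu huv.symm
  · exact hT u hu v hv huv

theorem A4_touch_of_nbr {X Y : Finset V} (h : (Y ∩ nbr G X).Nonempty) : Touch G X Y := by
  obtain ⟨v, hv⟩ := h
  obtain ⟨hvY, hvX⟩ := Finset.mem_inter.1 hv
  obtain ⟨u, hu, huv⟩ := mem_nbr.1 hvX
  exact ⟨u, hu, v, hvY, huv⟩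

theorem A4_model {U E : Finset V} {t : ℕ} {P : Fin t → Finset V} (hE : Conn G E) (hEU : E ⊆ U)
    (h1 : ∀ i, Conn G (P i) ∧ P i ⊆ U ∧ Disjoint (P i) E ∧ Touch G (P i) E ∧
      ∀ j, j ≠ i → Disjoint (P i) (P j) ∧ Touch G (P i) (P j)) :
    Model G U (t + 1) := by
  have h2 : IsModel G U (fun o : Option (Fin t) => o.elim E P) := by
    refine ⟨?_, ?_⟩
    · rintro (_ | i)
      · exact ⟨hEU, hE⟩
      · exact ⟨(h1 i).2.1, (h1 i).1⟩
    · rintro (_ | i) (_ | j) hij
      · exact absurd rfl hij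
      · exact ⟨(h1 j).2.2.1.symm, (h1 j).2.2.2.1.symm⟩
      · exact ⟨(h1 i).2.2.1, (h1 i).2.2.2.1⟩
      · exact (h1 i).2.2.2.2 j (fun h => hij (by rw [h]))
  have h3 := h2.model
  rwa [Fintype.card_option, Fintype.card_fin] at h3

/-- The maximal pair. -/
theorem A4_pair {t : ℕ} (w : V → ℕ) (E : Finset V) (P : Fin t → Finset V) (hE : Conn G E)
    (h2 : ∀ Y ⊆ E, Conn G Y → ∀ i, (Y ∩ nbr G (P i)).Nonempty → ∀ S ⊆ Y \ nbr G (P i), Stable G S →
        2 * ∑ v ∈ S, w v < ∑ v ∈ Y, w v) :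
    ∃ X S : Finset V, X ⊆ E ∧ Conn G X ∧
      (∀ i, (E ∩ nbr G (P i)).Nonempty → (X ∩ nbr G (P i)).Nonempty) ∧ S ⊆ X ∧ Stable G S ∧
      ∑ v ∈ X, w v ≤ 2 * ∑ v ∈ S, w v ∧
      ∀ Y ⊆ E \ X, Conn G Y → (Y ∩ nbr G X).Nonempty → ∀ T ⊆ Y \ nbr G X, Stable G T →
        2 * ∑ v ∈ T, w v < ∑ v ∈ Y, w v := by
  classical
  set Fam : Finset (Finset V) := E.powerset.filter (fun X => Conn G X ∧
    ∀ i, (E ∩ nbr G (P i)).Nonempty → (X ∩ nbr G (P i)).Nonempty) with hFam
  have hmemFam : ∀ X, X ∈ Fam ↔ X ⊆ E ∧ Conn G X ∧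
      ∀ i, (E ∩ nbr G (P i)).Nonempty → (X ∩ nbr G (P i)).Nonempty := by
    intro X
    rw [hFam, Finset.mem_filter, Finset.mem_powerset]
  have hEF : E ∈ Fam := (hmemFam E).2 ⟨Finset.Subset.refl _, hE, fun i hi => hi⟩
  -- minimal element
  obtain ⟨X0, hX0, hX0min⟩ := Finset.exists_min_image Fam Finset.card ⟨E, hEF⟩
  obtain ⟨hX0E, hX0c, hX0m⟩ := (hmemFam X0).1 hX0
  obtain ⟨S0, hS0X, hS0s, hS0w⟩ := bip_min (ι := {i : Fin t // (E ∩ nbr G (P i)).Nonempty}) hX0c
    (fun i => nbr G (P i.1)) w (fun i => hX0m i.1 i.2)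
    (by
      intro X' hX' hc
      by_contra hcon
      push Not at hcon
      have h3 : X' ∈ Fam := by
        refine (hmemFam X').2 ⟨hX'.1.trans hX0E, hc, fun i hi => ?_⟩
        exact hcon ⟨i, hi⟩
      have h4 := hX0min X' h3
      have h5 := Finset.card_lt_card hX'
      omega)
    (by
      intro i Y hY hc hi S hS hst
      exact h2 Y (hY.trans hX0E) hc i.1 hi S hS hst)
  -- maximal pair
  set Prs : Finset (Finset V × Finset V) := (E.powerset ×ˢ E.powerset).filter
    (fun p => p.1 ∈ Fam ∧ p.2 ⊆ p.1 ∧ Stable G p.2) with hPrs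
  have hmemPrs : ∀ X S, (X, S) ∈ Prs ↔ X ∈ Fam ∧ S ⊆ X ∧ Stable G S := by
    intro X S
    rw [hPrs, Finset.mem_filter, Finset.mem_product, Finset.mem_powerset, Finset.mem_powerset]
    constructor
    · intro h
      exact h.2
    · intro h
      exact ⟨⟨((hmemFam X).1 h.1).1, h.2.1.trans ((hmemFam X).1 h.1).1⟩, h⟩
  have h0 : (X0, S0) ∈ Prs := (hmemPrs X0 S0).2 ⟨hX0, hS0X, hS0s⟩
  obtain ⟨⟨X, S⟩, hXS, hmax⟩ := Finset.exists_max_image Prs
    (fun p : Finset V × Finset V => ((Fintype.card V : ℤ) + 1) *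
      (2 * ∑ v ∈ p.2, (w v : ℤ) - ∑ v ∈ p.1, (w v : ℤ)) + (p.1.card : ℤ)) ⟨_, h0⟩
  obtain ⟨hXF, hSX, hSs⟩ := (hmemPrs X S).1 hXS
  obtain ⟨hXE, hXc, hXm⟩ := (hmemFam X).1 hXF
  refine ⟨X, S, hXE, hXc, hXm, hSX, hSs, ?_, ?_⟩
  · have h3 := hmax _ h0
    dsimp only at h3
    have h4 : (X.card : ℤ) ≤ (Fintype.card V : ℤ) := by exact_mod_cast Finset.card_le_univ X
    have h5 : (0 : ℤ) ≤ (Fintype.card V : ℤ) := by positivity
    have h6 : (0 : ℤ) ≤ 2 * ∑ v ∈ S0, (w v : ℤ) - ∑ v ∈ X0, (w v : ℤ) := by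
      have : ((∑ v ∈ X0, w v : ℕ) : ℤ) ≤ ((2 * ∑ v ∈ S0, w v : ℕ) : ℤ) := by exact_mod_cast hS0w
      push_cast at this
      linarith
    have h7 : (0 : ℤ) ≤ ((Fintype.card V : ℤ) + 1) *
      (2 * ∑ v ∈ S0, (w v : ℤ) - ∑ v ∈ X0, (w v : ℤ)) := mul_nonneg (by linarith) h6
    have h8 : (0 : ℤ) ≤ (X0.card : ℤ) := by positivity
    have h9 : (0 : ℤ) ≤ 2 * ∑ v ∈ S, (w v : ℤ) - ∑ v ∈ X, (w v : ℤ) := by
      by_contra hcon
      push Not at hcon
      have h10 : 2 * ∑ v ∈ S, (w v : ℤ) - ∑ v ∈ X, (w v : ℤ) ≤ -1 := by omega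
      have h11 : ((Fintype.card V : ℤ) + 1) *
        (2 * ∑ v ∈ S, (w v : ℤ) - ∑ v ∈ X, (w v : ℤ)) ≤ ((Fintype.card V : ℤ) + 1) * (-1) :=
        mul_le_mul_of_nonneg_left h10 (by linarith)
      linarith
    have h12 : ((∑ v ∈ X, w v : ℕ) : ℤ) ≤ ((2 * ∑ v ∈ S, w v : ℕ) : ℤ) := by
      push_cast
      linarith
    exact_mod_cast h12
  · intro Y hY hYc hYX T hT hTs
    have hYE : Y ⊆ E := hY.trans Finset.sdiff_subset
    have hXY : Disjoint X Y := by
      rw [Finset.disjoint_left]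
      intro z hzX hzY
      exact (Finset.mem_sdiff.1 (hY hzY)).2 hzX
    have hTY : T ⊆ Y := hT.trans Finset.sdiff_subset
    have hST : Disjoint S T := hXY.mono hSX hTY
    have h3 : (X ∪ Y, S ∪ T) ∈ Prs := by
      refine (hmemPrs _ _).2 ⟨(hmemFam _).2 ⟨Finset.union_subset hXE hYE, ?_, ?_⟩, ?_, ?_⟩
      · exact hXc.union_touch hYc (A4_touch_of_nbr hYX)
      · intro i hi
        exact (hXm i hi).mono (Finset.inter_subset_inter_right Finset.subset_union_left)
      · exact Finset.union_subset_union hSX hTY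
      · refine A4_stable_union hSs hTs fun u hu v hv huv => ?_
        exact (Finset.mem_sdiff.1 (hT hv)).2 (mem_nbr.2 ⟨u, hSX hu, huv⟩)
    have h4 := hmax _ h3
    dsimp only at h4
    rw [Finset.sum_union hST, Finset.sum_union hXY, Finset.card_union_of_disjoint hXY] at h4
    push_cast at h4
    have h5 : (0 : ℤ) ≤ (Fintype.card V : ℤ) := by positivity
    have h6 : (1 : ℤ) ≤ (Y.card : ℤ) := by
      have := Finset.card_pos.2 hYc.nonempty
      omega
    have h7 : ((Fintype.card V : ℤ) + 1) * (2 * ∑ v ∈ T, (w v : ℤ) - ∑ v ∈ Y, (w v : ℤ)) + Y.card ≤ 0 := by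
      linarith
    have h8 : 2 * ∑ v ∈ T, (w v : ℤ) - ∑ v ∈ Y, (w v : ℤ) < 0 := by
      by_contra hcon
      push Not at hcon
      have h9 : (0 : ℤ) ≤ ((Fintype.card V : ℤ) + 1) *
        (2 * ∑ v ∈ T, (w v : ℤ) - ∑ v ∈ Y, (w v : ℤ)) := mul_nonneg (by linarith) hcon
      linarith
    have h10 : ((2 * ∑ v ∈ T, w v : ℕ) : ℤ) < ((∑ v ∈ Y, w v : ℕ) : ℤ) := by
      push_cast
      linarith
    exact_mod_cast h10


/-- A4: the recursion of Reed and Seymour. -/
theorem rs_rec (U : Finset V) (t : ℕ) (hmod : ¬ Model G U (t + 1)) (w : V → ℕ) (n : ℕ) :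
    ∀ (E : Finset V) (P : Fin t → Finset V), E.card ≤ n → E ⊆ U →
      (∀ D ⊆ E, Conn G D → ∀ i, (D ∩ nbr G (P i)).Nonempty →
        Conn G (P i) ∧ P i ⊆ U ∧ Disjoint (P i) E ∧
        ∀ j, j ≠ i → (D ∩ nbr G (P j)).Nonempty → Disjoint (P i) (P j) ∧ Touch G (P i) (P j)) →
      (∀ Y ⊆ E, Conn G Y → ∀ i, (Y ∩ nbr G (P i)).Nonempty → ∀ S ⊆ Y \ nbr G (P i), Stable G S →
        2 * ∑ v ∈ S, w v < ∑ v ∈ Y, w v) →
      ∃ S : Fin t → Finset V, (∀ i, S i ⊆ E \ nbr G (P i)) ∧ (∀ i, Stable G (S i)) ∧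
        ∑ v ∈ E, w v ≤ ∑ i, 2 * ∑ v ∈ S i, w v := by
  induction n with
  | zero =>
    intro E P hcard _ _ _
    have hE : E = ∅ := Finset.card_eq_zero.1 (Nat.le_zero.1 hcard)
    subst hE
    exact ⟨fun _ => ∅, fun i => Finset.empty_subset _, fun i => stable_empty, by simp⟩
  | succ n ih =>
    intro E P hcard hEU h1 h2
    rcases E.eq_empty_or_nonempty with rfl | ⟨x, hx⟩
    · exact ⟨fun _ => ∅, fun i => Finset.empty_subset _, fun i => stable_empty, by simp⟩
    by_cases hD : comp G E x = E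
    · have hE : Conn G E := by
        rw [← hD]
        exact conn_comp hx
      obtain ⟨c, hc⟩ : ∃ c, ¬ (E ∩ nbr G (P c)).Nonempty := by
        by_contra hcon
        push Not at hcon
        apply hmod
        refine A4_model (P := P) hE hEU fun i => ?_
        obtain ⟨k1, k2, k3, k4⟩ := h1 E (Finset.Subset.refl _) hE i (hcon i)
        exact ⟨k1, k2, k3, A4_touch_of_nbr (hcon i), fun j hj => k4 j hj (hcon j)⟩
      obtain ⟨X, S, hXE, hXc, hXm, hSX, hSs, hw, hmax⟩ := A4_pair w E P hE h2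
      have hcard' : (E \ X).card ≤ n := by
        have h3 : (E \ X).card < E.card := by
          apply Finset.card_lt_card
          refine ⟨Finset.sdiff_subset, fun h => ?_⟩
          obtain ⟨z, hz⟩ := hXc.nonempty
          exact (Finset.mem_sdiff.1 (h (hXE hz))).2 hz
        omega
      obtain ⟨S', hS'1, hS'2, hS'3⟩ := ih (E \ X) (Function.update P c X) hcard'
        (Finset.sdiff_subset.trans hEU)
        (by
          intro D hDE hDc i hi
          have hDE' : D ⊆ E := hDE.trans Finset.sdiff_subset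
          by_cases hic : i = c
          · subst hic
            rw [Function.update_self]
            refine ⟨hXc, hXE.trans hEU, Finset.disjoint_sdiff, fun j hj hDj => ?_⟩
            rw [Function.update_of_ne hj] at hDj ⊢
            obtain ⟨k1, k2, k3, k4⟩ := h1 D hDE' hDc j hDj
            refine ⟨(k3.mono_right hXE).symm, ?_⟩
            exact (A4_touch_of_nbr (hXm j
              (hDj.mono (Finset.inter_subset_inter_right hDE')))).symm
          · rw [Function.update_of_ne hic] at hi ⊢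
            obtain ⟨k1, k2, k3, k4⟩ := h1 D hDE' hDc i hi
            refine ⟨k1, k2, k3.mono_right Finset.sdiff_subset, fun j hj hDj => ?_⟩
            by_cases hjc : j = c
            · subst hjc
              rw [Function.update_self]
              refine ⟨k3.mono_right hXE, ?_⟩
              exact A4_touch_of_nbr (hXm i
                (hi.mono (Finset.inter_subset_inter_right hDE')))
            · rw [Function.update_of_ne hjc] at hDj ⊢
              exact k4 j hj hDj)
        (by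
          intro Y hY hYc i hi T hT hTs
          by_cases hic : i = c
          · subst hic
            rw [Function.update_self] at hi hT
            exact hmax Y hY hYc hi T hT hTs
          · rw [Function.update_of_ne hic] at hi hT
            exact h2 Y (hY.trans Finset.sdiff_subset) hYc i hi T hT hTs)
      refine ⟨Function.update S' c (S' c ∪ S), ?_, ?_, ?_⟩
      · intro i
        by_cases hic : i = c
        · subst hic
          rw [Function.update_self]
          intro z hz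
          have hzE : z ∈ E := by
            rcases Finset.mem_union.1 hz with h | h
            · exact (Finset.mem_sdiff.1 (Finset.mem_sdiff.1 (hS'1 i h)).1).1
            · exact hXE (hSX h)
          refine Finset.mem_sdiff.2 ⟨hzE, fun h => hc ⟨z, Finset.mem_inter.2 ⟨hzE, h⟩⟩⟩
        · rw [Function.update_of_ne hic]
          have h3 := hS'1 i
          rw [Function.update_of_ne hic] at h3
          exact h3.trans (Finset.sdiff_subset_sdiff Finset.sdiff_subset (Finset.Subset.refl _))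
      · intro i
        by_cases hic : i = c
        · subst hic
          rw [Function.update_self]
          refine A4_stable_union (hS'2 i) hSs fun u hu v hv huv => ?_
          have h3 := hS'1 i hu
          rw [Function.update_self] at h3
          exact (Finset.mem_sdiff.1 h3).2 (mem_nbr.2 ⟨v, hSX hv, huv.symm⟩)
        · rw [Function.update_of_ne hic]
          exact hS'2 i
      · have h3 : ∑ i, 2 * ∑ v ∈ (Function.update S' c (S' c ∪ S)) i, w v =
            (∑ i, 2 * ∑ v ∈ S' i, w v) + 2 * ∑ v ∈ S, w v := by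
          rw [← Finset.add_sum_erase Finset.univ _ (Finset.mem_univ c),
            ← Finset.add_sum_erase Finset.univ (fun i => 2 * ∑ v ∈ S' i, w v) (Finset.mem_univ c)]
          rw [Function.update_self]
          have h4 : ∑ i ∈ Finset.univ.erase c, 2 * ∑ v ∈ (Function.update S' c (S' c ∪ S)) i, w v =
              ∑ i ∈ Finset.univ.erase c, 2 * ∑ v ∈ S' i, w v := by
            refine Finset.sum_congr rfl fun i hi => ?_
            rw [Function.update_of_ne (Finset.ne_of_mem_erase hi)]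
          rw [h4]
          have h5 : Disjoint (S' c) S := by
            rw [Finset.disjoint_left]
            intro z hz hzS
            exact (Finset.mem_sdiff.1 (Finset.mem_sdiff.1 (hS'1 c hz)).1).2 (hSX hzS)
          rw [Finset.sum_union h5]
          ring
        rw [h3]
        have h4 : ∑ v ∈ E, w v = ∑ v ∈ E \ X, w v + ∑ v ∈ X, w v :=
          (Finset.sum_sdiff hXE).symm
        rw [h4]
        exact add_le_add hS'3 hw
    · have hDE := comp_subset (G := G) E x
      have hlt : (comp G E x).card < E.card :=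
        Finset.card_lt_card ⟨hDE, fun h => hD (Finset.Subset.antisymm hDE h)⟩
      have hlt' : (E \ comp G E x).card < E.card := by
        apply Finset.card_lt_card
        refine ⟨Finset.sdiff_subset, fun h => ?_⟩
        exact (Finset.mem_sdiff.1 (h hx)).2 (mem_comp_self hx)
      have key : ∀ F : Finset V, F ⊆ E → F.card < E.card →
          ∃ S : Fin t → Finset V, (∀ i, S i ⊆ F \ nbr G (P i)) ∧ (∀ i, Stable G (S i)) ∧
            ∑ v ∈ F, w v ≤ ∑ i, 2 * ∑ v ∈ S i, w v := by
        intro F hF hFc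
        refine ih F P (by omega) (hF.trans hEU) ?_ ?_
        · intro D hDF hDc i hi
          obtain ⟨k1, k2, k3, k4⟩ := h1 D (hDF.trans hF) hDc i hi
          exact ⟨k1, k2, k3.mono_right hF, k4⟩
        · intro Y hY
          exact h2 Y (hY.trans hF)
      obtain ⟨S', a1, a2, a3⟩ := key _ hDE hlt
      obtain ⟨S'', b1, b2, b3⟩ := key _ Finset.sdiff_subset hlt'
      refine ⟨fun i => S' i ∪ S'' i, ?_, ?_, ?_⟩
      · intro i
        refine Finset.union_subset ?_ ?_
        · exact (a1 i).trans (Finset.sdiff_subset_sdiff hDE (Finset.Subset.refl _))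
        · exact (b1 i).trans
            (Finset.sdiff_subset_sdiff Finset.sdiff_subset (Finset.Subset.refl _))
      · intro i
        refine A4_stable_union (a2 i) (b2 i) fun u hu v hv huv => ?_
        exact comp_no_touch E x ⟨u, (Finset.mem_sdiff.1 (a1 i hu)).1, v,
          (Finset.mem_sdiff.1 (b1 i hv)).1, huv⟩
      · have h3 : ∀ i, Disjoint (S' i) (S'' i) := by
          intro i
          rw [Finset.disjoint_left]
          intro z hz hz'
          exact (Finset.mem_sdiff.1 (Finset.mem_sdiff.1 (b1 i hz')).1).2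
            (Finset.mem_sdiff.1 (a1 i hz)).1
        have h4 : ∑ i, 2 * ∑ v ∈ S' i ∪ S'' i, w v =
            ∑ i, 2 * ∑ v ∈ S' i, w v + ∑ i, 2 * ∑ v ∈ S'' i, w v := by
          rw [← Finset.sum_add_distrib]
          refine Finset.sum_congr rfl fun i _ => ?_
          rw [Finset.sum_union (h3 i)]
          ring
        rw [h4, ← Finset.sum_sdiff hDE, add_comm]
        exact add_le_add a3 b3

/-! Row A5 -/
/-- A5: Reed-Seymour: heavy stable sets. -/
theorem rs (U : Finset V) (t : ℕ) (hmod : ¬ Model G U (t + 1)) (w : V → ℕ) :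
    ∃ I ⊆ U, Stable G I ∧ ∑ v ∈ U, w v ≤ 2 * t * ∑ v ∈ I, w v := by
  have hn : ∀ D : Finset V, ¬ (D ∩ nbr G (∅ : Finset V)).Nonempty := by
    rintro D ⟨v, hv⟩
    rw [Finset.mem_inter, mem_nbr] at hv
    obtain ⟨-, u, hu, -⟩ := hv
    exact absurd hu (Finset.notMem_empty u)
  obtain ⟨S, hS1, hS2, hS3⟩ := rs_rec U t hmod w U.card U (fun _ => ∅) le_rfl
    (Finset.Subset.refl U) (fun D _ _ i h => absurd h (hn D))
    (fun Y _ _ i h => absurd h (hn Y))
  rcases Nat.eq_zero_or_pos t with ht | ht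
  · subst ht
    refine ⟨∅, Finset.empty_subset _, fun u hu => absurd hu (Finset.notMem_empty u), ?_⟩
    rw [Finset.univ_eq_empty, Finset.sum_empty] at hS3
    rw [Finset.sum_empty, mul_zero]
    exact hS3
  · have : Nonempty (Fin t) := ⟨⟨0, ht⟩⟩
    obtain ⟨i, -, hi⟩ := Finset.exists_max_image (Finset.univ : Finset (Fin t))
      (fun i => ∑ v ∈ S i, w v) Finset.univ_nonempty
    refine ⟨S i, (hS1 i).trans Finset.sdiff_subset, hS2 i, hS3.trans ?_⟩
    calc ∑ j, 2 * ∑ v ∈ S j, w v ≤ ∑ _j : Fin t, 2 * ∑ v ∈ S i, w v :=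
          Finset.sum_le_sum fun j hj => Nat.mul_le_mul_left 2 (hi j hj)
      _ = 2 * t * ∑ v ∈ S i, w v := by
          rw [Finset.sum_const, Finset.card_univ, Fintype.card_fin, smul_eq_mul]
          ring

end HD
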