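import Pool.Agent.LibHD.A

set_option autoImplicit false
set_option linter.unusedSectionVars false

open scoped Classical

noncomputable section

namespace HD

variable {V : Type*} [Fintype V] [DecidableEq V] {G : SimpleGraph V}

/-! Row B1 -/
theorem B1_pow_le (t : ℕ) (ht : 1 ≤ t) (L : ℕ) :
    ((1 : ℝ) - 1 / (4 * t)) ^ (4 * t * L) ≤ (3 / 8 : ℝ) ^ L := by
  have ht' : (1 : ℝ) ≤ t := by exact_mod_cast ht
  have h0 : (0 : ℝ) ≤ 1 - 1 / (4 * t) := by
    rw [sub_nonneg, div_le_one (by positivity)]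
    linarith
  have h1 : (1 : ℝ) - 1 / (4 * t) ≤ Real.exp (-(1 / (4 * t))) := by
    have := Real.add_one_le_exp (-(1 / (4 * (t : ℝ))))
    linarith
  have h2 : ((1 : ℝ) - 1 / (4 * t)) ^ (4 * t) ≤ 3 / 8 := by
    calc ((1 : ℝ) - 1 / (4 * t)) ^ (4 * t) ≤ (Real.exp (-(1 / (4 * t)))) ^ (4 * t) :=
          pow_le_pow_left₀ h0 h1 _
      _ = Real.exp (-1) := by
          rw [← Real.exp_nat_mul]
          congr 1
          push_cast
          field_simp
      _ ≤ 3 / 8 := by
          have h3 := Real.exp_one_gt_d9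
          rw [Real.exp_neg]
          rw [inv_le_comm₀ (Real.exp_pos 1) (by norm_num)]
          norm_num
          linarith
  rw [pow_mul]
  exact pow_le_pow_left₀ (pow_nonneg h0 _) h2 L

/-- the number of indices below `m` whose set contains `v` -/
theorem B1_step (U : Finset V) (t : ℕ) (ht : 1 ≤ t) (T : ℕ)
    (h : ∀ w : V → ℕ, ∃ I ⊆ U, Stable G I ∧ ∑ v ∈ U, w v ≤ 2 * t * ∑ v ∈ I, w v) :
    ∀ m ≤ T, ∃ I : ℕ → Finset V, (∀ i, I i ⊆ U ∧ Stable G (I i)) ∧
      ∑ v ∈ U, (2 : ℝ) ^ (T - ((Finset.range m).filter (fun i => v ∈ I i)).card)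
        ≤ (U.card : ℝ) * 2 ^ T * (1 - 1 / (4 * t)) ^ m := by
  have ht' : (1 : ℝ) ≤ t := by exact_mod_cast ht
  intro m
  induction m with
  | zero =>
    intro _
    refine ⟨fun _ => ∅, fun _ => ⟨Finset.empty_subset _, stable_empty⟩, ?_⟩
    simp
  | succ m ih =>
    intro hm
    obtain ⟨I, hI, hs⟩ := ih (by omega)
    obtain ⟨J, hJU, hJs, hJ⟩ := h (fun v => 2 ^ (T - ((Finset.range m).filter (fun i => v ∈ I i)).card))
    refine ⟨Function.update I m J, ?_, ?_⟩
    · intro i
      by_cases hi : i = m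
      · subst hi
        simp only [Function.update_self]
        exact ⟨hJU, hJs⟩
      · simp only [Function.update_of_ne hi]
        exact hI i
    · set c : V → ℕ := fun v => ((Finset.range m).filter (fun i => v ∈ I i)).card with hc
      have hcm : ∀ v, c v ≤ m := by
        intro v
        calc c v ≤ (Finset.range m).card := Finset.card_filter_le _ _
          _ = m := Finset.card_range m
      have hnew : ∀ v, ((Finset.range (m + 1)).filter (fun i => v ∈ Function.update I m J i)).card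
          = c v + if v ∈ J then 1 else 0 := by
        intro v
        rw [Finset.range_add_one, Finset.filter_insert]
        have h1 : (Finset.range m).filter (fun i => v ∈ Function.update I m J i)
            = (Finset.range m).filter (fun i => v ∈ I i) := by
          apply Finset.filter_congr
          intro i hi
          have : i ≠ m := by
            have := Finset.mem_range.1 hi
            omega
          rw [Function.update_of_ne this]
        rw [h1]
        by_cases hv : v ∈ J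
        · rw [if_pos (by rw [Function.update_self]; exact hv), Finset.card_insert_of_notMem (by simp), if_pos hv]
        · rw [if_neg (by rw [Function.update_self]; exact hv), if_neg hv]
          rfl
      have hval : ∀ v ∈ U, (2 : ℝ) ^ (T - ((Finset.range (m + 1)).filter (fun i => v ∈ Function.update I m J i)).card)
          = 2 ^ (T - c v) - (if v ∈ J then (2 : ℝ) ^ (T - c v) / 2 else 0) := by
        intro v _
        rw [hnew v]
        by_cases hv : v ∈ J
        · rw [if_pos hv, if_pos hv]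
          have h3 : T - c v = (T - (c v + 1)) + 1 := by
            have := hcm v
            omega
          rw [h3, pow_succ]
          have h4 : T - (c v + 1) = (T - (c v + 1)) := rfl
          ring
        · rw [if_neg hv, if_neg hv]
          simp
      rw [Finset.sum_congr rfl hval, Finset.sum_sub_distrib, ← Finset.sum_filter]
      have hUJ : U.filter (fun v => v ∈ J) = J := by
        ext z
        rw [Finset.mem_filter]
        exact ⟨fun h => h.2, fun h => ⟨hJU h, h⟩⟩
      rw [hUJ, ← Finset.sum_div]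
      have hJ' : (∑ v ∈ U, (2 : ℝ) ^ (T - c v)) ≤ 2 * t * ∑ v ∈ J, (2 : ℝ) ^ (T - c v) := by
        exact_mod_cast hJ
      set W : ℝ := ∑ v ∈ U, (2 : ℝ) ^ (T - c v) with hW
      set X : ℝ := ∑ v ∈ J, (2 : ℝ) ^ (T - c v) with hX
      have hW0 : 0 ≤ W := Finset.sum_nonneg (fun _ _ => by positivity)
      have h5 : W / (4 * t) ≤ X / 2 := by
        rw [div_le_div_iff₀ (by positivity) (by norm_num)]
        nlinarith
      have h0 : (0 : ℝ) ≤ 1 - 1 / (4 * t) := by
        rw [sub_nonneg, div_le_one (by positivity)]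
        linarith
      calc W - X / 2 ≤ W * (1 - 1 / (4 * t)) := by
            have : W * (1 - 1 / (4 * t)) = W - W / (4 * t) := by ring
            rw [this]
            linarith
        _ ≤ ((U.card : ℝ) * 2 ^ T * (1 - 1 / (4 * t)) ^ m) * (1 - 1 / (4 * t)) :=
            mul_le_mul_of_nonneg_right hs h0
        _ = (U.card : ℝ) * 2 ^ T * (1 - 1 / (4 * t)) ^ (m + 1) := by rw [pow_succ]; ring

/-- B1: a family of stable sets covering every vertex often. -/
theorem frac_cover (U : Finset V) (t : ℕ) (ht : 1 ≤ t)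
    (h : ∀ w : V → ℕ, ∃ I ⊆ U, Stable G I ∧ ∑ v ∈ U, w v ≤ 2 * t * ∑ v ∈ I, w v) :
    ∃ (T : ℕ) (I : Fin T → Finset V), 0 < T ∧ (∀ τ, I τ ⊆ U ∧ Stable G (I τ)) ∧
      ∀ v ∈ U, T ≤ 4 * t * (Finset.univ.filter (fun τ => v ∈ I τ)).card := by
  obtain ⟨L', hL'⟩ := pow_unbounded_of_one_lt (U.card : ℝ) (by norm_num : (1 : ℝ) < 4 / 3)
  set L := L' + 1 with hLdef
  have hL : (U.card : ℝ) < (4 / 3 : ℝ) ^ L := by
    refine lt_of_lt_of_le hL' ?_
    exact pow_le_pow_right₀ (by norm_num) (by omega)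
  have hL1 : 1 ≤ L := by omega
  set T := 4 * t * L with hT
  have hLT : L ≤ T := by
    rw [hT]
    nlinarith
  obtain ⟨I, hI, hs⟩ := B1_step U t ht T h T le_rfl
  refine ⟨T, fun τ => I τ, by omega, fun τ => hI τ, ?_⟩
  intro v hv
  by_contra hcon
  push Not at hcon
  have hcard : (Finset.univ.filter (fun τ : Fin T => v ∈ I τ)).card
      = ((Finset.range T).filter (fun i => v ∈ I i)).card := by
    rw [Finset.card_filter, Finset.card_filter]
    exact Fin.sum_univ_eq_sum_range (fun i => if v ∈ I i then 1 else 0) T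
  rw [hcard] at hcon
  set c := ((Finset.range T).filter (fun i => v ∈ I i)).card with hc
  have hcL : c + 1 ≤ L := by
    have h1 : 4 * t * c < 4 * t * L := hcon
    exact Nat.lt_of_mul_lt_mul_left h1
  have h1 : (2 : ℝ) ^ (T - c) ≤ (U.card : ℝ) * 2 ^ T * (1 - 1 / (4 * t)) ^ T := by
    refine le_trans ?_ hs
    exact Finset.single_le_sum (f := fun v => (2 : ℝ) ^ (T - ((Finset.range T).filter (fun i => v ∈ I i)).card))
      (fun _ _ => by positivity) hv
  have h2 : (U.card : ℝ) * 2 ^ T * (1 - 1 / (4 * t)) ^ T ≤ (U.card : ℝ) * 2 ^ T * (3 / 8 : ℝ) ^ L :=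
    mul_le_mul_of_nonneg_left (B1_pow_le t ht L) (by positivity)
  have h3 : (2 : ℝ) ^ (T - L + 1) ≤ 2 ^ (T - c) := pow_le_pow_right₀ (by norm_num) (by omega)
  have h4 : (2 : ℝ) ^ (T - L + 1) * 2 ^ L = 2 * 2 ^ T := by
    rw [← pow_add, show T - L + 1 + L = T + 1 by omega, pow_succ]
    ring
  have h5 : (3 / 8 : ℝ) ^ L * 2 ^ L * (4 / 3) ^ L = 1 := by
    rw [← mul_pow, ← mul_pow]
    norm_num
  have h6 : 0 < (3 / 8 : ℝ) ^ L * 2 ^ L := by positivity
  have h7 : (U.card : ℝ) * ((3 / 8 : ℝ) ^ L * 2 ^ L) < 1 := by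
    calc (U.card : ℝ) * ((3 / 8 : ℝ) ^ L * 2 ^ L) < (4 / 3 : ℝ) ^ L * ((3 / 8 : ℝ) ^ L * 2 ^ L) :=
          mul_lt_mul_of_pos_right hL h6
      _ = 1 := by rw [← h5]; ring
  have h8 : (2 : ℝ) * 2 ^ T ≤ 2 ^ T * ((U.card : ℝ) * ((3 / 8 : ℝ) ^ L * 2 ^ L)) := by
    calc (2 : ℝ) * 2 ^ T = 2 ^ (T - L + 1) * 2 ^ L := h4.symm
      _ ≤ ((U.card : ℝ) * 2 ^ T * (3 / 8 : ℝ) ^ L) * 2 ^ L :=
          mul_le_mul_of_nonneg_right (h3.trans (h1.trans h2)) (by positivity)
      _ = 2 ^ T * ((U.card : ℝ) * ((3 / 8 : ℝ) ^ L * 2 ^ L)) := by ring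
  have h9 : (0 : ℝ) < 2 ^ T := by positivity
  nlinarith

/-! Row B2 -/
theorem B2_col (U : Finset V) (T N : ℕ) (I : Fin T → Finset V) (ω : Fin N → Fin T)
    (hI : ∀ τ, I τ ⊆ U ∧ Stable G (I τ)) :
    Col G (U \ (U \ Finset.univ.biUnion (fun j => I (ω j)))) N := by
  have hmem : ∀ u ∈ U \ (U \ Finset.univ.biUnion (fun j => I (ω j))), ∃ j, u ∈ I (ω j) := by
    intro u hu
    rw [Finset.mem_sdiff, Finset.mem_sdiff] at hu
    have h1 : u ∈ Finset.univ.biUnion (fun j => I (ω j)) := by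
      by_contra h2
      exact hu.2 ⟨hu.1, h2⟩
    obtain ⟨j, _, hj⟩ := Finset.mem_biUnion.1 h1
    exact ⟨j, hj⟩
  refine ⟨fun u => if h : ∃ j, u ∈ I (ω j) then (Classical.choose h).val else 0, ?_, ?_⟩
  · intro u hu
    have h := hmem u hu
    simp only [h, dite_true]
    exact (Classical.choose h).2
  · intro u hu v hv huv heq
    have h := hmem u hu
    have h' := hmem v hv
    simp only [h, h', dite_true] at heq
    have h1 := Classical.choose_spec h
    have h2 := Classical.choose_spec h'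
    have h3 : Classical.choose h = Classical.choose h' := Fin.ext heq
    rw [← h3] at h2
    exact (hI _).2 u h1 v h2 huv

/-- B2: the first leftover family. -/
theorem left_init (U : Finset V) (t : ℕ) (ht : 1 ≤ t) (T : ℕ) (I : Fin T → Finset V) (hT : 0 < T)
    (hI : ∀ τ, I τ ⊆ U ∧ Stable G (I τ))
    (hc : ∀ v ∈ U, T ≤ 4 * t * (Finset.univ.filter (fun τ => v ∈ I τ)).card) (k : ℕ) :
    Left G U (4 * t * k) (Real.exp (-(k : ℝ))) := by
  refine ⟨Fin (4 * t * k) → Fin T, inferInstance, ⟨fun _ => ⟨0, hT⟩⟩,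
    fun ω => U \ Finset.univ.biUnion (fun j => I (ω j)), ?_, ?_⟩
  · intro ω
    exact B2_col U T _ I ω hI
  · intro v hv
    have h1 : (Finset.univ.filter (fun ω : Fin (4 * t * k) → Fin T =>
        v ∈ U \ Finset.univ.biUnion (fun j => I (ω j)))) =
        Fintype.piFinset (fun _ : Fin (4 * t * k) =>
          (Finset.univ.filter (fun τ : Fin T => v ∉ I τ))) := by
      ext ω
      rw [Finset.mem_filter, Fintype.mem_piFinset, Finset.mem_sdiff]
      constructor
      · rintro ⟨_, _, h2⟩ j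
        rw [Finset.mem_filter]
        exact ⟨Finset.mem_univ _, fun h3 => h2 (Finset.mem_biUnion.2 ⟨j, Finset.mem_univ _, h3⟩)⟩
      · intro h2
        refine ⟨Finset.mem_univ _, hv, fun h3 => ?_⟩
        obtain ⟨j, _, hj⟩ := Finset.mem_biUnion.1 h3
        exact (Finset.mem_filter.1 (h2 j)).2 hj
    rw [h1, Fintype.card_piFinset_const, Fintype.card_fun, Fintype.card_fin, Fintype.card_fin]
    have h2 : (Finset.univ.filter (fun τ : Fin T => v ∈ I τ)).card +
        (Finset.univ.filter (fun τ : Fin T => v ∉ I τ)).card = T := by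
      rw [Finset.card_filter_add_card_filter_not, Finset.card_univ, Fintype.card_fin]
    have h3 := hc v hv
    set a : ℕ := (Finset.univ.filter (fun τ : Fin T => v ∈ I τ)).card with ha
    set b : ℕ := (Finset.univ.filter (fun τ : Fin T => v ∉ I τ)).card with hb
    have ht' : (0 : ℝ) < 4 * t := by
      have : (0 : ℝ) < (t : ℝ) := by exact_mod_cast ht
      linarith
    have hTr : (0 : ℝ) < T := by exact_mod_cast hT
    have h4 : (T : ℝ) ≤ 4 * t * a := by exact_mod_cast h3
    have h5 : (a : ℝ) + b = T := by exact_mod_cast h2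
    have h6 : (b : ℝ) ≤ Real.exp (-(1 / (4 * t))) * T := by
      have h7 : 1 - 1 / (4 * (t : ℝ)) ≤ Real.exp (-(1 / (4 * t))) := by
        have := Real.add_one_le_exp (-(1 / (4 * (t : ℝ))))
        linarith
      have h8 : (b : ℝ) ≤ (1 - 1 / (4 * (t : ℝ))) * T := by
        have h9 : (T : ℝ) / (4 * t) ≤ a := by
          rw [div_le_iff₀ ht']
          linarith
        have h10 : (1 - 1 / (4 * (t : ℝ))) * T = T - T / (4 * t) := by ring
        rw [h10]
        linarith
      exact h8.trans (mul_le_mul_of_nonneg_right h7 hTr.le)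
    push_cast
    calc (b : ℝ) ^ (4 * t * k) ≤ (Real.exp (-(1 / (4 * t))) * T) ^ (4 * t * k) :=
          pow_le_pow_left₀ (Nat.cast_nonneg b) h6 _
      _ = Real.exp (-(1 / (4 * t))) ^ (4 * t * k) * (T : ℝ) ^ (4 * t * k) := mul_pow _ _ _
      _ = Real.exp (-(k : ℝ)) * (T : ℝ) ^ (4 * t * k) := by
          rw [← Real.exp_nat_mul]
          congr 2
          push_cast
          field_simp

/-! Row B3 -/
/-- the vertices of `U` in `R (ω j)` and in no other `R (ω i)` -/
theorem B3_sub {Ω : Type} {N : ℕ} (U : Finset V) (R : Ω → Finset V) (ω : Fin N → Ω) (j : Fin N) :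
    U \ (R (ω j) ∩ (Finset.univ.filter (fun i => i ≠ j)).biUnion (fun i => R (ω i))) ⊆
      (U \ R (ω j)) ∪ ((U ∩ R (ω j)) \ (Finset.univ.filter (fun i => i ≠ j)).biUnion (fun i => R (ω i))) := by
  intro x hx
  simp only [Finset.mem_sdiff, Finset.mem_inter, Finset.mem_union] at hx ⊢
  tauto

theorem B3_count {Ω : Type} [Fintype Ω] [Nonempty Ω] {N : ℕ} (P : Ω → Prop) {i j : Fin N} (hij : i ≠ j) {p : ℝ}
    (hP : (((Finset.univ.filter (fun ω => P ω)).card : ℕ) : ℝ) ≤ p * (Fintype.card Ω : ℝ)) :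
    (((Finset.univ.filter (fun ω : Fin N → Ω => P (ω j) ∧ P (ω i))).card : ℕ) : ℝ) ≤
      p ^ 2 * (Fintype.card (Fin N → Ω) : ℝ) := by
  have hpos : (0:ℝ) < (Fintype.card Ω : ℝ) := by exact_mod_cast Fintype.card_pos
  set A : Finset Ω := Finset.univ.filter (fun ω => P ω) with hA
  have h1 : (Finset.univ.filter (fun ω : Fin N → Ω => P (ω j) ∧ P (ω i))) =
      Fintype.piFinset (fun k : Fin N => if k = j then A else if k = i then A else (Finset.univ : Finset Ω)) := by
    ext ω
    simp only [Finset.mem_filter, Finset.mem_univ, true_and, Fintype.mem_piFinset]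
    constructor
    · rintro ⟨h2, h3⟩ k
      split_ifs with h4 h5
      · rw [h4, hA]; simpa using h2
      · rw [h5, hA]; simpa using h3
      · simp
    · intro h
      have h2 := h j
      have h3 := h i
      rw [if_pos rfl] at h2
      rw [if_neg hij, if_pos rfl] at h3
      rw [hA] at h2 h3
      exact ⟨by simpa using h2, by simpa using h3⟩
  set q : ℝ := (A.card : ℝ) / (Fintype.card Ω : ℝ) with hq
  have hqp : q ≤ p := by rw [hq, div_le_iff₀ hpos]; exact hP
  have hq0 : 0 ≤ q := by positivity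
  have h2 : ((Fintype.piFinset (fun k : Fin N => if k = j then A else if k = i then A else
      (Finset.univ : Finset Ω))).card : ℝ) = q ^ 2 * (Fintype.card (Fin N → Ω) : ℝ) := by
    rw [Fintype.card_piFinset, Nat.cast_prod]
    have h3 : ∀ k : Fin N, (((if k = j then A else if k = i then A else (Finset.univ : Finset Ω)).card : ℕ) : ℝ) =
        (Fintype.card Ω : ℝ) * ((if k = j then q else 1) * (if k = i then q else 1)) := by
      intro k
      by_cases h4 : k = j
      · have h5 : k ≠ i := by rw [h4]; exact hij.symm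
        rw [if_pos h4, if_pos h4, if_neg h5, hq]
        field_simp
      · by_cases h5 : k = i
        · rw [if_neg h4, if_pos h5, if_neg h4, if_pos h5, hq]
          field_simp
        · rw [if_neg h4, if_neg h5, if_neg h4, if_neg h5]
          simp
    rw [Finset.prod_congr rfl (fun k _ => h3 k), Finset.prod_mul_distrib, Finset.prod_const,
      Finset.prod_mul_distrib, Finset.prod_ite_eq', Finset.prod_ite_eq']
    simp
    ring
  rw [h1, h2]
  exact mul_le_mul_of_nonneg_right (pow_le_pow_left₀ hq0 hqp 2) (by positivity)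

theorem B3_disj {Ω : Type} {N : ℕ} (U : Finset V) (R : Ω → Finset V) (ω : Fin N → Ω) {j k : Fin N} (hjk : j ≠ k) :
    Disjoint ((U ∩ R (ω j)) \ (Finset.univ.filter (fun i => i ≠ j)).biUnion (fun i => R (ω i)))
      ((U ∩ R (ω k)) \ (Finset.univ.filter (fun i => i ≠ k)).biUnion (fun i => R (ω i))) := by
  rw [Finset.disjoint_left]
  intro x h1 h2
  simp only [Finset.mem_sdiff, Finset.mem_inter, Finset.mem_biUnion, Finset.mem_filter, Finset.mem_univ,
    true_and, not_exists, not_and] at h1 h2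
  exact h2.2 j hjk h1.1.2

theorem B3_few {Ω : Type} {N : ℕ} {U : Finset V} {M c1 : ℕ} (R : Ω → Finset V)
    (hno : ¬ ∃ W : Fin M → Finset V, (∀ i, W i ⊆ U ∧ ¬ Col G (W i) c1) ∧ ∀ i j, i ≠ j → Disjoint (W i) (W j))
    (ω : Fin N → Ω) :
    (Finset.univ.filter (fun j : Fin N => ¬ Col G ((U ∩ R (ω j)) \
      (Finset.univ.filter (fun i => i ≠ j)).biUnion (fun i => R (ω i))) c1)).card ≤ M := by
  by_contra hcon
  push Not at hcon
  obtain ⟨s, hs, hc⟩ := Finset.exists_subset_card_eq hcon.le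
  apply hno
  refine ⟨fun i => (U ∩ R (ω (s.orderEmbOfFin hc i))) \
    (Finset.univ.filter (fun k => k ≠ s.orderEmbOfFin hc i)).biUnion (fun k => R (ω k)), ?_, ?_⟩
  · intro i
    have h1 := hs (Finset.orderEmbOfFin_mem s hc i)
    rw [Finset.mem_filter] at h1
    exact ⟨Finset.sdiff_subset.trans Finset.inter_subset_left, h1.2⟩
  · intro i k hik
    exact B3_disj U R ω (fun h => hik ((s.orderEmbOfFin hc).injective h))

/-- B3: squaring. -/
theorem left_square {U : Finset V} {K M c1 : ℕ} {p : ℝ} (hM : 1 ≤ M) (hp : 0 ≤ p) (h : Left G U K p)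
    (hno : ¬ ∃ W : Fin M → Finset V, (∀ i, W i ⊆ U ∧ ¬ Col G (W i) c1) ∧ ∀ i j, i ≠ j → Disjoint (W i) (W j)) :
    Left G U (K + c1) (4 * M * p ^ 2) := by
  obtain ⟨Ω, i1, i2, R, hcol, hR⟩ := h
  have hT0 : (0:ℝ) < (Fintype.card (Fin (2 * M) → Ω) : ℝ) := by exact_mod_cast Fintype.card_pos
  -- the bad pairs
  have hsum : ∑ j : Fin (2 * M), ((Finset.univ.filter (fun ω : Fin (2 * M) → Ω => ¬ Col G ((U ∩ R (ω j)) \
      (Finset.univ.filter (fun i => i ≠ j)).biUnion (fun i => R (ω i))) c1)).card) ≤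
      M * Fintype.card (Fin (2 * M) → Ω) := by
    have h1 : ∑ j : Fin (2 * M), ((Finset.univ.filter (fun ω : Fin (2 * M) → Ω => ¬ Col G ((U ∩ R (ω j)) \
      (Finset.univ.filter (fun i => i ≠ j)).biUnion (fun i => R (ω i))) c1)).card) =
      ∑ ω : Fin (2 * M) → Ω, ((Finset.univ.filter (fun j : Fin (2 * M) => ¬ Col G ((U ∩ R (ω j)) \
      (Finset.univ.filter (fun i => i ≠ j)).biUnion (fun i => R (ω i))) c1)).card) := by
      simp only [Finset.card_filter]
      rw [Finset.sum_comm]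
    rw [h1]
    refine (Finset.sum_le_card_nsmul _ _ M (fun ω _ => B3_few R hno ω)).trans ?_
    rw [smul_eq_mul, mul_comm, Finset.card_univ]
  have hj : ∃ j : Fin (2 * M), 2 * ((Finset.univ.filter (fun ω : Fin (2 * M) → Ω => ¬ Col G ((U ∩ R (ω j)) \
      (Finset.univ.filter (fun i => i ≠ j)).biUnion (fun i => R (ω i))) c1)).card) ≤
      Fintype.card (Fin (2 * M) → Ω) := by
    by_contra hcon
    push Not at hcon
    have hne : (Finset.univ : Finset (Fin (2 * M))).Nonempty := by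
      refine ⟨⟨0, by omega⟩, Finset.mem_univ _⟩
    have h2 := Finset.sum_lt_sum_of_nonempty hne (fun j _ => hcon j)
    rw [Finset.sum_const, Finset.card_univ, Fintype.card_fin, smul_eq_mul, ← Finset.mul_sum] at h2
    nlinarith [hsum]
  obtain ⟨j, hj⟩ := hj
  have hgood : Fintype.card (Fin (2 * M) → Ω) ≤ 2 * Fintype.card {ω : Fin (2 * M) → Ω // Col G ((U ∩ R (ω j)) \
      (Finset.univ.filter (fun i => i ≠ j)).biUnion (fun i => R (ω i))) c1} := by
    rw [Fintype.card_subtype]
    have h3 := Finset.card_filter_add_card_filter_not (s := (Finset.univ : Finset (Fin (2 * M) → Ω)))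
      (fun ω : Fin (2 * M) → Ω => Col G ((U ∩ R (ω j)) \
      (Finset.univ.filter (fun i => i ≠ j)).biUnion (fun i => R (ω i))) c1)
    rw [Finset.card_univ] at h3
    omega
  refine ⟨{ω : Fin (2 * M) → Ω // Col G ((U ∩ R (ω j)) \
      (Finset.univ.filter (fun i => i ≠ j)).biUnion (fun i => R (ω i))) c1}, inferInstance, ?_,
      fun ω => R (ω.1 j) ∩ (Finset.univ.filter (fun i => i ≠ j)).biUnion (fun i => R (ω.1 i)), ?_, ?_⟩
  · rw [← Fintype.card_pos_iff]
    have : 0 < Fintype.card (Fin (2 * M) → Ω) := Fintype.card_pos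
    omega
  · intro ω
    exact ((hcol (ω.1 j)).union ω.2).mono (B3_sub U R ω.1 j) le_rfl
  · intro v hv
    have hgood' : (Fintype.card (Fin (2 * M) → Ω) : ℝ) ≤ 2 * (Fintype.card {ω : Fin (2 * M) → Ω //
      Col G ((U ∩ R (ω j)) \ (Finset.univ.filter (fun i => i ≠ j)).biUnion (fun i => R (ω i))) c1} : ℝ) := by
      exact_mod_cast hgood
    have h4 : ((Finset.univ.filter (fun ω : {ω : Fin (2 * M) → Ω // Col G ((U ∩ R (ω j)) \
      (Finset.univ.filter (fun i => i ≠ j)).biUnion (fun i => R (ω i))) c1} =>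
        v ∈ R (ω.1 j) ∩ (Finset.univ.filter (fun i => i ≠ j)).biUnion (fun i => R (ω.1 i)))).card) ≤
        ∑ i ∈ Finset.univ.filter (fun i => i ≠ j),
          (Finset.univ.filter (fun ω : Fin (2 * M) → Ω => v ∈ R (ω j) ∧ v ∈ R (ω i))).card := by
      refine le_trans ?_ (Finset.card_biUnion_le (s := Finset.univ.filter (fun i => i ≠ j))
        (t := fun i => Finset.univ.filter (fun ω : Fin (2 * M) → Ω => v ∈ R (ω j) ∧ v ∈ R (ω i))))
      refine Finset.card_le_card_of_injOn (fun ω => ω.1) ?_ (fun a _ b _ hab => Subtype.ext hab)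
      intro ω hω
      have h5 : v ∈ R (ω.1 j) ∩ (Finset.univ.filter (fun i => i ≠ j)).biUnion (fun i => R (ω.1 i)) := by
        simpa using hω
      rw [Finset.mem_inter, Finset.mem_biUnion] at h5
      obtain ⟨h6, i, hi, h7⟩ := h5
      show ω.1 ∈ (((Finset.univ.filter (fun i => i ≠ j)).biUnion
        (fun i => Finset.univ.filter (fun ω : Fin (2 * M) → Ω => v ∈ R (ω j) ∧ v ∈ R (ω i))) :
          Finset (Fin (2 * M) → Ω)) : Set (Fin (2 * M) → Ω))
      rw [Finset.mem_coe, Finset.mem_biUnion]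
      exact ⟨i, hi, by simp [h6, h7]⟩
    have h5 : (∑ i ∈ Finset.univ.filter (fun i => i ≠ j),
          (((Finset.univ.filter (fun ω : Fin (2 * M) → Ω => v ∈ R (ω j) ∧ v ∈ R (ω i))).card : ℕ) : ℝ)) ≤
          2 * M * (p ^ 2 * (Fintype.card (Fin (2 * M) → Ω) : ℝ)) := by
      refine (Finset.sum_le_card_nsmul _ _ (p ^ 2 * (Fintype.card (Fin (2 * M) → Ω) : ℝ)) ?_).trans ?_
      · intro i hi
        have h8 := B3_count (N := 2 * M) (fun ω0 => v ∈ R ω0) (Finset.mem_filter.1 hi).2 (p := p) (le_of_eq_of_le (by congr 2; exact Finset.filter_congr_decidable _ _ _) (hR v hv))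
        refine le_trans (le_of_eq ?_) h8
        congr!
      · rw [nsmul_eq_mul]
        refine mul_le_mul_of_nonneg_right ?_ (by positivity)
        have h6 : (Finset.univ.filter (fun i : Fin (2 * M) => i ≠ j)).card ≤ 2 * M := by
          refine (Finset.card_le_univ _).trans ?_
          rw [Fintype.card_fin]
        exact_mod_cast h6
    have h6 : (((Finset.univ.filter (fun ω : {ω : Fin (2 * M) → Ω // Col G ((U ∩ R (ω j)) \
      (Finset.univ.filter (fun i => i ≠ j)).biUnion (fun i => R (ω i))) c1} =>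
        v ∈ R (ω.1 j) ∩ (Finset.univ.filter (fun i => i ≠ j)).biUnion (fun i => R (ω.1 i)))).card : ℕ) : ℝ) ≤
        2 * M * (p ^ 2 * (Fintype.card (Fin (2 * M) → Ω) : ℝ)) := by
      refine le_trans ?_ h5
      exact_mod_cast h4
    refine h6.trans ?_
    have h7 : 2 * (M:ℝ) * (p ^ 2 * (Fintype.card (Fin (2 * M) → Ω) : ℝ)) ≤
        2 * (M:ℝ) * (p ^ 2 * (2 * (Fintype.card {ω : Fin (2 * M) → Ω //
      Col G ((U ∩ R (ω j)) \ (Finset.univ.filter (fun i => i ≠ j)).biUnion (fun i => R (ω i))) c1} : ℝ))) := by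
      refine mul_le_mul_of_nonneg_left (mul_le_mul_of_nonneg_left hgood' (by positivity)) (by positivity)
    refine h7.trans (le_of_eq ?_)
    ring

/-! Row B4 -/
/-- B4: a leftover family with small p gives a colouring. -/
theorem left_finish {U : Finset V} {K t : ℕ} {p : ℝ} (h : Left G U K p) (hp : p * (U.card : ℝ) < t + 1) :
    Col G U (K + t) := by
  obtain ⟨Ω, hΩ, hne, R, hcol, hfr⟩ := h
  have hΩ0 : (0 : ℝ) < (Fintype.card Ω : ℝ) := by exact_mod_cast Fintype.card_pos
  have hdc : ∑ ω : Ω, ((U ∩ R ω).card : ℝ) =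
      ∑ v ∈ U, (((Finset.univ.filter (fun ω => v ∈ R ω)).card : ℕ) : ℝ) := by
    have h1 : ∀ ω : Ω, ((U ∩ R ω).card : ℝ) = ∑ v ∈ U, if v ∈ R ω then (1 : ℝ) else 0 := by
      intro ω
      rw [Finset.sum_boole]
      have h2 : U ∩ R ω = U.filter (fun v => v ∈ R ω) := by
        ext v
        simp
      rw [h2]
    simp_rw [h1]
    rw [Finset.sum_comm]
    refine Finset.sum_congr rfl fun v _ => ?_
    rw [Finset.sum_boole]
  have hle : ∑ ω : Ω, ((U ∩ R ω).card : ℝ) ≤ p * (U.card : ℝ) * (Fintype.card Ω : ℝ) := by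
    rw [hdc]
    calc ∑ v ∈ U, (((Finset.univ.filter (fun ω => v ∈ R ω)).card : ℕ) : ℝ)
        ≤ ∑ _v ∈ U, p * (Fintype.card Ω : ℝ) := Finset.sum_le_sum hfr
      _ = p * (U.card : ℝ) * (Fintype.card Ω : ℝ) := by
          rw [Finset.sum_const, nsmul_eq_mul]
          ring
  have hex : ∃ ω : Ω, ((U ∩ R ω).card : ℝ) < t + 1 := by
    by_contra hcon
    have h1 : ∀ ω : Ω, (t + 1 : ℝ) ≤ ((U ∩ R ω).card : ℝ) := fun ω => by
      by_contra h2
      exact hcon ⟨ω, not_le.1 h2⟩
    have h2 : (Fintype.card Ω : ℝ) * (t + 1) ≤ ∑ ω : Ω, ((U ∩ R ω).card : ℝ) := by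
      calc (Fintype.card Ω : ℝ) * (t + 1) = ∑ _ω : Ω, (t + 1 : ℝ) := by
            rw [Finset.sum_const, nsmul_eq_mul, Finset.card_univ]
        _ ≤ ∑ ω : Ω, ((U ∩ R ω).card : ℝ) := Finset.sum_le_sum fun ω _ => h1 ω
    have h3 : p * (U.card : ℝ) * (Fintype.card Ω : ℝ) < (t + 1) * (Fintype.card Ω : ℝ) :=
      mul_lt_mul_of_pos_right hp hΩ0
    linarith
  obtain ⟨ω, hω⟩ := hex
  have hcard : (U ∩ R ω).card ≤ t := by
    have h1 : (U ∩ R ω).card < t + 1 := by exact_mod_cast hω
    omega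
  have h1 := (hcol ω).union (col_card (G := G) (U ∩ R ω))
  refine h1.mono ?_ (Nat.add_le_add_left hcard K)
  intro v hv
  by_cases hR : v ∈ R ω
  · exact Finset.mem_union_right _ (Finset.mem_inter.2 ⟨hv, hR⟩)
  · exact Finset.mem_union_left _ (Finset.mem_sdiff.2 ⟨hv, hR⟩)

/-! Row B5 -/
theorem B5_init {U : Finset V} {t : ℕ} (ht : 1 ≤ t) (hmod : ¬ Model G U (t + 1)) (k : ℕ) :
    Left G U (4 * t * k) (Real.exp (-(k : ℝ))) := by
  obtain ⟨T, I, hT, hI, hc⟩ := frac_cover U t ht (fun w => rs U t hmod w)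
  exact left_init U t ht T I hT hI hc k


/-- B5: Lemma A. -/
theorem lemmaA {U : Finset V} {t M c1 J k : ℕ} (ht : 1 ≤ t) (hM : 1 ≤ M) (hmod : ¬ Model G U (t + 1))
    (hk : 4 * (M : ℝ) * Real.exp 1 ≤ Real.exp k) (hJ : (U.card : ℝ) ≤ t * Real.exp ((2 : ℝ) ^ J))
    (hno : ¬ ∃ W : Fin M → Finset V, (∀ i, W i ⊆ U ∧ ¬ Col G (W i) c1) ∧ ∀ i j, i ≠ j → Disjoint (W i) (W j)) :
    Col G U (4 * t * k + J * c1 + t) := by
  have hM' : (1 : ℝ) ≤ (M : ℝ) := by exact_mod_cast hM
  have key : ∀ j : ℕ, ∃ p : ℝ, 0 ≤ p ∧ 4 * (M : ℝ) * p ≤ Real.exp (-((2 : ℝ) ^ j)) ∧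
      Left G U (4 * t * k + j * c1) p := by
    intro j
    induction j with
    | zero =>
      refine ⟨Real.exp (-(k : ℝ)), (Real.exp_pos _).le, ?_, ?_⟩
      · rw [pow_zero, Real.exp_neg, Real.exp_neg, ← div_eq_mul_inv, div_le_iff₀ (Real.exp_pos _),
          inv_mul_eq_div, le_div_iff₀ (Real.exp_pos _)]
        exact hk
      · rw [zero_mul, add_zero]
        exact B5_init ht hmod k
    | succ j ih =>
      obtain ⟨p, hp0, hp1, hp2⟩ := ih
      refine ⟨4 * M * p ^ 2, by positivity, ?_, ?_⟩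
      · have h1 : 4 * (M : ℝ) * (4 * M * p ^ 2) = (4 * M * p) ^ 2 := by ring
        rw [h1, pow_succ (2 : ℝ) j]
        have h2 : Real.exp (-((2 : ℝ) ^ j * 2)) = Real.exp (-((2 : ℝ) ^ j)) ^ 2 := by
          rw [← Real.exp_nat_mul]
          congr 1
          push_cast
          ring
        rw [h2]
        exact pow_le_pow_left₀ (by positivity) hp1 2
      · have h3 := left_square hM hp0 hp2 hno
        have h4 : 4 * t * k + (j + 1) * c1 = 4 * t * k + j * c1 + c1 := by ring
        rw [h4]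
        exact h3
  obtain ⟨p, hp0, hp1, hp2⟩ := key J
  refine left_finish hp2 ?_
  have h5 : p ≤ Real.exp (-((2 : ℝ) ^ J)) := by
    refine le_trans ?_ hp1
    nlinarith
  calc p * (U.card : ℝ) ≤ Real.exp (-((2 : ℝ) ^ J)) * (t * Real.exp ((2 : ℝ) ^ J)) :=
        mul_le_mul h5 hJ (by positivity) (Real.exp_pos _).le
    _ = t := by
        rw [Real.exp_neg]
        field_simp
    _ < t + 1 := by linarith

/-- B5': a priori bound. -/
theorem apriori {U : Finset V} {t k : ℕ} (ht : 1 ≤ t) (hmod : ¬ Model G U (t + 1))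
    (hk : (U.card : ℝ) ≤ t * Real.exp k) : Col G U (4 * t * k + t) := by
  refine left_finish (B5_init ht hmod k) ?_
  calc Real.exp (-(k : ℝ)) * (U.card : ℝ) ≤ Real.exp (-(k : ℝ)) * (t * Real.exp k) :=
        mul_le_mul_of_nonneg_left hk (Real.exp_pos _).le
    _ = t := by
        rw [Real.exp_neg]
        field_simp
    _ < t + 1 := by linarith

end HD
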