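import Pool.Agent.LibHD.Defs

/-!
# LibHD : basic facts
-/

set_option autoImplicit false
set_option linter.unusedSectionVars false

open scoped Classical

noncomputable section

namespace HD

variable {V : Type*} [Fintype V] [DecidableEq V] {G : SimpleGraph V}

/-! ## connected sets -/

theorem Conn.nonempty {S : Finset V} (h : Conn G S) : S.Nonempty := by
  unfold Conn at h
  obtain ⟨⟨x, hx⟩⟩ := SimpleGraph.Connected.nonempty h
  exact ⟨x, hx⟩

theorem conn_singleton (x : V) : Conn G {x} := by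
  unfold Conn
  rw [Finset.coe_singleton]
  refine ⟨?_⟩
  rintro ⟨a, ha⟩ ⟨b, hb⟩
  have h1 : a = x := ha
  have h2 : b = x := hb
  subst h1
  subst h2
  exact SimpleGraph.Reachable.refl _

theorem Conn.union_mem {S T : Finset V} (hS : Conn G S) (hT : Conn G T) {x : V} (h1 : x ∈ S) (h2 : x ∈ T) :
    Conn G (S ∪ T) := by
  unfold Conn at *
  rw [Finset.coe_union]
  exact SimpleGraph.induce_union_connected hS.preconnected hT.preconnected ⟨x, h1, h2⟩

theorem Conn.union_touch {S T : Finset V} (hS : Conn G S) (hT : Conn G T) (h : Touch G S T) :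
    Conn G (S ∪ T) := by
  obtain ⟨u, hu, v, hv, huv⟩ := h
  unfold Conn at *
  rw [Finset.coe_union]
  exact SimpleGraph.connected_induce_union hS.preconnected hT.preconnected hu hv huv

theorem conn_pair {u v : V} (h : G.Adj u v) : Conn G {u, v} := by
  have h1 := (conn_singleton (G := G) u).union_touch (conn_singleton v)
    ⟨u, Finset.mem_singleton_self u, v, Finset.mem_singleton_self v, h⟩
  have h2 : ({u} ∪ {v} : Finset V) = {u, v} := by
    ext z; simp
  rwa [h2] at h1

/-! ## joined -/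

theorem joined_refl {S : Finset V} {x : V} (hx : x ∈ S) : Joined G S x x :=
  ⟨{x}, by simpa using hx, by simp, by simp, conn_singleton x⟩

theorem Joined.symm {S : Finset V} {x y : V} (h : Joined G S x y) : Joined G S y x := by
  obtain ⟨Y, h1, h2, h3, h4⟩ := h
  exact ⟨Y, h1, h3, h2, h4⟩

theorem Joined.trans {S : Finset V} {x y z : V} (h : Joined G S x y) (h' : Joined G S y z) : Joined G S x z := by
  obtain ⟨Y, h1, h2, h3, h4⟩ := h
  obtain ⟨Z, k1, k2, k3, k4⟩ := h'
  exact ⟨Y ∪ Z, Finset.union_subset h1 k1, Finset.mem_union_left _ h2, Finset.mem_union_right _ k3,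
    h4.union_mem k4 h3 k2⟩

theorem Joined.mono {S T : Finset V} (hST : S ⊆ T) {x y : V} (h : Joined G S x y) : Joined G T x y := by
  obtain ⟨Y, h1, h2, h3, h4⟩ := h
  exact ⟨Y, h1.trans hST, h2, h3, h4⟩

theorem joined_of_adj {S : Finset V} {x y : V} (hx : x ∈ S) (hy : y ∈ S) (h : G.Adj x y) : Joined G S x y :=
  ⟨{x, y}, by
    intro z hz
    rcases Finset.mem_insert.1 hz with h1 | h1
    · rw [h1]; exact hx
    · rw [Finset.mem_singleton.1 h1]; exact hy, by simp, by simp, conn_pair h⟩

theorem Joined.mem_left {S : Finset V} {x y : V} (h : Joined G S x y) : x ∈ S := by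
  obtain ⟨Y, h1, h2, _, _⟩ := h
  exact h1 h2

theorem Joined.mem_right {S : Finset V} {x y : V} (h : Joined G S x y) : y ∈ S := h.symm.mem_left

theorem Conn.joined {S : Finset V} (hS : Conn G S) {x y : V} (hx : x ∈ S) (hy : y ∈ S) : Joined G S x y :=
  ⟨S, Finset.Subset.refl _, hx, hy, hS⟩

theorem conn_of_joined {S : Finset V} {x : V} (hx : x ∈ S) (h : ∀ y ∈ S, Joined G S x y) : Conn G S := by
  unfold Conn
  have hne : Nonempty ((S : Set V)) := ⟨⟨x, hx⟩⟩
  have key : ∀ y : (S : Set V), (G.induce (S : Set V)).Reachable ⟨x, hx⟩ y := by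
    rintro ⟨y, hy⟩
    obtain ⟨Y, h1, h2, h3, h4⟩ := h y hy
    unfold Conn at h4
    have h5 : (G.induce (Y : Set V)).Reachable ⟨x, h2⟩ ⟨y, h3⟩ := h4.preconnected _ _
    have h6 : (Y : Set V) ⊆ (S : Set V) := by exact_mod_cast h1
    exact h5.map (SimpleGraph.induceHomOfLE G h6).toHom
  exact ⟨fun a b => (key a).symm.trans (key b)⟩

theorem joined_split {S P : Finset V} {x y : V} (h : Joined G S x y) (hx : x ∈ P) (hy : y ∉ P) :
    Touch G (S ∩ P) (S \ P) := by
  obtain ⟨Y, h1, h2, h3, h4⟩ := h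
  by_contra hcon
  unfold Conn at h4
  have key : ∀ (a b : (Y : Set V)), (G.induce (Y : Set V)).Reachable a b → a.1 ∈ P → b.1 ∈ P := by
    intro a b hab
    obtain ⟨w⟩ := hab
    induction w with
    | nil => exact id
    | cons hadj w ih =>
      rename_i u v z
      intro hu
      apply ih
      by_contra hv
      apply hcon
      exact ⟨u.1, Finset.mem_inter.2 ⟨h1 u.2, hu⟩, v.1, Finset.mem_sdiff.2 ⟨h1 v.2, hv⟩, hadj⟩
  exact hy (key ⟨x, h2⟩ ⟨y, h3⟩ (h4.preconnected _ _) hx)

theorem Touch.symm {S T : Finset V} (h : Touch G S T) : Touch G T S := by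
  obtain ⟨u, hu, v, hv, huv⟩ := h
  exact ⟨v, hv, u, hu, huv.symm⟩

theorem Touch.mono {S T S' T' : Finset V} (h : Touch G S T) (h1 : S ⊆ S') (h2 : T ⊆ T') : Touch G S' T' := by
  obtain ⟨u, hu, v, hv, huv⟩ := h
  exact ⟨u, h1 hu, v, h2 hv, huv⟩

/-! ## components -/

theorem comp_subset (S : Finset V) (x : V) : comp G S x ⊆ S := Finset.filter_subset _ _

theorem mem_comp {S : Finset V} {x y : V} : y ∈ comp G S x ↔ Joined G S x y := by
  unfold comp
  rw [Finset.mem_filter]
  exact ⟨fun h => h.2, fun h => ⟨h.mem_right, h⟩⟩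

theorem mem_comp_self {S : Finset V} {x : V} (hx : x ∈ S) : x ∈ comp G S x := mem_comp.2 (joined_refl hx)

theorem conn_comp {S : Finset V} {x : V} (hx : x ∈ S) : Conn G (comp G S x) := by
  apply conn_of_joined (mem_comp_self hx)
  intro y hy
  obtain ⟨Y, h1, h2, h3, h4⟩ := mem_comp.1 hy
  refine ⟨Y, ?_, h2, h3, h4⟩
  intro z hz
  exact mem_comp.2 ⟨Y, h1, h2, hz, h4⟩

theorem comp_closed {S : Finset V} {x u v : V} (hu : u ∈ comp G S x) (hv : v ∈ S) (h : G.Adj u v) :
    v ∈ comp G S x :=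
  mem_comp.2 ((mem_comp.1 hu).trans (joined_of_adj (mem_comp.1 hu).mem_right hv h))

theorem comp_no_touch (S : Finset V) (x : V) : ¬ Touch G (comp G S x) (S \ comp G S x) := by
  rintro ⟨u, hu, v, hv, huv⟩
  exact (Finset.mem_sdiff.1 hv).2 (comp_closed hu (Finset.mem_sdiff.1 hv).1 huv)

/-- A connected subset of `S` meeting the component of `x` is contained in it. -/
theorem comp_absorb {S Y : Finset V} {x y : V} (hY : Conn G Y) (hYS : Y ⊆ S) (hy : y ∈ Y)
    (h : y ∈ comp G S x) : Y ⊆ comp G S x := by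
  intro z hz
  exact mem_comp.2 ((mem_comp.1 h).trans ⟨Y, hYS, hy, hz, hY⟩)

/-! ## cut characterisations -/

theorem Conn.pc {X : Finset V} (h : Conn G X) : PC G X := by
  intro P hP h1 h2
  obtain ⟨x, hx⟩ := h1
  obtain ⟨y, hy⟩ := h2
  have h3 := joined_split (h.joined (hP hx) (Finset.mem_sdiff.1 hy).1) hx (Finset.mem_sdiff.1 hy).2
  exact h3.mono (Finset.inter_subset_right) (Finset.Subset.refl _)

theorem PC.conn {X : Finset V} (h : PC G X) (hX : X.Nonempty) : Conn G X := by
  obtain ⟨x, hx⟩ := hX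
  by_cases h1 : (X \ comp G X x).Nonempty
  · exact absurd (h _ (comp_subset X x) ⟨x, mem_comp_self hx⟩ h1) (comp_no_touch X x)
  · have h2 : X = comp G X x := by
      apply Finset.Subset.antisymm _ (comp_subset X x)
      intro z hz
      by_contra h3
      exact h1 ⟨z, Finset.mem_sdiff.2 ⟨hz, h3⟩⟩
    rw [h2]
    exact conn_comp hx

theorem pc_of_joined {X : Finset V} (h : ∀ x ∈ X, ∀ y ∈ X, Joined G X x y) : PC G X := by
  intro P hP h1 h2
  obtain ⟨x, hx⟩ := h1
  obtain ⟨y, hy⟩ := h2
  have h3 := joined_split (h x (hP hx) y (Finset.mem_sdiff.1 hy).1) hx (Finset.mem_sdiff.1 hy).2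
  exact h3.mono (Finset.inter_subset_right) (Finset.Subset.refl _)

theorem PC.joined {X : Finset V} (h : PC G X) {x y : V} (hx : x ∈ X) (hy : y ∈ X) : Joined G X x y :=
  (h.conn ⟨x, hx⟩).joined hx hy

/-! ## colourings -/

theorem Col.mono {U W : Finset V} {c d : ℕ} (h : Col G U c) (hWU : W ⊆ U) (hcd : c ≤ d) : Col G W d := by
  obtain ⟨φ, h1, h2⟩ := h
  exact ⟨φ, fun u hu => lt_of_lt_of_le (h1 u (hWU hu)) hcd, fun u hu v hv => h2 u (hWU hu) v (hWU hv)⟩

theorem Col.union {U W : Finset V} {c d : ℕ} (h : Col G U c) (h' : Col G W d) : Col G (U ∪ W) (c + d) := by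
  obtain ⟨φ, h1, h2⟩ := h
  obtain ⟨ψ, k1, k2⟩ := h'
  refine ⟨fun v => if v ∈ U then φ v else c + ψ v, ?_, ?_⟩
  · intro u hu
    by_cases hU : u ∈ U
    · simp only [hU, if_true]
      exact lt_of_lt_of_le (h1 u hU) (Nat.le_add_right _ _)
    · have hW : u ∈ W := (Finset.mem_union.1 hu).resolve_left hU
      simp only [hU, if_false]
      exact Nat.add_lt_add_left (k1 u hW) c
  · intro u hu v hv huv
    by_cases hU : u ∈ U <;> by_cases hV : v ∈ U
    · simp only [hU, hV, if_true]
      exact h2 u hU v hV huv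
    · simp only [hU, hV, if_true, if_false]
      have := h1 u hU
      omega
    · simp only [hU, hV, if_true, if_false]
      have := h1 v hV
      omega
    · simp only [hU, hV, if_false]
      have hW : u ∈ W := (Finset.mem_union.1 hu).resolve_left hU
      have hW' : v ∈ W := (Finset.mem_union.1 hv).resolve_left hV
      have := k2 u hW v hW' huv
      omega

theorem col_empty (c : ℕ) : Col G ∅ c := ⟨fun _ => 0, by simp, by simp⟩

theorem col_stable {S : Finset V} (h : Stable G S) : Col G S 1 :=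
  ⟨fun _ => 0, fun _ _ => Nat.zero_lt_one, fun u hu v hv huv => absurd huv (h u hu v hv)⟩

theorem col_card (S : Finset V) : Col G S S.card := by
  induction S using Finset.induction_on with
  | empty => exact col_empty _
  | insert a s ha ih =>
    have h1 : Col G {a} 1 := col_stable (by
      intro u hu v hv huv
      rw [Finset.mem_singleton.1 hu, Finset.mem_singleton.1 hv] at huv
      exact G.loopless.irrefl _ huv)
    have h2 := h1.union ih
    rw [Finset.card_insert_of_notMem ha, add_comm]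
    exact h2.mono (by rw [Finset.insert_eq]) le_rfl

/-! ## stable sets and models -/

theorem Stable.mono {S T : Finset V} (h : Stable G S) (hT : T ⊆ S) : Stable G T :=
  fun u hu v hv => h u (hT hu) v (hT hv)

theorem stable_empty : Stable G (∅ : Finset V) := by intro u hu; simp at hu

theorem Model.mono {U W : Finset V} {k l : ℕ} (h : Model G U k) (hU : U ⊆ W) (hl : l ≤ k) : Model G W l := by
  obtain ⟨f, h1, h2⟩ := h
  refine ⟨fun i => f (Fin.castLE hl i), ?_, ?_⟩
  · intro i
    exact ⟨(h1 _).1.trans hU, (h1 _).2⟩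
  · intro i j hij
    apply h2
    intro h3
    exact hij (Fin.castLE_injective hl h3)

theorem IsModel.model {ι : Type*} [Fintype ι] {U : Finset V} {f : ι → Finset V} (h : IsModel G U f) :
    Model G U (Fintype.card ι) := by
  refine ⟨fun i => f ((Fintype.equivFin ι).symm i), fun i => h.1 _, fun i j hij => h.2 _ _ ?_⟩
  intro h3
  exact hij ((Fintype.equivFin ι).symm.injective h3)

theorem mem_nbr {X : Finset V} {v : V} : v ∈ nbr G X ↔ ∃ u ∈ X, G.Adj u v := by simp [nbr]

theorem mem_bd {U I : Finset V} {v : V} : v ∈ bd G U I ↔ v ∈ U ∧ v ∉ I ∧ ∃ u ∈ I, G.Adj u v := by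
  simp [bd, and_assoc]

theorem mem_nbIn {S : Finset V} {v u : V} : u ∈ nbIn G S v ↔ u ∈ S ∧ G.Adj v u := by simp [nbIn]

theorem res_le (X : Finset V) : res G X ≤ G := fun _ _ h => h.1

end HD
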