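import Pool.Agent.LibHD.Basic

set_option autoImplicit false
set_option linter.unusedSectionVars false

open scoped Classical

noncomputable section

namespace HD

variable {V : Type*} [Fintype V] [DecidableEq V] {G : SimpleGraph V}

/-! Row C1 -/
/-- C1: a minimal set with small boundary is relatively highly connected. -/
theorem zi (G : SimpleGraph V) (U : Finset V) (hU : U.Nonempty) (κ : ℕ) :
    ∃ I ⊆ U, I.Nonempty ∧ (bd G U I).card ≤ 2 * κ ∧
      ∀ S : Finset V, S.card ≤ κ → ∀ x ∈ I \ S, ∀ y ∈ I \ S, Joined G ((I ∪ bd G U I) \ S) x y := by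
  have hUU : bd G U U = ∅ := by
    unfold bd
    simp
  obtain ⟨I, hI, hmin⟩ := Finset.exists_min_image
    (U.powerset.filter (fun I => I.Nonempty ∧ (bd G U I).card ≤ 2 * κ)) Finset.card
    ⟨U, Finset.mem_filter.2 ⟨Finset.mem_powerset_self U, hU, by rw [hUU]; simp⟩⟩
  obtain ⟨hI1, hIne, hIbd⟩ := Finset.mem_filter.1 hI
  have hIU : I ⊆ U := Finset.mem_powerset.1 hI1
  refine ⟨I, hIU, hIne, hIbd, ?_⟩
  intro S hS x hx y hy
  by_contra hcon
  obtain ⟨hxI, hxS⟩ := Finset.mem_sdiff.1 hx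
  obtain ⟨hyI, hyS⟩ := Finset.mem_sdiff.1 hy
  set D := bd G U I with hD
  set X := comp G ((I ∪ D) \ S) x with hX
  have hxZ : x ∈ (I ∪ D) \ S := Finset.mem_sdiff.2 ⟨Finset.mem_union_left _ hxI, hxS⟩
  have hxX : x ∈ X := mem_comp_self hxZ
  have hyX : y ∉ X := fun h => hcon (mem_comp.1 h)
  -- every neighbour in `U` of a point of `I` lies in `I ∪ D`
  have hZ : ∀ u ∈ I, ∀ v ∈ U, G.Adj u v → v ∈ I ∪ D := by
    intro u hu v hv huv
    by_cases h : v ∈ I
    · exact Finset.mem_union_left _ h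
    · exact Finset.mem_union_right _ (mem_bd.2 ⟨hv, h, u, hu, huv⟩)
  have h1 : bd G U (X ∩ I) ⊆ (D ∩ X) ∪ S := by
    intro v hv
    obtain ⟨hvU, hvn, u, hu, huv⟩ := mem_bd.1 hv
    obtain ⟨huX, huI⟩ := Finset.mem_inter.1 hu
    by_cases hvS : v ∈ S
    · exact Finset.mem_union_right _ hvS
    have hvZ := hZ u huI v hvU huv
    have hvX : v ∈ X := comp_closed huX (Finset.mem_sdiff.2 ⟨hvZ, hvS⟩) huv
    have hvI : v ∉ I := fun h => hvn (Finset.mem_inter.2 ⟨hvX, h⟩)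
    exact Finset.mem_union_left _ (Finset.mem_inter.2 ⟨(Finset.mem_union.1 hvZ).resolve_left hvI, hvX⟩)
  have h2 : bd G U ((I \ S) \ X) ⊆ (D \ X) ∪ S := by
    intro v hv
    obtain ⟨hvU, hvn, u, hu, huv⟩ := mem_bd.1 hv
    obtain ⟨hu1, huX⟩ := Finset.mem_sdiff.1 hu
    obtain ⟨huI, huS⟩ := Finset.mem_sdiff.1 hu1
    by_cases hvS : v ∈ S
    · exact Finset.mem_union_right _ hvS
    have hvZ := hZ u huI v hvU huv
    have hvX : v ∉ X := fun h => huX (comp_closed h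
      (Finset.mem_sdiff.2 ⟨Finset.mem_union_left _ huI, huS⟩) huv.symm)
    have hvI : v ∉ I := fun h => hvn (Finset.mem_sdiff.2 ⟨Finset.mem_sdiff.2 ⟨h, hvS⟩, hvX⟩)
    exact Finset.mem_union_left _ (Finset.mem_sdiff.2 ⟨(Finset.mem_union.1 hvZ).resolve_left hvI, hvX⟩)
  have c1 := (Finset.card_le_card h1).trans (Finset.card_union_le _ _)
  have c2 := (Finset.card_le_card h2).trans (Finset.card_union_le _ _)
  have c3 : (D ∩ X).card + (D \ X).card = D.card := Finset.card_inter_add_card_sdiff D X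
  have hsmall : ∀ J : Finset V, J ⊆ I → J.Nonempty → (∃ z ∈ I, z ∉ J) → ¬ (bd G U J).card ≤ 2 * κ := by
    intro J hJ hJne hz hle
    obtain ⟨z, hz1, hz2⟩ := hz
    have h3 := hmin J (Finset.mem_filter.2 ⟨Finset.mem_powerset.2 (hJ.trans hIU), hJne, hle⟩)
    have h4 : J.card < I.card := Finset.card_lt_card ⟨hJ, fun h5 => hz2 (h5 hz1)⟩
    omega
  have n1 := hsmall (X ∩ I) Finset.inter_subset_right ⟨x, Finset.mem_inter.2 ⟨hxX, hxI⟩⟩
    ⟨y, hyI, fun h => hyX (Finset.mem_inter.1 h).1⟩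
  have n2 := hsmall ((I \ S) \ X) (Finset.sdiff_subset.trans Finset.sdiff_subset)
    ⟨y, Finset.mem_sdiff.2 ⟨hy, hyX⟩⟩ ⟨x, hxI, fun h => (Finset.mem_sdiff.1 h).2 hxX⟩
  omega

/-! Row C2 -/
theorem C2_deg {U : Finset V} {c : ℕ} (h : ¬ Col G U c) (hmin : ∀ W, W ⊆ U → W ≠ U → Col G W c)
    {v : V} (hv : v ∈ U) : c ≤ (nbIn G U v).card := by
  by_contra hcon
  push Not at hcon
  have hne : U.erase v ≠ U := fun h1 => Finset.notMem_erase v U (by rw [h1]; exact hv)
  obtain ⟨φ, h1, h2⟩ := hmin (U.erase v) (Finset.erase_subset v U) hne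
  have hcard : ((nbIn G U v).image φ).card < (Finset.range c).card := by
    rw [Finset.card_range]
    exact lt_of_le_of_lt Finset.card_image_le hcon
  obtain ⟨a, ha, ha'⟩ := Finset.exists_mem_notMem_of_card_lt_card hcard
  rw [Finset.mem_range] at ha
  apply h
  refine ⟨fun u => if u = v then a else φ u, ?_, ?_⟩
  · intro u hu
    by_cases huv : u = v
    · simp only [huv, if_true]
      exact ha
    · simp only [huv, if_false]
      exact h1 u (Finset.mem_erase.2 ⟨huv, hu⟩)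
  · intro u hu w hw huw
    by_cases huv : u = v <;> by_cases hwv : w = v
    · exact absurd (huv.trans hwv.symm) huw.ne
    · simp only [huv, hwv, if_true, if_false]
      intro h3
      apply ha'
      rw [h3]
      exact Finset.mem_image_of_mem φ (mem_nbIn.2 ⟨hw, by rw [← huv]; exact huw⟩)
    · simp only [huv, hwv, if_true, if_false]
      intro h3
      apply ha'
      rw [← h3]
      exact Finset.mem_image_of_mem φ (mem_nbIn.2 ⟨hu, by rw [← hwv]; exact huw.symm⟩)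
    · simp only [huv, hwv, if_false]
      exact h2 u (Finset.mem_erase.2 ⟨huv, hu⟩) w (Finset.mem_erase.2 ⟨hwv, hw⟩) huw

theorem C2_ext {U I : Finset V} {c κ : ℕ} (hIU : I ⊆ U) (hD : (bd G U I).card ≤ 2 * κ)
    (hout : Col G (U \ I) c) (hin : Col G I (c - 2 * κ)) : Col G U c := by
  obtain ⟨φ, h1, h2⟩ := hout
  obtain ⟨ψ, k1, k2⟩ := hin
  set C : Finset ℕ := (bd G U I).image φ with hC
  set T : Finset ℕ := Finset.range c \ C with hT
  have hCcard : C.card ≤ 2 * κ := Finset.card_image_le.trans hD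
  have hTcard : c - 2 * κ ≤ T.card := by
    have h3 : (Finset.range c).card ≤ (C ∪ T).card := by
      apply Finset.card_le_card
      intro a ha
      by_cases h : a ∈ C
      · exact Finset.mem_union_left _ h
      · exact Finset.mem_union_right _ (by rw [hT, Finset.mem_sdiff]; exact ⟨ha, h⟩)
    have h4 := h3.trans (Finset.card_union_le C T)
    rw [Finset.card_range] at h4
    omega
  set f := T.orderEmbOfCardLe hTcard with hf
  set g : ℕ → ℕ := fun a => if ha : a < c - 2 * κ then f ⟨a, ha⟩ else 0 with hg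
  have hgT : ∀ a, a < c - 2 * κ → g a ∈ T := by
    intro a ha
    simp only [hg, ha, dif_pos]
    exact Finset.orderEmbOfCardLe_mem T hTcard _
  have hginj : ∀ a b, a < c - 2 * κ → b < c - 2 * κ → g a = g b → a = b := by
    intro a b ha hb hab
    simp only [hg, ha, hb, dif_pos] at hab
    have := f.injective hab
    exact congrArg Fin.val this
  have hcross : ∀ u ∈ I, ∀ w ∈ U, w ∉ I → G.Adj u w → g (ψ u) ≠ φ w := by
    intro u hu w hw hwI huw h3
    have h4 := hgT (ψ u) (k1 u hu)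
    rw [h3, hT, Finset.mem_sdiff] at h4
    exact h4.2 (Finset.mem_image_of_mem φ (mem_bd.2 ⟨hw, hwI, u, hu, huw⟩))
  refine ⟨fun u => if u ∈ I then g (ψ u) else φ u, ?_, ?_⟩
  · intro u hu
    by_cases hI : u ∈ I
    · simp only [hI, if_true]
      have h4 := hgT (ψ u) (k1 u hI)
      rw [hT, Finset.mem_sdiff, Finset.mem_range] at h4
      exact h4.1
    · simp only [hI, if_false]
      exact h1 u (Finset.mem_sdiff.2 ⟨hu, hI⟩)
  · intro u hu w hw huw
    by_cases hI : u ∈ I <;> by_cases hJ : w ∈ I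
    · simp only [hI, hJ, if_true]
      intro h3
      exact k2 u hI w hJ huw (hginj _ _ (k1 u hI) (k1 w hJ) h3)
    · simp only [hI, hJ, if_true, if_false]
      exact hcross u hI w hw hJ huw
    · simp only [hI, hJ, if_true, if_false]
      intro h3
      exact hcross w hJ u hu hI huw.symm h3.symm
    · simp only [hI, hJ, if_false]
      exact h2 u (Finset.mem_sdiff.2 ⟨hu, hI⟩) w (Finset.mem_sdiff.2 ⟨hw, hJ⟩) huw

/-- C2: the core of a non-colourable set. -/
theorem core {U : Finset V} {c κ : ℕ} (h : ¬ Col G U c) (hc : 2 * κ ≤ c) :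
    ∃ I D : Finset V, I ⊆ U ∧ D ⊆ U ∧ Disjoint I D ∧ D.card ≤ 2 * κ ∧ ¬ Col G I (c - 2 * κ) ∧
      (∀ v ∈ I, c - 2 * κ ≤ (nbIn G I v).card) ∧
      ∀ S : Finset V, S.card ≤ κ → ∀ x ∈ I \ S, ∀ y ∈ I \ S, Joined G ((I ∪ D) \ S) x y := by
  obtain ⟨U', hU'U, hmin⟩ := exists_minimal_le_of_wellFoundedLT (fun W : Finset V => ¬ Col G W c) U h
  have hU' : ¬ Col G U' c := hmin.1
  have hmin' : ∀ W, W ⊆ U' → W ≠ U' → Col G W c := by
    intro W hW hne
    by_contra hcol
    exact hne (Finset.Subset.antisymm hW (hmin.2 hcol hW))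
  have hne : U'.Nonempty := by
    rw [Finset.nonempty_iff_ne_empty]
    intro h0
    apply hU'
    rw [h0]
    exact col_empty c
  obtain ⟨I, hIU', hIne, hD, hjoin⟩ := zi G U' hne κ
  have hDU' : bd G U' I ⊆ U' := fun v hv => (mem_bd.1 hv).1
  refine ⟨I, bd G U' I, hIU'.trans hU'U, hDU'.trans hU'U, ?_, hD, ?_, ?_, hjoin⟩
  · rw [Finset.disjoint_left]
    intro v hv hv'
    exact (mem_bd.1 hv').2.1 hv
  · intro hcol
    apply hU'
    refine C2_ext hIU' hD (hmin' _ Finset.sdiff_subset ?_) hcol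
    intro h0
    obtain ⟨x, hx⟩ := hIne
    have h1 : x ∈ U' \ I := by rw [h0]; exact hIU' hx
    exact (Finset.mem_sdiff.1 h1).2 hx
  · intro v hv
    have h1 := C2_deg hU' hmin' (hIU' hv)
    have h2 : nbIn G U' v ⊆ nbIn G I v ∪ bd G U' I := by
      intro u hu
      rw [mem_nbIn] at hu
      rw [Finset.mem_union]
      by_cases hI : u ∈ I
      · exact Or.inl (mem_nbIn.2 ⟨hI, hu.2⟩)
      · exact Or.inr (mem_bd.2 ⟨hu.1, hI, v, hv, hu.2⟩)
    have h3 := (Finset.card_le_card h2).trans (Finset.card_union_le _ _)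
    omega

/-! Row D1 -/
/-- D1: connectivity of the torso. -/
theorem torso_pc {I D S' : Finset V} {κ : ℕ} (hID : Disjoint I D) (hS' : S' ⊆ D)
    (h : ∀ S : Finset V, S.card ≤ κ → ∀ x ∈ I \ S, ∀ y ∈ I \ S, Joined G ((I ∪ D) \ S) x y)
    (S : Finset V) (hS : S.card + S'.card ≤ κ) : PC (torso G I (D \ S')) (I \ S) := by
  intro P hP hPne hQne
  obtain ⟨x, hx⟩ := hPne
  obtain ⟨y, hy⟩ := hQne
  obtain ⟨hyI, hyP⟩ := Finset.mem_sdiff.1 hy
  have hmem : ∀ z ∈ I \ S, z ∈ I \ (S ∪ S') := by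
    intro z hz
    obtain ⟨h1, h2⟩ := Finset.mem_sdiff.1 hz
    refine Finset.mem_sdiff.2 ⟨h1, fun h3 => ?_⟩
    rcases Finset.mem_union.1 h3 with h4 | h4
    · exact h2 h4
    · exact Finset.disjoint_left.1 hID h1 (hS' h4)
  obtain ⟨Y, hYs, hxY, hyY, hYc⟩ := h (S ∪ S') ((Finset.card_union_le _ _).trans hS) x
    (hmem x (hP hx)) y (hmem y hyI)
  set P' := Y.filter (fun z => z ∈ P ∨ (z ∈ D ∧ ∃ u ∈ P, Joined G (insert u (D \ S')) u z)) with hP'
  have hxP' : x ∈ P' := Finset.mem_filter.2 ⟨hxY, Or.inl hx⟩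
  have hyP' : y ∈ Y \ P' := by
    refine Finset.mem_sdiff.2 ⟨hyY, fun h1 => ?_⟩
    rcases (Finset.mem_filter.1 h1).2 with h2 | ⟨h2, _⟩
    · exact hyP h2
    · exact Finset.disjoint_left.1 hID (Finset.mem_sdiff.1 hyI).1 h2
  obtain ⟨z, hz, z', hz', hadj⟩ := hYc.pc P' (Finset.filter_subset _ _) ⟨x, hxP'⟩ ⟨y, hyP'⟩
  obtain ⟨hz'Y, hz'P'⟩ := Finset.mem_sdiff.1 hz'
  obtain ⟨hzY, hzc⟩ := Finset.mem_filter.1 hz
  obtain ⟨hz'1, hz'2⟩ := Finset.mem_sdiff.1 (hYs hz'Y)
  have hz'S : z' ∉ S := fun h1 => hz'2 (Finset.mem_union_left _ h1)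
  have hz'S' : z' ∉ S' := fun h1 => hz'2 (Finset.mem_union_right _ h1)
  rcases Finset.mem_union.1 hz'1 with hI | hD
  · have hz'P : z' ∉ P := fun h1 => hz'P' (Finset.mem_filter.2 ⟨hz'Y, Or.inl h1⟩)
    have hz'm : z' ∈ (I \ S) \ P := Finset.mem_sdiff.2 ⟨Finset.mem_sdiff.2 ⟨hI, hz'S⟩, hz'P⟩
    rcases hzc with h1 | ⟨h1, u, hu, hj⟩
    · refine ⟨z, h1, z', hz'm, ?_⟩
      refine ⟨hadj.ne, (Finset.mem_sdiff.1 (hP h1)).1, hI, ?_⟩
      exact joined_of_adj (Finset.mem_insert_self _ _)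
        (Finset.mem_insert_of_mem (Finset.mem_insert_self _ _)) hadj
    · refine ⟨u, hu, z', hz'm, ?_⟩
      refine ⟨fun h2 => hz'P (h2 ▸ hu), (Finset.mem_sdiff.1 (hP hu)).1, hI, ?_⟩
      have hj' : Joined G (insert u (insert z' (D \ S'))) u z :=
        hj.mono (Finset.insert_subset_insert _ (Finset.subset_insert _ _))
      exact hj'.trans (joined_of_adj hj'.mem_right
        (Finset.mem_insert_of_mem (Finset.mem_insert_self _ _)) hadj)
  · exfalso
    apply hz'P'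
    have hDS : z' ∈ D \ S' := Finset.mem_sdiff.2 ⟨hD, hz'S'⟩
    rcases hzc with h1 | ⟨h1, u, hu, hj⟩
    · refine Finset.mem_filter.2 ⟨hz'Y, Or.inr ⟨hD, z, h1, ?_⟩⟩
      exact joined_of_adj (Finset.mem_insert_self _ _) (Finset.mem_insert_of_mem hDS) hadj
    · refine Finset.mem_filter.2 ⟨hz'Y, Or.inr ⟨hD, u, hu, ?_⟩⟩
      exact hj.trans (joined_of_adj hj.mem_right (Finset.mem_insert_of_mem hDS) hadj)

/-! Row D2 -/
/-- D2: from the torso back to the graph. -/
theorem torso_joined {I D X : Finset V} (hX : X ⊆ I) (h : PC (torso G I D) X) {x y : V} (hx : x ∈ X) (hy : y ∈ X) :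
    Joined G (X ∪ D) x y := by
  by_contra hcon
  set P := X.filter (fun z => Joined G (X ∪ D) x z) with hP
  have hxP : x ∈ P := Finset.mem_filter.2 ⟨hx, joined_refl (Finset.mem_union_left _ hx)⟩
  have hyP : y ∈ X \ P := Finset.mem_sdiff.2 ⟨hy, fun h' => hcon (Finset.mem_filter.1 h').2⟩
  obtain ⟨u, hu, v, hv, huv⟩ := h P (Finset.filter_subset _ _) ⟨x, hxP⟩ ⟨y, hyP⟩
  obtain ⟨hvX, hvP⟩ := Finset.mem_sdiff.1 hv
  obtain ⟨huX, hxu⟩ := Finset.mem_filter.1 hu
  apply hvP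
  refine Finset.mem_filter.2 ⟨hvX, hxu.trans (huv.2.2.2.mono ?_)⟩
  intro z hz
  rcases Finset.mem_insert.1 hz with rfl | hz
  · exact Finset.mem_union_left _ huX
  · rcases Finset.mem_insert.1 hz with rfl | hz
    · exact Finset.mem_union_left _ hvX
    · exact Finset.mem_union_right _ hz

end HD
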