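import Mathlib

/-!
# LibHD : clique minors and colourings of small graphs, definitions
-/

set_option autoImplicit false

open scoped Classical

noncomputable section

namespace HD

variable {V : Type*} [Fintype V] [DecidableEq V] (G : SimpleGraph V)

/-- `S` is a nonempty connected vertex set of `G`. -/
def Conn (S : Finset V) : Prop := (G.induce (S : Set V)).Connected

/-- `x` and `y` lie in a common connected subset of `S`. -/
def Joined (S : Finset V) (x y : V) : Prop :=
  ∃ Y : Finset V, Y ⊆ S ∧ x ∈ Y ∧ y ∈ Y ∧ Conn G Y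

/-- There is an edge between `S` and `T`. -/
def Touch (S T : Finset V) : Prop := ∃ u ∈ S, ∃ v ∈ T, G.Adj u v

/-- `S` is a stable (independent) set. -/
def Stable (S : Finset V) : Prop := ∀ u ∈ S, ∀ v ∈ S, ¬ G.Adj u v

/-- All vertices with a neighbour in `X`. -/
def nbr (X : Finset V) : Finset V := Finset.univ.filter (fun v => ∃ u ∈ X, G.Adj u v)

/-- The vertices of `U` outside `I` with a neighbour in `I`. -/
def bd (U I : Finset V) : Finset V := (U \ I).filter (fun v => ∃ u ∈ I, G.Adj u v)

/-- The neighbours of `v` inside `S`. -/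
def nbIn (S : Finset V) (v : V) : Finset V := S.filter (fun u => G.Adj v u)

/-- `G[U]` has a proper colouring with `c` colours. -/
def Col (U : Finset V) (c : ℕ) : Prop :=
  ∃ φ : V → ℕ, (∀ u ∈ U, φ u < c) ∧ ∀ u ∈ U, ∀ v ∈ U, G.Adj u v → φ u ≠ φ v

/-- `f` is a model of the complete graph on the index type `ι` inside `U`. -/
def IsModel {ι : Type*} (U : Finset V) (f : ι → Finset V) : Prop :=
  (∀ i, f i ⊆ U ∧ Conn G (f i)) ∧ ∀ i j, i ≠ j → Disjoint (f i) (f j) ∧ Touch G (f i) (f j)

/-- `G[U]` has a `K_k` minor. -/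
def Model (U : Finset V) (k : ℕ) : Prop := ∃ f : Fin k → Finset V, IsModel G U f

/-- Every partition of `X` in two nonempty parts is crossed by an edge. -/
def PC (X : Finset V) : Prop :=
  ∀ P ⊆ X, P.Nonempty → (X \ P).Nonempty → Touch G P (X \ P)

/-- The connected component of `x` in `G[S]`. -/
def comp (S : Finset V) (x : V) : Finset V := S.filter (fun y => Joined G S x y)

/-- The graph `G` with only the edges inside `X`. -/
def res (X : Finset V) : SimpleGraph V where
  Adj u v := G.Adj u v ∧ u ∈ X ∧ v ∈ X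
  symm := ⟨fun _ _ h => ⟨h.1.symm, h.2.2, h.2.1⟩⟩
  loopless := ⟨fun u h => G.loopless.irrefl u h.1⟩

/-- The graph on `I` : two vertices are adjacent if joined by a path with interior in `D`. -/
def torso (I D : Finset V) : SimpleGraph V where
  Adj u v := u ≠ v ∧ u ∈ I ∧ v ∈ I ∧ Joined G (insert u (insert v D)) u v
  symm := ⟨fun u v h => ⟨h.1.symm, h.2.2.1, h.2.1, by
    obtain ⟨Y, h1, h2, h3, h4⟩ := h.2.2.2
    exact ⟨Y, by rw [Finset.insert_comm]; exact h1, h3, h2, h4⟩⟩⟩
  loopless := ⟨fun u h => h.1 rfl⟩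

/-- A finite family of leftover sets `R ω`: outside `R ω` the set `U` is `K`-colourable, and every vertex of
`U` lies in at most a fraction `p` of the sets. -/
def Left (U : Finset V) (K : ℕ) (p : ℝ) : Prop :=
  ∃ (Ω : Type) (_ : Fintype Ω) (_ : Nonempty Ω) (R : Ω → Finset V),
    (∀ ω, Col G (U \ R ω) K) ∧
    ∀ v ∈ U, (((Finset.univ.filter (fun ω => v ∈ R ω)).card : ℕ) : ℝ) ≤ p * (Fintype.card Ω : ℝ)

end HD
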