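import Pool.Agent.LibHD.Basic

set_option autoImplicit false
set_option linter.unusedSectionVars false

open scoped Classical

noncomputable section

namespace HD

variable {V : Type*} [Fintype V] [DecidableEq V] {G : SimpleGraph V}

/-! Row E1 -/
/-- one fixed set `N` of `d` vertices -/
theorem E1_one (k : ℕ) (a : Fin 3 × Fin 4) (N : Finset V) :
    (((Finset.univ.filter (fun f : V → Fin 3 × Fin 4 => (N.filter (fun u => f u = a)).card < k)).card : ℕ) : ℝ)
      ≤ 12 ^ k * (12 ^ (Fintype.card V) * (133 / 144 : ℝ) ^ N.card) := by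
  have h1 : (((Finset.univ.filter (fun f : V → Fin 3 × Fin 4 =>
      (N.filter (fun u => f u = a)).card < k)).card : ℕ) : ℝ)
      ≤ ∑ f : V → Fin 3 × Fin 4, (12 : ℝ) ^ k * ∏ u : V, (if u ∈ N ∧ f u = a then (1 / 12 : ℝ) else 1) := by
    rw [Finset.card_filter]
    push_cast
    apply Finset.sum_le_sum
    intro f _
    have hp : ∏ u : V, (if u ∈ N ∧ f u = a then (1 / 12 : ℝ) else 1)
        = (1 / 12 : ℝ) ^ (N.filter (fun u => f u = a)).card := by
      rw [Finset.prod_ite, Finset.prod_const, Finset.prod_const_one, mul_one]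
      congr 2
      ext z
      simp
    rw [hp]
    split_ifs with h
    · have h2 : (12 : ℝ) ^ k = 12 ^ (N.filter (fun u => f u = a)).card
          * 12 ^ (k - (N.filter (fun u => f u = a)).card) := by
        rw [← pow_add]
        congr 1
        omega
      rw [h2]
      have h3 : (1 : ℝ) ≤ 12 ^ (k - (N.filter (fun u => f u = a)).card) := one_le_pow₀ (by norm_num)
      have h4 : (12 : ℝ) ^ (N.filter (fun u => f u = a)).card * (1 / 12 : ℝ) ^ (N.filter (fun u => f u = a)).card = 1 := by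
        rw [← mul_pow]
        norm_num
      calc (1 : ℝ) ≤ 12 ^ (k - (N.filter (fun u => f u = a)).card) := h3
        _ = (12 : ℝ) ^ (N.filter (fun u => f u = a)).card * (1 / 12 : ℝ) ^ (N.filter (fun u => f u = a)).card
            * 12 ^ (k - (N.filter (fun u => f u = a)).card) := by rw [h4, one_mul]
        _ = _ := by ring
    · positivity
  refine h1.trans (le_of_eq ?_)
  rw [← Finset.mul_sum]
  congr 1
  have h2 : ∑ f : V → Fin 3 × Fin 4, ∏ u : V, (if u ∈ N ∧ f u = a then (1 / 12 : ℝ) else 1)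
      = ∏ u : V, ∑ l : Fin 3 × Fin 4, (if u ∈ N ∧ l = a then (1 / 12 : ℝ) else 1) := by
    rw [Finset.prod_univ_sum, Fintype.piFinset_univ]
  rw [h2]
  have h3 : ∀ u : V, ∑ l : Fin 3 × Fin 4, (if u ∈ N ∧ l = a then (1 / 12 : ℝ) else 1)
      = 12 * (if u ∈ N then (133 / 144 : ℝ) else 1) := by
    intro u
    by_cases hu : u ∈ N
    · simp only [hu, true_and, if_true]
      rw [Finset.sum_ite, Finset.sum_const, Finset.sum_const]
      have h4 : (Finset.univ.filter (fun l : Fin 3 × Fin 4 => l = a)).card = 1 := by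
        rw [Finset.filter_eq']
        simp
      have h5 : (Finset.univ.filter (fun l : Fin 3 × Fin 4 => ¬ l = a)).card = 11 := by
        have h6 := Finset.card_filter_add_card_filter_not (s := (Finset.univ : Finset (Fin 3 × Fin 4))) (fun l => l = a)
        rw [h4] at h6
        have h7 : (Finset.univ : Finset (Fin 3 × Fin 4)).card = 12 := by simp
        rw [h7] at h6
        omega
      rw [h4, h5]
      norm_num
    · simp only [hu, false_and, if_false]
      simp
  simp only [h3]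
  rw [Finset.prod_mul_distrib, Finset.prod_const, Finset.card_univ]
  congr 1
  rw [Finset.prod_ite, Finset.prod_const, Finset.prod_const_one, mul_one]
  congr 2
  ext z
  simp

/-- E1: few labellings give some vertex few neighbours with label a. -/
theorem count_deg {I : Finset V} {k d : ℕ} (a : Fin 3 × Fin 4) (hd : ∀ v ∈ I, d ≤ (nbIn G I v).card) :
    (((Finset.univ.filter (fun f : V → Fin 3 × Fin 4 =>
        ∃ v ∈ I, ((nbIn G I v).filter (fun u => f u = a)).card < k)).card : ℕ) : ℝ)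
      ≤ (I.card : ℝ) * 12 ^ (Fintype.card V) * 12 ^ k * (133 / 144 : ℝ) ^ d := by
  have h1 : Finset.univ.filter (fun f : V → Fin 3 × Fin 4 =>
      ∃ v ∈ I, ((nbIn G I v).filter (fun u => f u = a)).card < k)
      ⊆ I.biUnion (fun v => Finset.univ.filter (fun f : V → Fin 3 × Fin 4 =>
        ((nbIn G I v).filter (fun u => f u = a)).card < k)) := by
    intro f hf
    rw [Finset.mem_filter] at hf
    obtain ⟨v, hv, h⟩ := hf.2
    rw [Finset.mem_biUnion]
    exact ⟨v, hv, Finset.mem_filter.2 ⟨Finset.mem_univ _, h⟩⟩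
  calc (((Finset.univ.filter (fun f : V → Fin 3 × Fin 4 =>
        ∃ v ∈ I, ((nbIn G I v).filter (fun u => f u = a)).card < k)).card : ℕ) : ℝ)
      ≤ ((∑ v ∈ I, (Finset.univ.filter (fun f : V → Fin 3 × Fin 4 =>
        ((nbIn G I v).filter (fun u => f u = a)).card < k)).card : ℕ) : ℝ) := by
        exact_mod_cast (Finset.card_le_card h1).trans Finset.card_biUnion_le
    _ = ∑ v ∈ I, (((Finset.univ.filter (fun f : V → Fin 3 × Fin 4 =>
        ((nbIn G I v).filter (fun u => f u = a)).card < k)).card : ℕ) : ℝ) := by push_cast; rfl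
    _ ≤ ∑ v ∈ I, 12 ^ k * (12 ^ (Fintype.card V) * (133 / 144 : ℝ) ^ d) := by
        apply Finset.sum_le_sum
        intro v hv
        refine (E1_one k a (nbIn G I v)).trans ?_
        have h2 : (133 / 144 : ℝ) ^ (nbIn G I v).card ≤ (133 / 144 : ℝ) ^ d :=
          pow_le_pow_of_le_one (by norm_num) (by norm_num) (hd v hv)
        gcongr
    _ = (I.card : ℝ) * 12 ^ (Fintype.card V) * 12 ^ k * (133 / 144 : ℝ) ^ d := by
        rw [Finset.sum_const, nsmul_eq_mul]
        ring

/-! Row E2 -/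
theorem E2_step (Γ : SimpleGraph V) {I F X : Finset V} {q : ℕ} (hF : F ⊆ I)
    (hsep : ∀ S : Finset V, S.card < 2 * q → PC Γ (I \ S))
    (hdom : ∀ v ∈ I \ F, ∃ u ∈ F, Γ.Adj v u) (hX : X ⊆ F) (h1 : X.Nonempty) (h2 : (F \ X).Nonempty)
    (hno : ¬ Touch Γ X (F \ X)) (S : Finset V) (hS : S.card < 2 * q) (hSF : Disjoint S F) :
    ∃ C : Finset V, C ⊆ I \ F ∧ C.card ≤ 2 ∧ Disjoint C S ∧
      ∃ v ∈ C, ∃ v' ∈ C, (v = v' ∨ Γ.Adj v v') ∧ (∃ x ∈ X, Γ.Adj v x) ∧ ∃ y ∈ F \ X, Γ.Adj v' y := by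
  have hnS : ∀ z ∈ F, z ∉ S := fun z hz hz' => (Finset.disjoint_left.1 hSF hz') hz
  set P : Finset V := (I \ S).filter (fun z => z ∈ X ∨ (z ∉ F ∧ ∃ x ∈ X, Γ.Adj z x)) with hP
  have hmem : ∀ z, z ∈ P ↔ (z ∈ I ∧ z ∉ S) ∧ (z ∈ X ∨ (z ∉ F ∧ ∃ x ∈ X, Γ.Adj z x)) := by
    intro z
    rw [hP, Finset.mem_filter, Finset.mem_sdiff]
  have hPne : P.Nonempty := by
    obtain ⟨x, hx⟩ := h1
    exact ⟨x, (hmem x).2 ⟨⟨hF (hX hx), hnS x (hX hx)⟩, Or.inl hx⟩⟩
  have hQne : ((I \ S) \ P).Nonempty := by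
    obtain ⟨y, hy⟩ := h2
    rw [Finset.mem_sdiff] at hy
    refine ⟨y, Finset.mem_sdiff.2 ⟨Finset.mem_sdiff.2 ⟨hF hy.1, hnS y hy.1⟩, ?_⟩⟩
    intro hyP
    rcases ((hmem y).1 hyP).2 with h | h
    · exact hy.2 h
    · exact h.1 hy.1
  obtain ⟨z, hz, z', hz', hadj⟩ := hsep S hS P (Finset.filter_subset _ _) hPne hQne
  rw [Finset.mem_sdiff, Finset.mem_sdiff] at hz'
  obtain ⟨⟨hz'I, hz'S⟩, hz'P⟩ := hz'
  have hz'X : z' ∉ X := fun h => hz'P ((hmem z').2 ⟨⟨hz'I, hz'S⟩, Or.inl h⟩)
  have hz'A : z' ∉ F → ∀ x ∈ X, ¬ Γ.Adj z' x := fun hF' x hx h =>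
    hz'P ((hmem z').2 ⟨⟨hz'I, hz'S⟩, Or.inr ⟨hF', x, hx, h⟩⟩)
  obtain ⟨⟨hzI, hzS⟩, hz2⟩ := (hmem z).1 hz
  rcases hz2 with hzX | ⟨hzF, x, hx, hzx⟩
  · exfalso
    by_cases hz'F : z' ∈ F
    · exact hno ⟨z, hzX, z', Finset.mem_sdiff.2 ⟨hz'F, hz'X⟩, hadj⟩
    · exact hz'A hz'F z hzX hadj.symm
  · by_cases hz'F : z' ∈ F
    · refine ⟨{z}, ?_, ?_, ?_, z, Finset.mem_singleton_self z, z, Finset.mem_singleton_self z, Or.inl rfl,
        ⟨x, hx, hzx⟩, z', Finset.mem_sdiff.2 ⟨hz'F, hz'X⟩, hadj⟩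
      · rw [Finset.singleton_subset_iff, Finset.mem_sdiff]
        exact ⟨hzI, hzF⟩
      · rw [Finset.card_singleton]; omega
      · rw [Finset.disjoint_singleton_left]
        exact hzS
    · obtain ⟨u, hu, hz'u⟩ := hdom z' (Finset.mem_sdiff.2 ⟨hz'I, hz'F⟩)
      have huX : u ∉ X := fun h => hz'A hz'F u h hz'u
      refine ⟨{z, z'}, ?_, Finset.card_le_two, ?_, z, by simp, z', by simp, Or.inr hadj,
        ⟨x, hx, hzx⟩, u, Finset.mem_sdiff.2 ⟨hu, huX⟩, hz'u⟩
      · intro a ha
        rw [Finset.mem_insert, Finset.mem_singleton] at ha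
        rw [Finset.mem_sdiff]
        rcases ha with ha | ha
        · rw [ha]; exact ⟨hzI, hzF⟩
        · rw [ha]; exact ⟨hz'I, hz'F⟩
      · rw [Finset.disjoint_left]
        intro a ha
        rw [Finset.mem_insert, Finset.mem_singleton] at ha
        rcases ha with ha | ha
        · rw [ha]; exact hzS
        · rw [ha]; exact hz'S

/-- E2: many disjoint connectors. -/
theorem connectors (Γ : SimpleGraph V) {I F X : Finset V} {q : ℕ} (hF : F ⊆ I)
    (hsep : ∀ S : Finset V, S.card < 2 * q → PC Γ (I \ S))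
    (hdom : ∀ v ∈ I \ F, ∃ u ∈ F, Γ.Adj v u) (hX : X ⊆ F) (h1 : X.Nonempty) (h2 : (F \ X).Nonempty)
    (hno : ¬ Touch Γ X (F \ X)) :
    ∃ C : Fin q → Finset V, (∀ i, C i ⊆ I \ F ∧ (C i).card ≤ 2) ∧ (∀ i j, i ≠ j → Disjoint (C i) (C j)) ∧
      ∀ i, ∃ v ∈ C i, ∃ v' ∈ C i, (v = v' ∨ Γ.Adj v v') ∧ (∃ x ∈ X, Γ.Adj v x) ∧ ∃ y ∈ F \ X, Γ.Adj v' y := by
  have key : ∀ m, m ≤ q → ∃ C : Fin m → Finset V, (∀ i, C i ⊆ I \ F ∧ (C i).card ≤ 2) ∧
      (∀ i j, i ≠ j → Disjoint (C i) (C j)) ∧
      ∀ i, ∃ v ∈ C i, ∃ v' ∈ C i, (v = v' ∨ Γ.Adj v v') ∧ (∃ x ∈ X, Γ.Adj v x) ∧ ∃ y ∈ F \ X, Γ.Adj v' y := by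
    intro m
    induction m with
    | zero => exact fun _ => ⟨fun i => i.elim0, fun i => i.elim0, fun i => i.elim0, fun i => i.elim0⟩
    | succ m ih =>
      intro hm
      obtain ⟨C, c1, c2, c3⟩ := ih (by omega)
      obtain ⟨D, d1, d2, d3, d4⟩ := E2_step Γ hF hsep hdom hX h1 h2 hno (Finset.univ.biUnion C)
        (by
          have h5 : (Finset.univ.biUnion C).card ≤ ∑ _i : Fin m, 2 :=
            Finset.card_biUnion_le.trans (Finset.sum_le_sum fun i _ => (c1 i).2)
          rw [Finset.sum_const, Finset.card_univ, Fintype.card_fin, smul_eq_mul] at h5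
          omega)
        (by
          rw [Finset.disjoint_left]
          intro a ha haF
          obtain ⟨i, -, hi⟩ := Finset.mem_biUnion.1 ha
          exact (Finset.mem_sdiff.1 ((c1 i).1 hi)).2 haF)
      have hDC : ∀ i, Disjoint D (C i) := fun i =>
        Finset.disjoint_of_subset_right (Finset.subset_biUnion_of_mem C (Finset.mem_univ i)) d3
      refine ⟨Fin.cons D C, ?_, ?_, ?_⟩
      · intro i
        refine Fin.cases ?_ (fun j => ?_) i
        · rw [Fin.cons_zero]; exact ⟨d1, d2⟩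
        · rw [Fin.cons_succ]; exact c1 j
      · intro i j
        refine Fin.cases ?_ (fun i' => ?_) i
        · refine Fin.cases ?_ (fun j' => ?_) j
          · exact fun h => absurd rfl h
          · intro _
            rw [Fin.cons_zero, Fin.cons_succ]
            exact hDC j'
        · refine Fin.cases ?_ (fun j' => ?_) j
          · intro _
            rw [Fin.cons_zero, Fin.cons_succ]
            exact (hDC i').symm
          · intro h
            rw [Fin.cons_succ, Fin.cons_succ]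
            exact c2 i' j' fun e => h (by rw [e])
      · intro i
        refine Fin.cases ?_ (fun j => ?_) i
        · rw [Fin.cons_zero]; exact d4
        · rw [Fin.cons_succ]; exact c3 j
  exact key q le_rfl

/-! Row E3 -/
theorem E3_fibre (a b : Fin 3 × Fin 4) {I F C : Finset V} (hC : C ⊆ I \ F) (hcard : C.card ≤ 2)
    (B : Finset (V → Fin 3 × Fin 4)) (hB : ∀ f ∈ B, I.filter (fun v => f v = a) = F)
    (h : V → Fin 3 × Fin 4) :
    (B.filter (fun f => (fun v => if v ∈ C then b else f v) = h)).card ≤ 121 := by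
  have h1 : (B.filter (fun f => (fun v => if v ∈ C then b else f v) = h)).card ≤
      (Fintype.piFinset (fun _ : {v // v ∈ C} => (Finset.univ.erase a : Finset (Fin 3 × Fin 4)))).card := by
    apply Finset.card_le_card_of_injOn (fun f => fun v : {v // v ∈ C} => f v.1)
    · intro f hf
      have hf' := (Finset.mem_filter.1 (Finset.mem_coe.1 hf)).1
      rw [Finset.mem_coe, Fintype.mem_piFinset]
      rintro ⟨v, hv⟩
      rw [Finset.mem_erase]
      refine ⟨fun hva => ?_, Finset.mem_univ _⟩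
      have h2 := Finset.mem_sdiff.1 (hC hv)
      apply h2.2
      rw [← hB f hf']
      exact Finset.mem_filter.2 ⟨h2.1, hva⟩
    · intro f hf f' hf' hff
      have h2 := (Finset.mem_filter.1 (Finset.mem_coe.1 hf)).2
      have h3 := (Finset.mem_filter.1 (Finset.mem_coe.1 hf')).2
      funext v
      by_cases hv : v ∈ C
      · exact congrFun hff ⟨v, hv⟩
      · have h4 := congrFun (h2.trans h3.symm) v
        simp only [hv, if_false] at h4
        exact h4
  refine h1.trans ?_
  rw [Fintype.card_piFinset, Finset.prod_const, Finset.card_univ, Fintype.card_coe,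
    Finset.card_erase_of_mem (Finset.mem_univ a), Finset.card_univ]
  have h5 : Fintype.card (Fin 3 × Fin 4) = 12 := by simp
  rw [h5]
  calc (12 - 1) ^ C.card ≤ (12 - 1) ^ 2 := Nat.pow_le_pow_right (by norm_num) hcard
    _ = 121 := by norm_num

theorem E3_step (a b : Fin 3 × Fin 4) (hab : a ≠ b) {I F : Finset V} {q : ℕ} (C : Fin q → Finset V)
    (hC : ∀ i, C i ⊆ I \ F ∧ (C i).card ≤ 2) (hdis : ∀ i j, i ≠ j → Disjoint (C i) (C j)) (m : ℕ)
    (hm : m < q) :
    121 * (Finset.univ.filter (fun f : V → Fin 3 × Fin 4 =>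
        I.filter (fun v => f v = a) = F ∧ ∀ i : Fin q, i.1 < m + 1 → ∃ v ∈ C i, f v ≠ b)).card ≤
      120 * (Finset.univ.filter (fun f : V → Fin 3 × Fin 4 =>
        I.filter (fun v => f v = a) = F ∧ ∀ i : Fin q, i.1 < m → ∃ v ∈ C i, f v ≠ b)).card := by
  set B1 := Finset.univ.filter (fun f : V → Fin 3 × Fin 4 =>
        I.filter (fun v => f v = a) = F ∧ ∀ i : Fin q, i.1 < m + 1 → ∃ v ∈ C i, f v ≠ b) with hB1
  set B0 := Finset.univ.filter (fun f : V → Fin 3 × Fin 4 =>
        I.filter (fun v => f v = a) = F ∧ ∀ i : Fin q, i.1 < m → ∃ v ∈ C i, f v ≠ b) with hB0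
  have hsub : B1 ⊆ B0 := by
    intro f hf
    have h1 := (Finset.mem_filter.1 hf).2
    exact Finset.mem_filter.2 ⟨Finset.mem_univ _, h1.1, fun i hi => h1.2 i (by omega)⟩
  have hcard : (B0 \ B1).card + B1.card = B0.card := Finset.card_sdiff_add_card_eq_card hsub
  have hle : B0.card ≤ 121 * (B0 \ B1).card := by
    apply Finset.card_le_mul_card_image_of_maps_to
      (f := fun f : V → Fin 3 × Fin 4 => fun v => if v ∈ C ⟨m, hm⟩ then b else f v)
    · intro f hf
      obtain ⟨h1, h2⟩ := (Finset.mem_filter.1 hf).2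
      rw [Finset.mem_sdiff]
      constructor
      · refine Finset.mem_filter.2 ⟨Finset.mem_univ _, ?_, ?_⟩
        · conv_rhs => rw [← h1]
          ext v
          simp only [Finset.mem_filter]
          refine and_congr_right fun hvI => ?_
          by_cases hv : v ∈ C ⟨m, hm⟩
          · simp only [hv, if_true]
            constructor
            · intro h
              exact absurd h.symm hab
            · intro h
              exfalso
              have h3 := Finset.mem_sdiff.1 ((hC ⟨m, hm⟩).1 hv)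
              apply h3.2
              rw [← h1]
              exact Finset.mem_filter.2 ⟨hvI, h⟩
          · simp only [hv, if_false]
        · intro i hi
          obtain ⟨v, hv, hvb⟩ := h2 i hi
          refine ⟨v, hv, ?_⟩
          have h3 : v ∉ C ⟨m, hm⟩ := by
            intro h4
            have h5 : i ≠ ⟨m, hm⟩ := by
              intro h6
              rw [h6] at hi
              exact absurd hi (lt_irrefl _)
            exact (Finset.disjoint_left.1 (hdis i ⟨m, hm⟩ h5)) hv h4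
          simp only [h3, if_false]
          exact hvb
      · intro hf1
        obtain ⟨v, hv, hvb⟩ := (Finset.mem_filter.1 hf1).2.2 ⟨m, hm⟩ (Nat.lt_succ_self m)
        apply hvb
        simp only [hv, if_true]
    · intro h _
      exact E3_fibre a b (hC ⟨m, hm⟩).1 (hC ⟨m, hm⟩).2 B0
        (fun f hf => (Finset.mem_filter.1 hf).2.1) h
  omega


/-- E3: the probability that no block is completely labelled b. -/
theorem count_blocks (a b : Fin 3 × Fin 4) (hab : a ≠ b) {I F : Finset V} (hF : F ⊆ I) {q : ℕ} (C : Fin q → Finset V)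
    (hC : ∀ i, C i ⊆ I \ F ∧ (C i).card ≤ 2) (hdis : ∀ i j, i ≠ j → Disjoint (C i) (C j)) :
    (((Finset.univ.filter (fun f : V → Fin 3 × Fin 4 =>
        I.filter (fun v => f v = a) = F ∧ ∀ i, ∃ v ∈ C i, f v ≠ b)).card : ℕ) : ℝ)
      ≤ (120 / 121 : ℝ) ^ q *
        (((Finset.univ.filter (fun f : V → Fin 3 × Fin 4 => I.filter (fun v => f v = a) = F)).card : ℕ) : ℝ) := by
  have key : ∀ m : ℕ, m ≤ q → (((Finset.univ.filter (fun f : V → Fin 3 × Fin 4 =>
        I.filter (fun v => f v = a) = F ∧ ∀ i : Fin q, i.1 < m → ∃ v ∈ C i, f v ≠ b)).card : ℕ) : ℝ) ≤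
        (120 / 121 : ℝ) ^ m * (((Finset.univ.filter
          (fun f : V → Fin 3 × Fin 4 => I.filter (fun v => f v = a) = F)).card : ℕ) : ℝ) := by
    intro m
    induction m with
    | zero =>
      intro _
      rw [pow_zero, one_mul]
      have h1 : (Finset.univ.filter (fun f : V → Fin 3 × Fin 4 =>
        I.filter (fun v => f v = a) = F ∧ ∀ i : Fin q, i.1 < 0 → ∃ v ∈ C i, f v ≠ b)).card ≤
          (Finset.univ.filter
            (fun f : V → Fin 3 × Fin 4 => I.filter (fun v => f v = a) = F)).card := by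
        apply Finset.card_le_card
        intro f hf
        exact Finset.mem_filter.2 ⟨Finset.mem_univ _, (Finset.mem_filter.1 hf).2.1⟩
      exact_mod_cast h1
    | succ m ih =>
      intro hm
      have h1 := E3_step a b hab C hC hdis m hm
      have h2 := ih (by omega)
      have h3 : (121 : ℝ) * (((Finset.univ.filter (fun f : V → Fin 3 × Fin 4 =>
        I.filter (fun v => f v = a) = F ∧ ∀ i : Fin q, i.1 < m + 1 → ∃ v ∈ C i, f v ≠ b)).card : ℕ) : ℝ) ≤
        120 * (((Finset.univ.filter (fun f : V → Fin 3 × Fin 4 =>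
        I.filter (fun v => f v = a) = F ∧ ∀ i : Fin q, i.1 < m → ∃ v ∈ C i, f v ≠ b)).card : ℕ) : ℝ) := by
        exact_mod_cast h1
      rw [pow_succ']
      linarith
  have h1 := key q le_rfl
  refine le_trans ?_ h1
  have h2 : (Finset.univ.filter (fun f : V → Fin 3 × Fin 4 =>
        I.filter (fun v => f v = a) = F ∧ ∀ i, ∃ v ∈ C i, f v ≠ b)).card ≤
      (Finset.univ.filter (fun f : V → Fin 3 × Fin 4 =>
        I.filter (fun v => f v = a) = F ∧ ∀ i : Fin q, i.1 < q → ∃ v ∈ C i, f v ≠ b)).card := by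
    apply Finset.card_le_card
    intro f hf
    have h3 := (Finset.mem_filter.1 hf).2
    exact Finset.mem_filter.2 ⟨Finset.mem_univ _, h3.1, fun i _ => h3.2 i⟩
  exact_mod_cast h2

end HD
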