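import Pool.Agent.LibHD.E1

set_option autoImplicit false
set_option linter.unusedSectionVars false

open scoped Classical

noncomputable section

namespace HD

variable {V : Type*} [Fintype V] [DecidableEq V] {G : SimpleGraph V}

/-! Row E4 -/
theorem E4_comp_eq (Γ : SimpleGraph V) {F : Finset V} {x y : V} (h : y ∈ comp Γ F x) :
    comp Γ F y = comp Γ F x := by
  ext z
  rw [mem_comp, mem_comp]
  exact ⟨fun h' => (mem_comp.1 h).trans h', fun h' => (mem_comp.1 h).symm.trans h'⟩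

theorem E4_closed (Γ : SimpleGraph V) {F X : Finset V} (h : ¬ Touch Γ X (F \ X)) {x : V}
    (hx : x ∈ X) : comp Γ F x ⊆ X := by
  intro z hz
  by_contra hcon
  exact h ((joined_split (mem_comp.1 hz) hx hcon).mono Finset.inter_subset_right
    (Finset.Subset.refl _))

/-- E4: few subsets of F have no edge to the rest of F. -/
theorem count_closed (Γ : SimpleGraph V) {F : Finset V} {k : ℕ} (hk : 1 ≤ k)
    (hdeg : ∀ v ∈ F, k ≤ (nbIn Γ F v).card) :
    (F.powerset.filter (fun X => ¬ Touch Γ X (F \ X))).card ≤ 2 ^ (F.card / k) := by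
  set 𝒞 : Finset (Finset V) := F.image (fun x => comp Γ F x) with h𝒞
  have hdisj : ∀ K ∈ 𝒞, ∀ K' ∈ 𝒞, K ≠ K' → Disjoint K K' := by
    intro K hK K' hK' hne
    obtain ⟨x, -, rfl⟩ := Finset.mem_image.1 hK
    obtain ⟨y, -, rfl⟩ := Finset.mem_image.1 hK'
    rw [Finset.disjoint_left]
    intro z h1 h2
    exact hne ((E4_comp_eq Γ h1).symm.trans (E4_comp_eq Γ h2))
  have hsize : ∀ K ∈ 𝒞, k ≤ K.card := by
    intro K hK
    obtain ⟨x, hx, rfl⟩ := Finset.mem_image.1 hK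
    refine (hdeg x hx).trans (Finset.card_le_card fun z hz => ?_)
    rw [mem_nbIn] at hz
    exact mem_comp.2 (joined_of_adj hx hz.1 hz.2)
  have hcard : 𝒞.card * k ≤ F.card := by
    have h1 : 𝒞.card • k ≤ ∑ K ∈ 𝒞, K.card := Finset.card_nsmul_le_sum 𝒞 _ k hsize
    have h2 : (𝒞.biUnion id).card = ∑ K ∈ 𝒞, K.card :=
      Finset.card_biUnion fun K hK K' hK' hne => hdisj K hK K' hK' hne
    have h3 : (𝒞.biUnion id).card ≤ F.card := by
      refine Finset.card_le_card fun z hz => ?_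
      obtain ⟨K, hK, hzK⟩ := Finset.mem_biUnion.1 hz
      obtain ⟨x, -, rfl⟩ := Finset.mem_image.1 hK
      exact comp_subset F x hzK
    rw [smul_eq_mul] at h1
    omega
  have hdiv : 𝒞.card ≤ F.card / k := (Nat.le_div_iff_mul_le (by omega)).2 hcard
  have hrec : ∀ X ∈ F.powerset.filter (fun X => ¬ Touch Γ X (F \ X)),
      X = (𝒞.filter (fun K => K ⊆ X)).biUnion id := by
    intro X hX
    obtain ⟨h1, h2⟩ := Finset.mem_filter.1 hX
    have h3 := Finset.mem_powerset.1 h1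
    ext z
    constructor
    · intro hz
      refine Finset.mem_biUnion.2 ⟨comp Γ F z, Finset.mem_filter.2 ⟨?_, E4_closed Γ h2 hz⟩,
        mem_comp_self (h3 hz)⟩
      exact Finset.mem_image_of_mem _ (h3 hz)
    · intro hz
      obtain ⟨K, hK, hzK⟩ := Finset.mem_biUnion.1 hz
      exact (Finset.mem_filter.1 hK).2 hzK
  refine le_trans ?_ (Nat.pow_le_pow_right (by norm_num) hdiv)
  rw [← Finset.card_powerset]
  refine Finset.card_le_card_of_injOn (fun X => 𝒞.filter (fun K => K ⊆ X)) ?_ ?_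
  · intro X _
    exact Finset.mem_coe.2 (Finset.mem_powerset.2 (Finset.filter_subset _ _))
  · intro X hX X' hX' h
    have h' : 𝒞.filter (fun K => K ⊆ X) = 𝒞.filter (fun K => K ⊆ X') := h
    rw [hrec X (Finset.mem_coe.1 hX), hrec X' (Finset.mem_coe.1 hX'), h']

/-! Row E5 -/
/-- the property of the connectors chosen for `F`, `X` -/
def E5_Q (Γ : SimpleGraph V) (I : Finset V) (q : ℕ) (F X : Finset V) (C : Fin q → Finset V) : Prop :=
  (∀ i, C i ⊆ I \ F ∧ (C i).card ≤ 2) ∧ (∀ i j, i ≠ j → Disjoint (C i) (C j)) ∧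
      ∀ i, ∃ v ∈ C i, ∃ v' ∈ C i, (v = v' ∨ Γ.Adj v v') ∧ (∃ x ∈ X, Γ.Adj v x) ∧ ∃ y ∈ F \ X, Γ.Adj v' y

/-- the connectors chosen for `F`, `X` -/
def E5_D (Γ : SimpleGraph V) (I : Finset V) (q : ℕ) (F X : Finset V) : Fin q → Finset V :=
  if h : ∃ C : Fin q → Finset V, E5_Q Γ I q F X C then h.choose else fun _ => ∅

theorem E5_D_spec (Γ : SimpleGraph V) (I : Finset V) (q : ℕ) (F X : Finset V)
    (h : ∃ C : Fin q → Finset V, E5_Q Γ I q F X C) : E5_Q Γ I q F X (E5_D Γ I q F X) := by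
  unfold E5_D
  rw [dif_pos h]
  exact h.choose_spec

/-- the pairs -/
def E5_good (Γ : SimpleGraph V) (I : Finset V) (k : ℕ) (F : Finset V) : Prop :=
  F ⊆ I ∧ ∀ v ∈ I, k ≤ (nbIn Γ F v).card

def E5_Xs (Γ : SimpleGraph V) (F : Finset V) : Finset (Finset V) :=
  F.powerset.filter (fun X => ¬ Touch Γ X (F \ X) ∧ X.Nonempty ∧ (F \ X).Nonempty)

theorem E5_exists (Γ : SimpleGraph V) {I : Finset V} {k q : ℕ} (hk : 1 ≤ k)
    (hsep : ∀ S : Finset V, S.card < 2 * q → PC Γ (I \ S)) {F X : Finset V} (hF : E5_good Γ I k F)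
    (hX : X ∈ E5_Xs Γ F) : E5_Q Γ I q F X (E5_D Γ I q F X) := by
  apply E5_D_spec
  obtain ⟨h1, h2, h3, h4⟩ := Finset.mem_filter.1 hX
  refine connectors Γ hF.1 hsep ?_ (Finset.mem_powerset.1 h1) h3 h4 h2
  intro v hv
  have h5 := hF.2 v (Finset.mem_sdiff.1 hv).1
  have h6 : (nbIn Γ F v).Nonempty := by
    rw [← Finset.card_pos]
    omega
  obtain ⟨u, hu⟩ := h6
  exact ⟨u, (mem_nbIn.1 hu).1, (mem_nbIn.1 hu).2⟩

/-- the covering -/
theorem E5_cover (Γ : SimpleGraph V) {I : Finset V} {k q : ℕ} (hk : 1 ≤ k) (a b : Fin 3 × Fin 4)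
    (hsep : ∀ S : Finset V, S.card < 2 * q → PC Γ (I \ S)) (f : V → Fin 3 × Fin 4)
    (hf : ∀ v ∈ I, k ≤ ((nbIn Γ I v).filter (fun u => f u = a)).card)
    (hpc : ¬ PC Γ (I.filter (fun v => f v = a ∨ f v = b))) :
    E5_good Γ I k (I.filter (fun v => f v = a)) ∧
      ∃ X ∈ E5_Xs Γ (I.filter (fun v => f v = a)),
        ∀ i, ∃ v ∈ E5_D Γ I q (I.filter (fun v => f v = a)) X i, f v ≠ b := by
  have hgood : E5_good Γ I k (I.filter (fun v => f v = a)) := by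
    refine ⟨Finset.filter_subset _ _, fun v hv => ?_⟩
    refine (hf v hv).trans (Finset.card_le_card ?_)
    intro u hu
    obtain ⟨h1, h2⟩ := Finset.mem_filter.1 hu
    exact mem_nbIn.2 ⟨Finset.mem_filter.2 ⟨(mem_nbIn.1 h1).1, h2⟩, (mem_nbIn.1 h1).2⟩
  refine ⟨hgood, ?_⟩
  obtain ⟨F, hF⟩ : ∃ F, F = I.filter (fun v => f v = a) := ⟨_, rfl⟩
  obtain ⟨A, hA⟩ : ∃ A, A = I.filter (fun v => f v = a ∨ f v = b) := ⟨_, rfl⟩
  rw [← hF] at hgood ⊢
  rw [← hA] at hpc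
  have hFA : F ⊆ A := by
    intro v hv
    rw [hF] at hv
    rw [hA]
    exact Finset.mem_filter.2 ⟨(Finset.mem_filter.1 hv).1, Or.inl (Finset.mem_filter.1 hv).2⟩
  have hAI : A ⊆ I := by rw [hA]; exact Finset.filter_subset _ _
  unfold PC at hpc
  push Not at hpc
  obtain ⟨P, hPA, hP1, hP2, hP3⟩ := hpc
  have hnb : ∀ v ∈ I, ∃ u ∈ F, Γ.Adj v u := by
    intro v hv
    have h5 := hgood.2 v hv
    have h6 : (nbIn Γ F v).Nonempty := by
      rw [← Finset.card_pos]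
      omega
    obtain ⟨u, hu⟩ := h6
    exact ⟨u, (mem_nbIn.1 hu).1, (mem_nbIn.1 hu).2⟩
  have hclosed : ∀ u ∈ P, ∀ v ∈ A, Γ.Adj u v → v ∈ P := by
    intro u hu v hv huv
    by_contra h
    exact hP3 ⟨u, hu, v, Finset.mem_sdiff.2 ⟨hv, h⟩, huv⟩
  have hclosed' : ∀ u ∈ A, u ∉ P → ∀ v ∈ A, Γ.Adj u v → v ∉ P := by
    intro u hu hu' v hv huv hvP
    exact hu' (hclosed v hvP u hu huv.symm)
  have hXmem : P ∩ F ∈ E5_Xs Γ F := by
    refine Finset.mem_filter.2 ⟨Finset.mem_powerset.2 Finset.inter_subset_right, ?_, ?_, ?_⟩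
    · rintro ⟨u, hu, v, hv, huv⟩
      obtain ⟨hv1, hv2⟩ := Finset.mem_sdiff.1 hv
      obtain ⟨hu1, hu2⟩ := Finset.mem_inter.1 hu
      exact hv2 (Finset.mem_inter.2 ⟨hclosed u hu1 v (hFA hv1) huv, hv1⟩)
    · obtain ⟨v, hv⟩ := hP1
      obtain ⟨u, hu, huv⟩ := hnb v (hAI (hPA hv))
      exact ⟨u, Finset.mem_inter.2 ⟨hclosed v hv u (hFA hu) huv, hu⟩⟩
    · obtain ⟨v, hv⟩ := hP2
      obtain ⟨hv1, hv2⟩ := Finset.mem_sdiff.1 hv
      obtain ⟨u, hu, huv⟩ := hnb v (hAI hv1)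
      refine ⟨u, Finset.mem_sdiff.2 ⟨hu, fun h => ?_⟩⟩
      exact hclosed' v hv1 hv2 u (hFA hu) huv (Finset.mem_inter.1 h).1
  refine ⟨P ∩ F, hXmem, fun i => ?_⟩
  have hQ := E5_exists Γ hk hsep hgood hXmem
  obtain ⟨hQ1, hQ2, hQ3⟩ := hQ
  by_contra hcon
  push Not at hcon
  obtain ⟨v, hv, v', hv', hvv, ⟨x, hx, hvx⟩, y, hy, hvy⟩ := hQ3 i
  have hmem : ∀ w ∈ E5_D Γ I q F (P ∩ F) i, w ∈ A := by
    intro w hw
    rw [hA]
    exact Finset.mem_filter.2 ⟨(Finset.mem_sdiff.1 ((hQ1 i).1 hw)).1, Or.inr (hcon w hw)⟩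
  have hvP : v ∈ P := hclosed x (Finset.mem_inter.1 hx).1 v (hmem v hv) hvx.symm
  have hyP : y ∉ P := fun h =>
    (Finset.mem_sdiff.1 hy).2 (Finset.mem_inter.2 ⟨h, (Finset.mem_sdiff.1 hy).1⟩)
  have hv'P : v' ∉ P := hclosed' y (hFA (Finset.mem_sdiff.1 hy).1) hyP v' (hmem v' hv') hvy.symm
  rcases hvv with h | h
  · exact hv'P (h ▸ hvP)
  · exact hv'P (hclosed v hvP v' (hmem v' hv') h)

/-- E5: the probability that the sampled set is disconnected. -/
theorem count_disc (Γ : SimpleGraph V) {I : Finset V} {k q : ℕ} (hk : 1 ≤ k) (a b : Fin 3 × Fin 4) (hab : a ≠ b)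
    (hsep : ∀ S : Finset V, S.card < 2 * q → PC Γ (I \ S)) :
    (((Finset.univ.filter (fun f : V → Fin 3 × Fin 4 =>
        (∀ v ∈ I, k ≤ ((nbIn Γ I v).filter (fun u => f u = a)).card) ∧
          ¬ PC Γ (I.filter (fun v => f v = a ∨ f v = b)))).card : ℕ) : ℝ)
      ≤ (12 : ℝ) ^ (Fintype.card V) * 2 ^ (I.card / k) * (120 / 121) ^ q := by
  have hsub : (Finset.univ.filter (fun f : V → Fin 3 × Fin 4 =>
        (∀ v ∈ I, k ≤ ((nbIn Γ I v).filter (fun u => f u = a)).card) ∧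
          ¬ PC Γ (I.filter (fun v => f v = a ∨ f v = b)))) ⊆
      (I.powerset.filter (E5_good Γ I k)).biUnion fun F => (E5_Xs Γ F).biUnion fun X =>
        Finset.univ.filter (fun f : V → Fin 3 × Fin 4 =>
          I.filter (fun v => f v = a) = F ∧ ∀ i, ∃ v ∈ E5_D Γ I q F X i, f v ≠ b) := by
    intro f hf
    obtain ⟨-, h1, h2⟩ := Finset.mem_filter.1 hf
    obtain ⟨h3, X, hX, h4⟩ := E5_cover Γ hk a b hsep f h1 h2
    refine Finset.mem_biUnion.2 ⟨I.filter (fun v => f v = a), Finset.mem_filter.2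
      ⟨Finset.mem_powerset.2 h3.1, h3⟩, Finset.mem_biUnion.2 ⟨X, hX, Finset.mem_filter.2
      ⟨Finset.mem_univ _, rfl, h4⟩⟩⟩
  have h1 := (Finset.card_le_card hsub).trans Finset.card_biUnion_le
  have hr : (0 : ℝ) ≤ (120 / 121 : ℝ) ^ q := by positivity
  have h2 : ∀ F ∈ I.powerset.filter (E5_good Γ I k),
      ((((E5_Xs Γ F).biUnion fun X => Finset.univ.filter (fun f : V → Fin 3 × Fin 4 =>
          I.filter (fun v => f v = a) = F ∧ ∀ i, ∃ v ∈ E5_D Γ I q F X i, f v ≠ b)).card : ℕ) : ℝ) ≤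
        2 ^ (I.card / k) * ((120 / 121 : ℝ) ^ q *
        (((Finset.univ.filter (fun f : V → Fin 3 × Fin 4 => I.filter (fun v => f v = a) = F)).card : ℕ) : ℝ)) := by
    intro F hF
    obtain ⟨hF1, hF2⟩ := Finset.mem_filter.1 hF
    have h3 : ((((E5_Xs Γ F).biUnion fun X => Finset.univ.filter (fun f : V → Fin 3 × Fin 4 =>
          I.filter (fun v => f v = a) = F ∧ ∀ i, ∃ v ∈ E5_D Γ I q F X i, f v ≠ b)).card : ℕ) : ℝ) ≤
        ((∑ X ∈ E5_Xs Γ F, (Finset.univ.filter (fun f : V → Fin 3 × Fin 4 =>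
          I.filter (fun v => f v = a) = F ∧ ∀ i, ∃ v ∈ E5_D Γ I q F X i, f v ≠ b)).card : ℕ) : ℝ) := by
      exact_mod_cast Finset.card_biUnion_le
    refine h3.trans ?_
    rw [Nat.cast_sum]
    have h4 : ∀ X ∈ E5_Xs Γ F, (((Finset.univ.filter (fun f : V → Fin 3 × Fin 4 =>
          I.filter (fun v => f v = a) = F ∧ ∀ i, ∃ v ∈ E5_D Γ I q F X i, f v ≠ b)).card : ℕ) : ℝ) ≤
        (120 / 121 : ℝ) ^ q *
        (((Finset.univ.filter (fun f : V → Fin 3 × Fin 4 => I.filter (fun v => f v = a) = F)).card : ℕ) : ℝ) := by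
      intro X hX
      have hQ := E5_exists Γ hk hsep hF2 hX
      exact count_blocks a b hab hF2.1 _ hQ.1 hQ.2.1
    refine (Finset.sum_le_sum h4).trans ?_
    rw [Finset.sum_const, nsmul_eq_mul]
    refine mul_le_mul_of_nonneg_right ?_ (by positivity)
    have h5 : (E5_Xs Γ F).card ≤ 2 ^ (I.card / k) := by
      have h6 : (E5_Xs Γ F).card ≤ (F.powerset.filter (fun X => ¬ Touch Γ X (F \ X))).card := by
        apply Finset.card_le_card
        intro X hX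
        obtain ⟨k1, k2, -, -⟩ := Finset.mem_filter.1 hX
        exact Finset.mem_filter.2 ⟨k1, k2⟩
      refine h6.trans ((count_closed Γ hk fun v hv => hF2.2 v (hF2.1 hv)).trans ?_)
      exact Nat.pow_le_pow_right (by norm_num) (Nat.div_le_div_right (Finset.card_le_card hF2.1))
    exact_mod_cast h5
  have h7 : ∑ F ∈ I.powerset.filter (E5_good Γ I k), (((Finset.univ.filter
      (fun f : V → Fin 3 × Fin 4 => I.filter (fun v => f v = a) = F)).card : ℕ) : ℝ) ≤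
      (12 : ℝ) ^ (Fintype.card V) := by
    have h8 : ∑ F ∈ I.powerset.filter (E5_good Γ I k), ((Finset.univ.filter
      (fun f : V → Fin 3 × Fin 4 => I.filter (fun v => f v = a) = F)).card) ≤
        12 ^ (Fintype.card V) := by
      have h9 : (Finset.univ : Finset (V → Fin 3 × Fin 4)).card = 12 ^ (Fintype.card V) := by
        rw [Finset.card_univ, Fintype.card_fun]
        simp
      rw [← h9, Finset.card_eq_sum_card_fiberwise (f := fun f : V → Fin 3 × Fin 4 =>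
        I.filter (fun v => f v = a)) (t := I.powerset) (fun f _ =>
          Finset.mem_coe.2 (Finset.mem_powerset.2 (Finset.filter_subset _ _)))]
      exact Finset.sum_le_sum_of_subset (Finset.filter_subset _ _)
    exact_mod_cast h8
  calc (((Finset.univ.filter (fun f : V → Fin 3 × Fin 4 =>
        (∀ v ∈ I, k ≤ ((nbIn Γ I v).filter (fun u => f u = a)).card) ∧
          ¬ PC Γ (I.filter (fun v => f v = a ∨ f v = b)))).card : ℕ) : ℝ)
      ≤ ((∑ F ∈ I.powerset.filter (E5_good Γ I k), (((E5_Xs Γ F).biUnion fun X =>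
        Finset.univ.filter (fun f : V → Fin 3 × Fin 4 =>
          I.filter (fun v => f v = a) = F ∧ ∀ i, ∃ v ∈ E5_D Γ I q F X i, f v ≠ b)).card) : ℕ) : ℝ) := by
        exact_mod_cast h1
    _ ≤ ∑ F ∈ I.powerset.filter (E5_good Γ I k), 2 ^ (I.card / k) * ((120 / 121 : ℝ) ^ q *
        (((Finset.univ.filter (fun f : V → Fin 3 × Fin 4 => I.filter (fun v => f v = a) = F)).card : ℕ) : ℝ)) := by
        rw [Nat.cast_sum]
        exact Finset.sum_le_sum h2
    _ = 2 ^ (I.card / k) * (120 / 121 : ℝ) ^ q * ∑ F ∈ I.powerset.filter (E5_good Γ I k),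
        (((Finset.univ.filter (fun f : V → Fin 3 × Fin 4 => I.filter (fun v => f v = a) = F)).card : ℕ) : ℝ) := by
        rw [Finset.mul_sum]
        exact Finset.sum_congr rfl fun F _ => by ring
    _ ≤ 2 ^ (I.card / k) * (120 / 121 : ℝ) ^ q * (12 : ℝ) ^ (Fintype.card V) :=
        mul_le_mul_of_nonneg_left h7 (by positivity)
    _ = _ := by ring

/-! Row E6 -/
private theorem E6_prod (W : Finset V) :
    (∏ v : V, (if v ∈ W then 2 else 4 : ℕ)) * 2 ^ W.card = 4 ^ Fintype.card V := by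
  have h1 : (2 : ℕ) ^ W.card = ∏ v : V, (if v ∈ W then 2 else 1 : ℕ) := by
    rw [Finset.prod_ite_mem, Finset.univ_inter, Finset.prod_const]
  rw [h1, ← Finset.prod_mul_distrib]
  have h2 : ∀ v : V, (if v ∈ W then 2 else 4 : ℕ) * (if v ∈ W then 2 else 1 : ℕ) = 4 := by
    intro v
    by_cases hv : v ∈ W <;> simp [hv]
  rw [Finset.prod_congr rfl (fun v _ => h2 v), Finset.prod_const, Finset.card_univ]

private theorem E6_local (Γ : SimpleGraph V) {I : Finset V} {k : ℕ} (j : Fin 3) (c : V → Fin 3)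
    (hc : ∃ S : Finset V, S.card ≤ k ∧ ¬ PC Γ ((I.filter (fun v => c v = j)) \ S)) :
    ∃ T : Finset (V → Fin 4), 4 ^ Fintype.card V ≤ 2 ^ (k + 2) * T.card ∧
      ∀ g ∈ T, ¬ PC Γ (I.filter (fun v => (c v, g v) = (j, 0) ∨ (c v, g v) = (j, 1))) := by
  obtain ⟨S, hS, hPC⟩ := hc
  unfold PC at hPC
  push Not at hPC
  obtain ⟨P, hP, hPne, hQne, hno⟩ := hPC
  obtain ⟨p, hp⟩ := hPne
  obtain ⟨q, hq⟩ := hQne
  set A := (I.filter (fun v => c v = j)) \ S with hA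
  refine ⟨Fintype.piFinset (fun v => if v ∈ S then {2, 3} else if v = p ∨ v = q then {0, 1} else Finset.univ),
    ?_, ?_⟩
  · rw [Fintype.card_piFinset]
    have h1 : ∀ v : V, (if v ∈ S then ({2, 3} : Finset (Fin 4)) else if v = p ∨ v = q then {0, 1} else Finset.univ).card
        = if v ∈ S ∪ {p, q} then 2 else 4 := by
      intro v
      by_cases h1 : v ∈ S
      · simp [h1]
      · by_cases h2 : v = p ∨ v = q
        · simp [h1, h2]
        · simp [h1, h2]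
    rw [Finset.prod_congr rfl (fun v _ => h1 v), ← E6_prod (S ∪ {p, q}), mul_comm]
    apply Nat.mul_le_mul_right
    apply Nat.pow_le_pow_right (by norm_num)
    calc (S ∪ {p, q}).card ≤ S.card + ({p, q} : Finset V).card := Finset.card_union_le _ _
      _ ≤ k + 2 := Nat.add_le_add hS Finset.card_le_two
  · intro g hg hcon
    rw [Fintype.mem_piFinset] at hg
    have hpA : p ∈ A := hP hp
    have hqA : q ∈ A := (Finset.mem_sdiff.1 hq).1
    have hpA' := hpA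
    have hqA' := hqA
    rw [hA, Finset.mem_sdiff, Finset.mem_filter] at hpA' hqA'
    have hgp : g p = 0 ∨ g p = 1 := by
      have := hg p
      rw [if_neg hpA'.2, if_pos (Or.inl rfl)] at this
      simpa using this
    have hgq : g q = 0 ∨ g q = 1 := by
      have := hg q
      rw [if_neg hqA'.2, if_pos (Or.inr rfl)] at this
      simpa using this
    have hgS : ∀ v ∈ S, ¬ (g v = 0 ∨ g v = 1) := by
      intro v hv h
      have h3 := hg v
      rw [if_pos hv] at h3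
      simp only [Finset.mem_insert, Finset.mem_singleton] at h3
      rcases h with h | h <;> rcases h3 with h3 | h3 <;> rw [h] at h3 <;> revert h3 <;> decide
    set B := I.filter (fun v => (c v, g v) = (j, 0) ∨ (c v, g v) = (j, 1)) with hB
    have hBA : B ⊆ A := by
      intro v hv
      rw [hB, Finset.mem_filter] at hv
      have h1 : c v = j ∧ (g v = 0 ∨ g v = 1) := by
        rcases hv.2 with h | h
        · exact ⟨(Prod.mk.inj h).1, Or.inl (Prod.mk.inj h).2⟩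
        · exact ⟨(Prod.mk.inj h).1, Or.inr (Prod.mk.inj h).2⟩
      rw [hA, Finset.mem_sdiff, Finset.mem_filter]
      exact ⟨⟨hv.1, h1.1⟩, fun h => hgS v h h1.2⟩
    have hpB : p ∈ B := by
      rw [hB, Finset.mem_filter]
      refine ⟨hpA'.1.1, ?_⟩
      rcases hgp with h | h
      · exact Or.inl (by rw [hpA'.1.2, h])
      · exact Or.inr (by rw [hpA'.1.2, h])
    have hqB : q ∈ B := by
      rw [hB, Finset.mem_filter]
      refine ⟨hqA'.1.1, ?_⟩
      rcases hgq with h | h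
      · exact Or.inl (by rw [hqA'.1.2, h])
      · exact Or.inr (by rw [hqA'.1.2, h])
    obtain ⟨u, hu, v, hv, huv⟩ := hcon (B ∩ P) Finset.inter_subset_left
      ⟨p, Finset.mem_inter.2 ⟨hpB, hp⟩⟩
      ⟨q, Finset.mem_sdiff.2 ⟨hqB, fun h => (Finset.mem_sdiff.1 hq).2 (Finset.mem_inter.1 h).2⟩⟩
    apply hno
    refine ⟨u, (Finset.mem_inter.1 hu).2, v, ?_, huv⟩
    rw [Finset.mem_sdiff] at hv ⊢
    exact ⟨hBA hv.1, fun h => hv.2 (Finset.mem_inter.2 ⟨hv.1, h⟩)⟩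

/-- E6: the subsampling trick. -/
theorem trick (Γ : SimpleGraph V) {I : Finset V} {k : ℕ} (j : Fin 3) :
    (((Finset.univ.filter (fun c : V → Fin 3 => ∃ S : Finset V, S.card ≤ k ∧
        ¬ PC Γ ((I.filter (fun v => c v = j)) \ S))).card : ℕ) : ℝ) * 4 ^ (Fintype.card V)
      ≤ 2 ^ (k + 2) * (((Finset.univ.filter (fun f : V → Fin 3 × Fin 4 =>
          ¬ PC Γ (I.filter (fun v => f v = (j, 0) ∨ f v = (j, 1))))).card : ℕ) : ℝ) := by
  set bad := Finset.univ.filter (fun c : V → Fin 3 => ∃ S : Finset V, S.card ≤ k ∧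
        ¬ PC Γ ((I.filter (fun v => c v = j)) \ S)) with hbad
  have key : ∀ c : V → Fin 3, ∃ T : Finset (V → Fin 4), c ∈ bad → (4 ^ Fintype.card V ≤ 2 ^ (k + 2) * T.card ∧
      ∀ g ∈ T, ¬ PC Γ (I.filter (fun v => (c v, g v) = (j, 0) ∨ (c v, g v) = (j, 1)))) := by
    intro c
    by_cases hc : c ∈ bad
    · obtain ⟨T, hT⟩ := E6_local Γ j c (by rw [hbad, Finset.mem_filter] at hc; exact hc.2)
      exact ⟨T, fun _ => hT⟩
    · exact ⟨∅, fun h => absurd h hc⟩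
  choose T hT using key
  have h1 : bad.card * 4 ^ Fintype.card V ≤ 2 ^ (k + 2) * (bad.sigma T).card := by
    rw [Finset.card_sigma, Finset.mul_sum, ← smul_eq_mul, ← Finset.sum_const]
    exact Finset.sum_le_sum (fun c hc => (hT c hc).1)
  have h2 : (bad.sigma T).card ≤ (Finset.univ.filter (fun f : V → Fin 3 × Fin 4 =>
          ¬ PC Γ (I.filter (fun v => f v = (j, 0) ∨ f v = (j, 1))))).card := by
    apply Finset.card_le_card_of_injOn (fun x v => (x.1 v, x.2 v))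
    · rintro ⟨c, g⟩ hcg
      have hcg' := Finset.mem_sigma.1 (Finset.mem_coe.1 hcg)
      simp only [Finset.coe_filter, Finset.mem_univ, true_and, Set.mem_ofPred_eq]
      exact (hT c hcg'.1).2 g hcg'.2
    · rintro ⟨c, g⟩ _ ⟨c', g'⟩ _ h
      have h3 : ∀ v, (c v, g v) = (c' v, g' v) := fun v => congrFun h v
      have h4 : c = c' := funext fun v => (Prod.mk.inj (h3 v)).1
      have h5 : g = g' := funext fun v => (Prod.mk.inj (h3 v)).2
      subst h4
      subst h5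
      rfl
  have h3 := h1.trans (Nat.mul_le_mul_left _ h2)
  exact_mod_cast h3

/-! Row E7 -/
/-- E7: number of small subsets. -/
theorem count_small {D : Finset V} {k : ℕ} (hk : 1 ≤ k) (hD : D.card ≤ 2 ^ 16 * k) :
    (((D.powerset.filter (fun S => S.card ≤ k)).card : ℕ) : ℝ) ≤ 2 ^ (18 * k) := by
  obtain ⟨x, hx⟩ : ∃ x : ℝ, x = 1 / 2 ^ 15 := ⟨_, rfl⟩
  obtain ⟨m, hm⟩ : ∃ m : ℕ, m = 2 ^ 16 := ⟨_, rfl⟩
  have hx0 : 0 < x := by rw [hx]; positivity
  have hx1 : x ≤ 1 := by rw [hx]; norm_num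
  have hxm : (m : ℝ) * x = 2 := by rw [hm, hx]; norm_num
  have hx2 : (2 : ℝ) ^ 15 * x = 1 := by rw [hx]; norm_num
  have hone : ∀ S ∈ D.powerset.filter (fun S => S.card ≤ k), (1 : ℝ) ≤ 2 ^ (15 * k) * x ^ S.card := by
    intro S hS
    have h1 : S.card ≤ k := (Finset.mem_filter.1 hS).2
    have h2 : x ^ k ≤ x ^ S.card := pow_le_pow_of_le_one hx0.le hx1 h1
    have h3 : (2 : ℝ) ^ (15 * k) * x ^ k = 1 := by
      rw [pow_mul, ← mul_pow, hx2, one_pow]
    calc (1 : ℝ) = 2 ^ (15 * k) * x ^ k := h3.symm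
      _ ≤ 2 ^ (15 * k) * x ^ S.card := mul_le_mul_of_nonneg_left h2 (by positivity)
  have h1 : (((D.powerset.filter (fun S => S.card ≤ k)).card : ℕ) : ℝ) ≤
      ∑ S ∈ D.powerset.filter (fun S => S.card ≤ k), 2 ^ (15 * k) * x ^ S.card := by
    rw [Finset.card_eq_sum_ones]
    push_cast
    exact Finset.sum_le_sum hone
  have h2 : ∑ S ∈ D.powerset.filter (fun S => S.card ≤ k), (2 : ℝ) ^ (15 * k) * x ^ S.card ≤
      ∑ S ∈ D.powerset, (2 : ℝ) ^ (15 * k) * x ^ S.card :=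
    Finset.sum_le_sum_of_subset_of_nonneg (Finset.filter_subset _ _) fun S _ _ => by positivity
  have h3 : ∑ S ∈ D.powerset, (2 : ℝ) ^ (15 * k) * x ^ S.card = 2 ^ (15 * k) * (x + 1) ^ D.card := by
    rw [← Finset.mul_sum]
    congr 1
    rw [← Finset.sum_pow_mul_eq_add_pow x 1 D]
    exact Finset.sum_congr rfl fun S _ => by rw [one_pow, mul_one]
  have h4 : (x + 1) ^ D.card ≤ ((x + 1) ^ m) ^ k := by
    rw [← pow_mul]
    exact pow_le_pow_right₀ (by linarith) (by rw [hm]; exact hD)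
  have h5 : (x + 1) ^ m ≤ 2 ^ 3 := by
    have h6 : x + 1 ≤ Real.exp x := Real.add_one_le_exp x
    have h7 : (x + 1) ^ m ≤ (Real.exp x) ^ m := pow_le_pow_left₀ (by linarith) h6 m
    have h8 : (Real.exp x) ^ m = Real.exp 1 ^ 2 := by
      rw [← Real.exp_nat_mul, hxm, ← Real.exp_nat_mul]
      norm_num
    rw [h8] at h7
    have h9 := Real.exp_one_lt_d9
    have h10 := Real.exp_pos 1
    nlinarith
  have h6 : ((x + 1) ^ m) ^ k ≤ 2 ^ (3 * k) := by
    rw [pow_mul (2 : ℝ) 3 k]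
    exact pow_le_pow_left₀ (by positivity) h5 k
  calc (((D.powerset.filter (fun S => S.card ≤ k)).card : ℕ) : ℝ) ≤ 2 ^ (15 * k) * (x + 1) ^ D.card :=
        h1.trans (h2.trans h3.le)
    _ ≤ 2 ^ (15 * k) * 2 ^ (3 * k) := mul_le_mul_of_nonneg_left (h4.trans h6) (by positivity)
    _ = 2 ^ (18 * k) := by
        rw [← pow_add]
        congr 1
        omega

/-! Row E8 -/
theorem E8_A {k N d : ℕ} (hN : N ≤ k ^ 2) (hd : 2 ^ 15 * k ≤ d) :
    (N : ℝ) * 12 ^ k * (133 / 144) ^ d ≤ ((1 / 2 : ℝ) ^ 94) ^ k := by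
  have h1 : (N : ℝ) ≤ 4 ^ k := by
    have h2 : k < 2 ^ k := Nat.lt_two_pow_self
    have h3 : N ≤ 4 ^ k := by
      calc N ≤ k ^ 2 := hN
        _ ≤ (2 ^ k) ^ 2 := Nat.pow_le_pow_left h2.le 2
        _ = 4 ^ k := by rw [← pow_mul, mul_comm, pow_mul]; norm_num
    exact_mod_cast h3
  have h2 : (12 : ℝ) ^ k ≤ 16 ^ k := pow_le_pow_left₀ (by norm_num) (by norm_num) k
  have h3 : ((133 : ℝ) / 144) ^ d ≤ ((1 / 2 : ℝ) ^ 100) ^ k := by
    calc ((133 : ℝ) / 144) ^ d ≤ ((133 : ℝ) / 144) ^ (900 * k) :=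
          pow_le_pow_of_le_one (by norm_num) (by norm_num) (by omega)
      _ = ((((133 : ℝ) / 144) ^ 9) ^ 100) ^ k := by rw [← pow_mul, ← pow_mul]; congr 1; ring
      _ ≤ ((1 / 2 : ℝ) ^ 100) ^ k := by
          refine pow_le_pow_left₀ (by positivity) ?_ k
          refine pow_le_pow_left₀ (by positivity) ?_ 100
          norm_num
  calc (N : ℝ) * 12 ^ k * (133 / 144) ^ d ≤ 4 ^ k * 16 ^ k * ((1 / 2 : ℝ) ^ 100) ^ k := by
        refine mul_le_mul (mul_le_mul h1 h2 (by positivity) (by positivity)) h3 (by positivity) (by positivity)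
    _ = ((1 / 2 : ℝ) ^ 94) ^ k := by
        rw [← mul_pow, ← mul_pow]
        norm_num

theorem E8_B {k N : ℕ} (hN : N ≤ k ^ 2) :
    (2 : ℝ) ^ (N / k) * (120 / 121) ^ (7744 * k) ≤ ((1 / 2 : ℝ) ^ 63) ^ k := by
  have h0 : N / k ≤ k := by
    apply Nat.div_le_of_le_mul
    rw [← sq]
    exact hN
  have h1 : (2 : ℝ) ^ (N / k) ≤ 2 ^ k := pow_le_pow_right₀ (by norm_num) h0
  have h4 : ((120 : ℝ) / 121) ^ 121 ≤ 1 / 2 := by
    have h5 : (2 : ℝ) ≤ ((121 : ℝ) / 120) ^ 121 := by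
      have h6 := one_add_mul_le_pow (a := (1 / 120 : ℝ)) (by norm_num) 121
      have h7 : (1 : ℝ) + 1 / 120 = 121 / 120 := by norm_num
      rw [h7] at h6
      refine le_trans ?_ h6
      norm_num
    have h8 : ((120 : ℝ) / 121) ^ 121 * ((121 : ℝ) / 120) ^ 121 = 1 := by
      rw [← mul_pow]
      norm_num
    have h9 : 0 ≤ ((120 : ℝ) / 121) ^ 121 := by positivity
    nlinarith
  have h3 : ((120 : ℝ) / 121) ^ (7744 * k) ≤ ((1 / 2 : ℝ) ^ 64) ^ k := by
    calc ((120 : ℝ) / 121) ^ (7744 * k) = ((((120 : ℝ) / 121) ^ 121) ^ 64) ^ k := by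
          rw [← pow_mul, ← pow_mul]; congr 1; ring
      _ ≤ ((1 / 2 : ℝ) ^ 64) ^ k := by
          refine pow_le_pow_left₀ (by positivity) ?_ k
          exact pow_le_pow_left₀ (by positivity) h4 64
  calc (2 : ℝ) ^ (N / k) * (120 / 121) ^ (7744 * k) ≤ 2 ^ k * ((1 / 2 : ℝ) ^ 64) ^ k :=
        mul_le_mul h1 h3 (by positivity) (by positivity)
    _ = ((1 / 2 : ℝ) ^ 63) ^ k := by
        rw [← mul_pow]
        norm_num

/-- E8: numerics. -/
theorem numerics {k N d : ℕ} (hk : 1 ≤ k) (hN : N ≤ k ^ 2) (hd : 2 ^ 15 * k ≤ d) :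
    3 * (2 : ℝ) ^ (18 * k) * (2 ^ (k + 2) * ((N : ℝ) * 12 ^ k * (133 / 144) ^ d + 2 ^ (N / k) * (120 / 121) ^ (7744 * k)))
      + 3 * ((N : ℝ) * 12 ^ k * (133 / 144) ^ d) < 1 := by
  have hA := E8_A hN hd
  have hB := E8_B hN
  have h1 : 3 * (2 : ℝ) ^ (18 * k) * (2 ^ (k + 2) * ((N : ℝ) * 12 ^ k * (133 / 144) ^ d +
      2 ^ (N / k) * (120 / 121) ^ (7744 * k))) + 3 * ((N : ℝ) * 12 ^ k * (133 / 144) ^ d) ≤
      3 * (2 : ℝ) ^ (18 * k) * (2 ^ (k + 2) * (((1 / 2 : ℝ) ^ 94) ^ k + ((1 / 2 : ℝ) ^ 63) ^ k)) +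
        3 * ((1 / 2 : ℝ) ^ 94) ^ k := by
    refine add_le_add (mul_le_mul_of_nonneg_left (mul_le_mul_of_nonneg_left (add_le_add hA hB) (by positivity))
      (by positivity)) (mul_le_mul_of_nonneg_left hA (by norm_num))
  refine h1.trans_lt ?_
  have h2 : 3 * (2 : ℝ) ^ (18 * k) * (2 ^ (k + 2) * (((1 / 2 : ℝ) ^ 94) ^ k + ((1 / 2 : ℝ) ^ 63) ^ k)) +
        3 * ((1 / 2 : ℝ) ^ 94) ^ k = 12 * ((1 / 2 : ℝ) ^ 75) ^ k + 12 * ((1 / 2 : ℝ) ^ 44) ^ k +
        3 * ((1 / 2 : ℝ) ^ 94) ^ k := by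
    have e1 : (2 : ℝ) ^ (18 * k) = (2 ^ 18) ^ k := by rw [pow_mul]
    have e2 : (2 : ℝ) ^ (k + 2) = 2 ^ k * 4 := by rw [pow_add]; norm_num
    have e3 : ((1 / 2 : ℝ) ^ 75) ^ k = (2 ^ 18) ^ k * 2 ^ k * ((1 / 2 : ℝ) ^ 94) ^ k := by
      rw [← mul_pow, ← mul_pow]
      norm_num
    have e4 : ((1 / 2 : ℝ) ^ 44) ^ k = (2 ^ 18) ^ k * 2 ^ k * ((1 / 2 : ℝ) ^ 63) ^ k := by
      rw [← mul_pow, ← mul_pow]
      norm_num
    rw [e1, e2, e3, e4]
    ring
  rw [h2]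
  have h3 : ((1 / 2 : ℝ) ^ 75) ^ k ≤ (1 / 2 : ℝ) ^ 75 := pow_le_of_le_one (by positivity) (by norm_num) (by omega)
  have h4 : ((1 / 2 : ℝ) ^ 44) ^ k ≤ (1 / 2 : ℝ) ^ 44 := pow_le_of_le_one (by positivity) (by norm_num) (by omega)
  have h5 : ((1 / 2 : ℝ) ^ 94) ^ k ≤ (1 / 2 : ℝ) ^ 94 := pow_le_of_le_one (by positivity) (by norm_num) (by omega)
  have h6 : (12:ℝ) * (1 / 2 : ℝ) ^ 75 + 12 * (1 / 2 : ℝ) ^ 44 + 3 * (1 / 2 : ℝ) ^ 94 < 1 := by norm_num
  linarith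

end HD
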