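import Pool.Agent.LibHD.C
import Pool.Agent.LibHD.E2

set_option autoImplicit false
set_option linter.unusedSectionVars false

open scoped Classical

noncomputable section

namespace HD

variable {V : Type*} [Fintype V] [DecidableEq V] {G : SimpleGraph V}

/-! Row E9 -/
/-- E9, deterministic part: connectivity in the torsos gives connectivity in the graph. -/
theorem E9_det {I D : Finset V} {k : ℕ} (c : V → Fin 3) (j : Fin 3)
    (h2 : ∀ S' : Finset V, S' ⊆ D → S'.card ≤ k → ∀ S : Finset V, S.card ≤ k →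
      PC (torso G I (D \ S')) ((I.filter (fun v => c v = j)) \ S))
    (S : Finset V) (hS : S.card ≤ k) : ∀ x ∈ (I.filter (fun v => c v = j)) \ S,
      ∀ y ∈ (I.filter (fun v => c v = j)) \ S,
        Joined G (((I.filter (fun v => c v = j)) ∪ D) \ S) x y := by
  intro x hx y hy
  have h3 := h2 (S ∩ D) Finset.inter_subset_right
    ((Finset.card_le_card Finset.inter_subset_left).trans hS) S hS
  have h4 := torso_joined (X := (I.filter (fun v => c v = j)) \ S)
    (Finset.sdiff_subset.trans (Finset.filter_subset _ _)) h3 hx hy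
  refine h4.mono ?_
  intro z hz
  rcases Finset.mem_union.1 hz with h5 | h5
  · exact Finset.mem_sdiff.2 ⟨Finset.mem_union_left _ (Finset.mem_sdiff.1 h5).1, (Finset.mem_sdiff.1 h5).2⟩
  · obtain ⟨h6, h7⟩ := Finset.mem_sdiff.1 h5
    refine Finset.mem_sdiff.2 ⟨Finset.mem_union_right _ h6, fun h8 => h7 (Finset.mem_inter.2 ⟨h8, h6⟩)⟩

/-- E9, the degree event for the colouring, lifted to the labelling. -/
theorem E9_bad1 (I : Finset V) (k : ℕ) (j : Fin 3) :
    (((Finset.univ.filter (fun c : V → Fin 3 =>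
        ∃ v ∈ I, (nbIn G (I.filter (fun u => c u = j)) v).card < k)).card : ℕ) : ℝ) * 4 ^ (Fintype.card V)
      ≤ (((Finset.univ.filter (fun f : V → Fin 3 × Fin 4 =>
        ∃ v ∈ I, ((nbIn G I v).filter (fun u => f u = (j, 0))).card < k)).card : ℕ) : ℝ) := by
  have h1 : ((Finset.univ.filter (fun c : V → Fin 3 =>
        ∃ v ∈ I, (nbIn G (I.filter (fun u => c u = j)) v).card < k)) ×ˢ
        (Finset.univ : Finset (V → Fin 4))).card
      ≤ (Finset.univ.filter (fun f : V → Fin 3 × Fin 4 =>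
        ∃ v ∈ I, ((nbIn G I v).filter (fun u => f u = (j, 0))).card < k)).card := by
    apply Finset.card_le_card_of_injOn (fun p => fun v => (p.1 v, p.2 v))
    · intro p hp
      have hp1 := (Finset.mem_product.1 (Finset.mem_coe.1 hp)).1
      obtain ⟨v, hv, hlt⟩ := (Finset.mem_filter.1 hp1).2
      refine Finset.mem_coe.2 (Finset.mem_filter.2 ⟨Finset.mem_univ _, v, hv, lt_of_le_of_lt ?_ hlt⟩)
      apply Finset.card_le_card
      intro u hu
      obtain ⟨hu1, hu2⟩ := Finset.mem_filter.1 hu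
      obtain ⟨hu3, hu4⟩ := mem_nbIn.1 hu1
      refine mem_nbIn.2 ⟨Finset.mem_filter.2 ⟨hu3, ?_⟩, hu4⟩
      exact (Prod.mk.inj hu2).1
    · intro p _ q _ hpq
      have h2 : ∀ v, (p.1 v, p.2 v) = (q.1 v, q.2 v) := fun v => congrFun hpq v
      ext v
      · exact congrArg Fin.val (Prod.mk.inj (h2 v)).1
      · exact congrArg Fin.val (Prod.mk.inj (h2 v)).2
  rw [Finset.card_product] at h1
  have h3 : (Finset.univ : Finset (V → Fin 4)).card = 4 ^ (Fintype.card V) := by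
    rw [Finset.card_univ, Fintype.card_fun, Fintype.card_fin]
  rw [h3] at h1
  exact_mod_cast h1

/-- E9, the disconnection event for the colouring. -/
theorem E9_bad2 {I D S' : Finset V} {k : ℕ} (hk : 1 ≤ k) (hID : Disjoint I D) (hS' : S' ⊆ D) (hS'k : S'.card ≤ k)
    (hdeg : ∀ v ∈ I, 2 ^ 15 * k ≤ (nbIn G I v).card)
    (hrel : ∀ S : Finset V, S.card ≤ 2 ^ 15 * k → ∀ x ∈ I \ S, ∀ y ∈ I \ S, Joined G ((I ∪ D) \ S) x y)
    (j : Fin 3) :
    (((Finset.univ.filter (fun c : V → Fin 3 => ∃ S : Finset V, S.card ≤ k ∧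
        ¬ PC (torso G I (D \ S')) ((I.filter (fun v => c v = j)) \ S))).card : ℕ) : ℝ) * 4 ^ (Fintype.card V)
      ≤ 12 ^ (Fintype.card V) * (2 ^ (k + 2) * ((I.card : ℝ) * 12 ^ k * (133 / 144) ^ (2 ^ 15 * k)
          + 2 ^ (I.card / k) * (120 / 121) ^ (7744 * k))) := by
  have h1 := trick (torso G I (D \ S')) (I := I) (k := k) j
  have hab : ((j, 0) : Fin 3 × Fin 4) ≠ (j, 1) := by
    intro h
    have := (Prod.mk.inj h).2
    exact absurd this (by decide)
  have h2 := count_deg (G := G) (k := k) ((j, 0) : Fin 3 × Fin 4) hdeg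
  have h3 := count_disc (torso G I (D \ S')) (I := I) (k := k) (q := 7744 * k) hk (j, 0) (j, 1) hab (by
    intro S hS
    exact torso_pc hID hS' hrel S (by omega))
  have h4 : (Finset.univ.filter (fun f : V → Fin 3 × Fin 4 =>
          ¬ PC (torso G I (D \ S')) (I.filter (fun v => f v = (j, 0) ∨ f v = (j, 1))))).card ≤
      (Finset.univ.filter (fun f : V → Fin 3 × Fin 4 =>
        ∃ v ∈ I, ((nbIn G I v).filter (fun u => f u = (j, 0))).card < k)).card +
      (Finset.univ.filter (fun f : V → Fin 3 × Fin 4 =>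
        (∀ v ∈ I, k ≤ ((nbIn (torso G I (D \ S')) I v).filter (fun u => f u = (j, 0))).card) ∧
          ¬ PC (torso G I (D \ S')) (I.filter (fun v => f v = (j, 0) ∨ f v = (j, 1))))).card := by
    refine le_trans (Finset.card_le_card ?_) (Finset.card_union_le _ _)
    intro f hf
    have hf2 := (Finset.mem_filter.1 hf).2
    by_cases hr : ∃ v ∈ I, ((nbIn G I v).filter (fun u => f u = (j, 0))).card < k
    · exact Finset.mem_union_left _ (Finset.mem_filter.2 ⟨Finset.mem_univ _, hr⟩)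
    · refine Finset.mem_union_right _ (Finset.mem_filter.2 ⟨Finset.mem_univ _, ?_, hf2⟩)
      intro v hv
      push Not at hr
      refine (hr v hv).trans (Finset.card_le_card ?_)
      intro u hu
      obtain ⟨hu1, hu2⟩ := Finset.mem_filter.1 hu
      obtain ⟨hu3, hu4⟩ := mem_nbIn.1 hu1
      refine Finset.mem_filter.2 ⟨mem_nbIn.2 ⟨hu3, ?_⟩, hu2⟩
      exact ⟨hu4.ne, hv, hu3, joined_of_adj (Finset.mem_insert_self _ _)
        (Finset.mem_insert_of_mem (Finset.mem_insert_self _ _)) hu4⟩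
  have h5 : (((Finset.univ.filter (fun f : V → Fin 3 × Fin 4 =>
          ¬ PC (torso G I (D \ S')) (I.filter (fun v => f v = (j, 0) ∨ f v = (j, 1))))).card : ℕ) : ℝ) ≤
      (I.card : ℝ) * 12 ^ (Fintype.card V) * 12 ^ k * (133 / 144 : ℝ) ^ (2 ^ 15 * k) +
      (12 : ℝ) ^ (Fintype.card V) * 2 ^ (I.card / k) * (120 / 121) ^ (7744 * k) := by
    refine le_trans (Nat.cast_le.2 h4) ?_
    push_cast
    exact add_le_add h2 h3
  refine h1.trans ?_
  have h6 : (0 : ℝ) ≤ 2 ^ (k + 2) := by positivity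
  have h7 := mul_le_mul_of_nonneg_left h5 h6
  refine h7.trans (le_of_eq ?_)
  ring

/-- E9: the good partition. -/
theorem good_partition {I D : Finset V} {k : ℕ} (hk : 1 ≤ k) (hID : Disjoint I D)
    (hD : D.card ≤ 2 * (2 ^ 15 * k)) (hI : I.card ≤ k ^ 2) (hdeg : ∀ v ∈ I, 2 ^ 15 * k ≤ (nbIn G I v).card)
    (hrel : ∀ S : Finset V, S.card ≤ 2 ^ 15 * k → ∀ x ∈ I \ S, ∀ y ∈ I \ S, Joined G ((I ∪ D) \ S) x y) :
    ∃ c : V → Fin 3, ∀ j : Fin 3,
      (∀ S : Finset V, S.card ≤ k → ∀ x ∈ (I.filter (fun v => c v = j)) \ S,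
        ∀ y ∈ (I.filter (fun v => c v = j)) \ S, Joined G (((I.filter (fun v => c v = j)) ∪ D) \ S) x y) ∧
      (∀ v ∈ I, k ≤ (nbIn G (I.filter (fun v => c v = j)) v).card) := by
  -- the two kinds of bad colourings
  let B1 : Fin 3 → Finset (V → Fin 3) := fun j => Finset.univ.filter (fun c : V → Fin 3 =>
        ∃ v ∈ I, (nbIn G (I.filter (fun u => c u = j)) v).card < k)
  let B2 : Fin 3 → Finset V → Finset (V → Fin 3) := fun j S' => Finset.univ.filter (fun c : V → Fin 3 =>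
        ∃ S : Finset V, S.card ≤ k ∧ ¬ PC (torso G I (D \ S')) ((I.filter (fun v => c v = j)) \ S))
  let 𝒮 : Finset (Finset V) := D.powerset.filter (fun S => S.card ≤ k)
  let B : Finset (V → Fin 3) := Finset.univ.biUnion (fun j => B1 j ∪ 𝒮.biUnion (fun S' => B2 j S'))
  -- it suffices to find a colouring outside `B`
  suffices hex : ∃ c : V → Fin 3, c ∉ B by
    obtain ⟨c, hc⟩ := hex
    have hc1 : ∀ j, c ∉ B1 j := fun j h => hc (Finset.mem_biUnion.2
      ⟨j, Finset.mem_univ _, Finset.mem_union_left _ h⟩)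
    have hc2 : ∀ j, ∀ S' ∈ 𝒮, c ∉ B2 j S' := fun j S' hS' h => hc (Finset.mem_biUnion.2
      ⟨j, Finset.mem_univ _, Finset.mem_union_right _ (Finset.mem_biUnion.2 ⟨S', hS', h⟩)⟩)
    refine ⟨c, fun j => ⟨?_, ?_⟩⟩
    · intro S hS
      refine E9_det c j ?_ S hS
      intro S' hS' hS'k T hT
      by_contra hcon
      exact hc2 j S' (Finset.mem_filter.2 ⟨Finset.mem_powerset.2 hS', hS'k⟩)
        (Finset.mem_filter.2 ⟨Finset.mem_univ _, T, hT, hcon⟩)
    · intro v hv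
      by_contra hcon
      exact hc1 j (Finset.mem_filter.2 ⟨Finset.mem_univ _, v, hv, not_le.1 hcon⟩)
  by_contra hcon
  push Not at hcon
  have hBu : B = Finset.univ := Finset.eq_univ_iff_forall.2 hcon
  have hcardB : B.card = 3 ^ (Fintype.card V) := by
    rw [hBu, Finset.card_univ, Fintype.card_fun, Fintype.card_fin]
  -- the union bound
  have hun : B.card ≤ ∑ j : Fin 3, ((B1 j).card + ∑ S' ∈ 𝒮, (B2 j S').card) := by
    refine Finset.card_biUnion_le.trans (Finset.sum_le_sum fun j _ => ?_)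
    exact (Finset.card_union_le _ _).trans (Nat.add_le_add_left Finset.card_biUnion_le _)
  have hunR : ((3 : ℝ) ^ (Fintype.card V)) ≤
      ∑ j : Fin 3, (((B1 j).card : ℝ) + ∑ S' ∈ 𝒮, ((B2 j S').card : ℝ)) := by
    have h1 : ((B.card : ℕ) : ℝ) ≤ ((∑ j : Fin 3, ((B1 j).card + ∑ S' ∈ 𝒮, (B2 j S').card) : ℕ) : ℝ) := by
      exact_mod_cast hun
    rw [hcardB] at h1
    push_cast at h1
    exact h1
  set n := Fintype.card V with hn
  set E1 : ℝ := (I.card : ℝ) * 12 ^ k * (133 / 144) ^ (2 ^ 15 * k) with hE1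
  set E2 : ℝ := 2 ^ (I.card / k) * (120 / 121 : ℝ) ^ (7744 * k) with hE2
  have hE1n : 0 ≤ E1 := by positivity
  have hE2n : 0 ≤ E2 := by positivity
  have hb1 : ∀ j, ((B1 j).card : ℝ) * 4 ^ n ≤ 12 ^ n * E1 := by
    intro j
    refine (E9_bad1 I k j).trans ((count_deg (G := G) (k := k) ((j, 0) : Fin 3 × Fin 4) hdeg).trans
      (le_of_eq ?_))
    rw [hE1]
    ring
  have hb2 : ∀ j, ∀ S' ∈ 𝒮, ((B2 j S').card : ℝ) * 4 ^ n ≤ 12 ^ n * (2 ^ (k + 2) * (E1 + E2)) := by
    intro j S' hS'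
    obtain ⟨h1, h2⟩ := Finset.mem_filter.1 hS'
    exact E9_bad2 hk hID (Finset.mem_powerset.1 h1) h2 hdeg hrel j
  have h𝒮 : ((𝒮.card : ℕ) : ℝ) ≤ 2 ^ (18 * k) := count_small hk (by
    refine hD.trans (le_of_eq ?_)
    ring)
  have hj : ∀ j, (((B1 j).card : ℝ) + ∑ S' ∈ 𝒮, ((B2 j S').card : ℝ)) * 4 ^ n ≤
      12 ^ n * (E1 + 2 ^ (18 * k) * (2 ^ (k + 2) * (E1 + E2))) := by
    intro j
    rw [add_mul, Finset.sum_mul, mul_add]
    refine add_le_add (hb1 j) ?_
    refine (Finset.sum_le_sum (hb2 j)).trans ?_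
    rw [Finset.sum_const, nsmul_eq_mul]
    have h1 : (0 : ℝ) ≤ 12 ^ n * (2 ^ (k + 2) * (E1 + E2)) := by positivity
    refine (mul_le_mul_of_nonneg_right h𝒮 h1).trans (le_of_eq ?_)
    ring
  have hnum := numerics (N := I.card) (d := 2 ^ 15 * k) hk hI le_rfl
  have h12 : (12 : ℝ) ^ n = 3 ^ n * 4 ^ n := by
    rw [← mul_pow]
    norm_num
  have hfin : (12 : ℝ) ^ n ≤ 12 ^ n * (3 * (E1 + 2 ^ (18 * k) * (2 ^ (k + 2) * (E1 + E2)))) := by
    calc (12 : ℝ) ^ n = 3 ^ n * 4 ^ n := h12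
      _ ≤ (∑ j : Fin 3, (((B1 j).card : ℝ) + ∑ S' ∈ 𝒮, ((B2 j S').card : ℝ))) * 4 ^ n :=
        mul_le_mul_of_nonneg_right hunR (by positivity)
      _ = ∑ j : Fin 3, (((B1 j).card : ℝ) + ∑ S' ∈ 𝒮, ((B2 j S').card : ℝ)) * 4 ^ n := Finset.sum_mul _ _ _
      _ ≤ ∑ _j : Fin 3, 12 ^ n * (E1 + 2 ^ (18 * k) * (2 ^ (k + 2) * (E1 + E2))) :=
        Finset.sum_le_sum fun j _ => hj j
      _ = 12 ^ n * (3 * (E1 + 2 ^ (18 * k) * (2 ^ (k + 2) * (E1 + E2)))) := by
        rw [Finset.sum_const, Finset.card_univ, Fintype.card_fin, nsmul_eq_mul]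
        push_cast
        ring
  have h12p : (0 : ℝ) < 12 ^ n := by positivity
  have hlt : 3 * (E1 + 2 ^ (18 * k) * (2 ^ (k + 2) * (E1 + E2))) < 1 := by
    refine lt_of_le_of_lt (le_of_eq ?_) hnum
    rw [hE1, hE2]
    ring
  have hlast := mul_lt_mul_of_pos_left hlt h12p
  rw [mul_one] at hlast
  exact absurd hfin (not_le.2 hlast)

end HD
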