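import Pool.Agent.LibHD.C

set_option autoImplicit false
set_option linter.unusedSectionVars false

open scoped Classical

noncomputable section

namespace HD

variable {V : Type*} [Fintype V] [DecidableEq V] {G : SimpleGraph V}

/-! Row F1 -/
/-- number of members of `Q` touching `X` -/
def F1_t (G : SimpleGraph V) (Q : Finset (Finset V)) (X : Finset V) : ℕ :=
  (Q.filter (fun Z => Touch G X Z)).card

/-- number of ordered touching pairs of different members -/
def F1_e (G : SimpleGraph V) (Q : Finset (Finset V)) : ℕ :=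
  ∑ X ∈ Q, (Q.filter (fun Z => Z ≠ X ∧ Touch G X Z)).card

/-- a family of disjoint connected subsets of `A` -/
def F1_fam (G : SimpleGraph V) (A : Finset V) (Q : Finset (Finset V)) : Prop :=
  (∀ X ∈ Q, X ⊆ A ∧ Conn G X) ∧ ∀ X ∈ Q, ∀ Y ∈ Q, X ≠ Y → Disjoint X Y

theorem F1_touch_comm (X Y : Finset V) : Touch G X Y ↔ Touch G Y X := ⟨Touch.symm, Touch.symm⟩

theorem F1_e_insert (Q : Finset (Finset V)) (X : Finset V) (hX : X ∉ Q) :
    F1_e G (insert X Q) = F1_e G Q + 2 * F1_t G Q X := by
  unfold F1_e F1_t
  rw [Finset.sum_insert hX]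
  have h1 : (insert X Q).filter (fun Z => Z ≠ X ∧ Touch G X Z) = Q.filter (fun Z => Touch G X Z) := by
    ext Z
    simp only [Finset.mem_filter, Finset.mem_insert]
    constructor
    · rintro ⟨h | h, h2, h3⟩
      · exact absurd h h2
      · exact ⟨h, h3⟩
    · rintro ⟨h, h3⟩
      exact ⟨Or.inr h, fun h4 => hX (h4 ▸ h), h3⟩
  have h2 : ∀ Y ∈ Q, ((insert X Q).filter (fun Z => Z ≠ Y ∧ Touch G Y Z)).card =
      (Q.filter (fun Z => Z ≠ Y ∧ Touch G Y Z)).card + if Touch G X Y then 1 else 0 := by
    intro Y hY
    have hne : X ≠ Y := fun h => hX (h ▸ hY)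
    rw [Finset.filter_insert]
    by_cases ht : Touch G X Y
    · rw [if_pos ⟨hne, ht.symm⟩, if_pos ht, Finset.card_insert_of_notMem]
      intro h
      exact hX (Finset.mem_filter.1 h).1
    · rw [if_neg (fun h => ht h.2.symm), if_neg ht, add_zero]
  rw [h1, Finset.sum_congr rfl h2, Finset.sum_add_distrib, ← Finset.sum_filter, Finset.sum_const,
    smul_eq_mul, mul_one]
  ring

theorem F1_t_insert (Q : Finset (Finset V)) (X Y : Finset V) (hY : Y ∉ Q) (h : Touch G X Y) :
    F1_t G (insert Y Q) X = F1_t G Q X + 1 := by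
  unfold F1_t
  rw [Finset.filter_insert, if_pos h, Finset.card_insert_of_notMem]
  intro h'
  exact hY (Finset.mem_filter.1 h').1

theorem F1_touch_union (X Y Z : Finset V) : Touch G (X ∪ Y) Z ↔ Touch G X Z ∨ Touch G Y Z := by
  constructor
  · rintro ⟨u, hu, v, hv, h⟩
    rcases Finset.mem_union.1 hu with h1 | h1
    · exact Or.inl ⟨u, h1, v, hv, h⟩
    · exact Or.inr ⟨u, h1, v, hv, h⟩
  · rintro (h | h)
    · exact h.mono Finset.subset_union_left (Finset.Subset.refl _)
    · exact h.mono Finset.subset_union_right (Finset.Subset.refl _)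

theorem F1_t_union (Q : Finset (Finset V)) (X Y : Finset V) :
    F1_t G Q (X ∪ Y) + (Q.filter (fun Z => Touch G X Z ∧ Touch G Y Z)).card =
      F1_t G Q X + F1_t G Q Y := by
  unfold F1_t
  have h := Finset.card_union_add_card_inter (Q.filter (fun Z => Touch G X Z))
    (Q.filter (fun Z => Touch G Y Z))
  rw [← Finset.filter_or, ← Finset.filter_and] at h
  rw [← h]
  congr 2
  ext Z
  simp only [Finset.mem_filter, F1_touch_union]

/-- F1: a dense hub. -/
theorem hub_exists {A : Finset V} {k : ℕ} (hk : 1 ≤ k) (hA : A.Nonempty)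
    (hdeg : ∀ v ∈ A, k ≤ (nbIn G A v).card) :
    ∃ (h ρ : ℕ) (P : Fin h → Finset V), (∀ y, P y ⊆ A ∧ Conn G (P y)) ∧ (∀ x y, x ≠ y → Disjoint (P x) (P y)) ∧
      0 < h ∧ k ≤ ρ ∧ h ≤ ρ ∧
      ∀ y, ρ ≤ 2 * (Finset.univ.filter (fun x => x ≠ y ∧ Touch G (P y) (P x))).card + 2 := by
  -- singletons
  set S : Finset (Finset V) := A.image (fun v => {v}) with hS
  have hSfam : F1_fam G A S := by
    constructor
    · intro X hX
      obtain ⟨v, hv, rfl⟩ := Finset.mem_image.1 hX
      exact ⟨Finset.singleton_subset_iff.2 hv, conn_singleton v⟩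
    · intro X hX Y hY hne
      obtain ⟨v, hv, rfl⟩ := Finset.mem_image.1 hX
      obtain ⟨w, hw, rfl⟩ := Finset.mem_image.1 hY
      rw [Finset.disjoint_singleton]
      intro h
      exact hne (by rw [h])
  have hSne : S.Nonempty := hA.image _
  have hScard : S.card = A.card := Finset.card_image_of_injective _ Finset.singleton_injective
  have hSe : k * A.card ≤ F1_e G S := by
    unfold F1_e
    rw [hS, Finset.sum_image (fun x _ y _ h => Finset.singleton_injective h), mul_comm,
      ← smul_eq_mul]
    apply Finset.card_nsmul_le_sum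
    intro v hv
    refine (hdeg v hv).trans ?_
    have h1 : (nbIn G A v).image (fun u => ({u} : Finset V)) ⊆
        (A.image (fun v => {v})).filter (fun Z => Z ≠ {v} ∧ Touch G {v} Z) := by
      intro Z hZ
      obtain ⟨u, hu, rfl⟩ := Finset.mem_image.1 hZ
      obtain ⟨hu1, hu2⟩ := mem_nbIn.1 hu
      rw [Finset.mem_filter]
      refine ⟨Finset.mem_image_of_mem _ hu1, ?_, ⟨v, by simp, u, by simp, hu2⟩⟩
      intro h
      rw [Finset.singleton_inj] at h
      rw [h] at hu2
      exact G.loopless.irrefl _ hu2
    calc (nbIn G A v).card = ((nbIn G A v).image (fun u => ({u} : Finset V))).card :=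
          (Finset.card_image_of_injective _ Finset.singleton_injective).symm
      _ ≤ _ := Finset.card_le_card h1
  -- a family of maximal density
  obtain ⟨P, hP, hmax⟩ := Finset.exists_max_image
    ((Finset.univ : Finset (Finset (Finset V))).filter (fun Q => Q.Nonempty ∧ F1_fam G A Q))
    (fun Q => (F1_e G Q : ℚ) / (Q.card : ℚ))
    ⟨S, Finset.mem_filter.2 ⟨Finset.mem_univ _, hSne, hSfam⟩⟩
  obtain ⟨_, hPne, hPfam⟩ := Finset.mem_filter.1 hP
  set n := P.card with hn
  set E := F1_e G P with hE
  have hn0 : 0 < n := Finset.card_pos.2 hPne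
  have hcross : ∀ Q : Finset (Finset V), Q.Nonempty → F1_fam G A Q → F1_e G Q * n ≤ E * Q.card := by
    intro Q hQ hQf
    have h1 := hmax Q (Finset.mem_filter.2 ⟨Finset.mem_univ _, hQ, hQf⟩)
    have h2 : (0 : ℚ) < Q.card := by exact_mod_cast Finset.card_pos.2 hQ
    have h3 : (0 : ℚ) < n := by exact_mod_cast hn0
    rw [div_le_div_iff₀ h2 h3] at h1
    exact_mod_cast h1
  have hkn : k * n ≤ E := by
    have h1 := hcross S hSne hSfam
    rw [hScard] at h1
    have hA0 : 0 < A.card := Finset.card_pos.2 hA
    have h2 : k * n * A.card ≤ E * A.card := by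
      calc k * n * A.card = k * A.card * n := by ring
        _ ≤ F1_e G S * n := Nat.mul_le_mul_right _ hSe
        _ ≤ _ := h1
    exact Nat.le_of_mul_le_mul_right h2 hA0
  have hsub : ∀ Q : Finset (Finset V), Q ⊆ P → F1_fam G A Q := fun Q hQ =>
    ⟨fun X hX => hPfam.1 X (hQ hX), fun X hX Y hY => hPfam.2 X (hQ hX) Y (hQ hY)⟩
  -- degrees
  have hd : ∀ X, F1_t G (P.erase X) X = (P.filter (fun Z => Z ≠ X ∧ Touch G X Z)).card := by
    intro X
    unfold F1_t
    congr 1
    ext Z
    simp only [Finset.mem_filter, Finset.mem_erase]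
    tauto
  have hpos : ∀ X ∈ P, 0 < (P.filter (fun Z => Z ≠ X ∧ Touch G X Z)).card := by
    intro X hX
    rw [← hd X]
    have h1 : E = F1_e G (P.erase X) + 2 * F1_t G (P.erase X) X := by
      rw [← F1_e_insert _ _ (Finset.notMem_erase X P), Finset.insert_erase hX]
    rcases Finset.eq_empty_or_nonempty (P.erase X) with h2 | h2
    · rw [h2] at h1
      have : E = 0 := by
        rw [h1]
        simp [F1_e, F1_t]
      have h3 : 0 < k * n := Nat.mul_pos (by omega) hn0
      omega
    · have h3 := hcross _ h2 (hsub _ (Finset.erase_subset _ _))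
      rw [Finset.card_erase_of_mem hX, ← hn] at h3
      by_contra h4
      have h5 : F1_t G (P.erase X) X = 0 := by omega
      rw [h5, mul_zero, add_zero] at h1
      rw [← h1] at h3
      have h6 : 0 < E := by
        have : 0 < k * n := Nat.mul_pos (by omega) hn0
        omega
      have h7 : n ≤ n - 1 := Nat.le_of_mul_le_mul_left h3 h6
      omega
  -- common neighbours
  have hcomm : ∀ X ∈ P, ∀ Y ∈ P, X ≠ Y → Touch G X Y →
      E / n ≤ 2 * (((P.erase X).erase Y).filter (fun Z => Touch G X Z ∧ Touch G Y Z)).card + 2 := by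
    intro X hX Y hY hne ht
    set Q := (P.erase X).erase Y with hQ
    have hYe : Y ∈ P.erase X := Finset.mem_erase.2 ⟨hne.symm, hY⟩
    have hYQ : Y ∉ Q := Finset.notMem_erase _ _
    have e1 : insert Y Q = P.erase X := Finset.insert_erase hYe
    have hXQ : X ∉ P.erase X := Finset.notMem_erase _ _
    have h1 : E = F1_e G Q + 2 * F1_t G Q Y + 2 * (F1_t G Q X + 1) := by
      rw [← F1_t_insert Q X Y hYQ ht, ← F1_e_insert _ _ hYQ, e1, ← F1_e_insert _ _ hXQ,
        Finset.insert_erase hX]
    have hQP : Q ⊆ P := (Finset.erase_subset _ _).trans (Finset.erase_subset _ _)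
    have hcX := (hPfam.1 X hX).2
    have hcY := (hPfam.1 Y hY).2
    obtain ⟨x, hx⟩ := hcX.nonempty
    obtain ⟨y, hy⟩ := hcY.nonempty
    have hdXY := hPfam.2 X hX Y hY hne
    have hUQ : X ∪ Y ∉ Q := by
      intro h
      have h2 : X ≠ X ∪ Y := by
        intro h3
        have : y ∈ X := by rw [h3]; exact Finset.mem_union_right _ hy
        exact Finset.disjoint_left.1 hdXY this hy
      have h3 := hPfam.2 X hX _ (hQP h) h2
      exact Finset.disjoint_left.1 h3 hx (Finset.mem_union_left _ hx)
    have hfam : F1_fam G A (insert (X ∪ Y) Q) := by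
      have hQX : ∀ Z ∈ Q, Disjoint (X ∪ Y) Z := by
        intro Z hZ
        have hZ1 := Finset.mem_erase.1 hZ
        have hZ2 := Finset.mem_erase.1 hZ1.2
        rw [Finset.disjoint_union_left]
        exact ⟨hPfam.2 X hX Z hZ2.2 (Ne.symm hZ2.1), hPfam.2 Y hY Z hZ2.2 (Ne.symm hZ1.1)⟩
      constructor
      · intro Z hZ
        rcases Finset.mem_insert.1 hZ with rfl | hZ
        · exact ⟨Finset.union_subset (hPfam.1 X hX).1 (hPfam.1 Y hY).1, hcX.union_touch hcY ht⟩
        · exact hPfam.1 Z (hQP hZ)
      · intro Z hZ W hW hZW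
        rcases Finset.mem_insert.1 hZ with rfl | hZ
        · rcases Finset.mem_insert.1 hW with rfl | hW
          · exact absurd rfl hZW
          · exact hQX W hW
        · rcases Finset.mem_insert.1 hW with rfl | hW
          · exact (hQX Z hZ).symm
          · exact hPfam.2 Z (hQP hZ) W (hQP hW) hZW
    have h2 := hcross _ (Finset.insert_nonempty _ _) hfam
    have hQc : Q.card + 2 = n := by
      have h3 : Q.card + 1 = (P.erase X).card := by
        rw [← e1, Finset.card_insert_of_notMem hYQ]
      have h4 : (P.erase X).card + 1 = n := by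
        rw [← Finset.card_insert_of_notMem hXQ, Finset.insert_erase hX]
      omega
    rw [Finset.card_insert_of_notMem hUQ, F1_e_insert _ _ hUQ] at h2
    have h3 := F1_t_union (G := G) Q X Y
    set c := (Q.filter (fun Z => Touch G X Z ∧ Touch G Y Z)).card with hc
    set t := F1_t G Q (X ∪ Y)
    have h4 : E = F1_e G Q + 2 * t + (2 * c + 2) := by omega
    have h5 : (F1_e G Q + 2 * t) * n + E ≤ E * n := by
      have h6 : E * (Q.card + 1) + E = E * n := by rw [← hQc]; ring
      omega
    have h7 : E ≤ (2 * c + 2) * n := by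
      have h8 : E * n = (F1_e G Q + 2 * t) * n + (2 * c + 2) * n := by rw [h4]; ring
      omega
    exact Nat.div_le_of_le_mul (by rw [mul_comm]; exact h7)
  -- a member of small degree
  obtain ⟨X, hX, hmin⟩ := Finset.exists_min_image P
    (fun X => (P.filter (fun Z => Z ≠ X ∧ Touch G X Z)).card) hPne
  set N := P.filter (fun Z => Z ≠ X ∧ Touch G X Z) with hN
  have hNE : N.card ≤ E / n := by
    rw [Nat.le_div_iff_mul_le hn0]
    have := Finset.card_nsmul_le_sum P (fun X => (P.filter (fun Z => Z ≠ X ∧ Touch G X Z)).card)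
      N.card hmin
    rw [smul_eq_mul, mul_comm] at this
    exact this
  refine ⟨N.card, E / n, fun i => (N.equivFin.symm i).1, ?_, ?_, hpos X hX, ?_, hNE, ?_⟩
  · intro y
    exact hPfam.1 _ (Finset.mem_filter.1 (N.equivFin.symm y).2).1
  · intro x y hxy
    refine hPfam.2 _ (Finset.mem_filter.1 (N.equivFin.symm x).2).1 _
      (Finset.mem_filter.1 (N.equivFin.symm y).2).1 ?_
    intro h
    exact hxy (N.equivFin.symm.injective (Subtype.ext h))
  · rw [Nat.le_div_iff_mul_le hn0]
    exact hkn
  · intro y
    set Y := (N.equivFin.symm y).1 with hY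
    have hYN := (N.equivFin.symm y).2
    obtain ⟨hYP, hYX, hYt⟩ := Finset.mem_filter.1 hYN
    refine (hcomm X hX Y hYP (Ne.symm hYX) hYt).trans ?_
    have hle : (((P.erase X).erase Y).filter (fun Z => Touch G X Z ∧ Touch G Y Z)).card ≤
        (Finset.univ.filter (fun x => x ≠ y ∧ Touch G Y (N.equivFin.symm x).1)).card := by
      have hsub2 : ((P.erase X).erase Y).filter (fun Z => Touch G X Z ∧ Touch G Y Z) ⊆
          (Finset.univ.filter (fun x => x ≠ y ∧ Touch G Y (N.equivFin.symm x).1)).image
            (fun x => (N.equivFin.symm x).1) := by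
        intro Z hZ
        obtain ⟨hZ1, hZX, hZY⟩ := Finset.mem_filter.1 hZ
        obtain ⟨hZ2, hZ3⟩ := Finset.mem_erase.1 hZ1
        obtain ⟨hZ4, hZ5⟩ := Finset.mem_erase.1 hZ3
        have hZN : Z ∈ N := Finset.mem_filter.2 ⟨hZ5, hZ4, hZX⟩
        refine Finset.mem_image.2 ⟨N.equivFin ⟨Z, hZN⟩, ?_, by simp⟩
        rw [Finset.mem_filter]
        refine ⟨Finset.mem_univ _, ?_, by simpa using hZY⟩
        intro h
        apply hZ2
        rw [hY, ← h]
        simp
      exact (Finset.card_le_card hsub2).trans Finset.card_image_le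
    exact Nat.add_le_add_right (Nat.mul_le_mul_left 2 hle) 2

/-! Row F2 -/
theorem F2_aux (Q : SimpleGraph V) (Z : Finset V) {k : ℕ} {x y : V} (hx : x ∈ Z)
    (h : ∀ S : Finset V, S.card ≤ k → x ∉ S → y ∉ S → Joined Q (Z \ S) x y) (i : ℕ) :
    ∃ B : Finset V, B ⊆ Z ∧ x ∈ B ∧ (∀ z ∈ B, ∃ W ⊆ Z, x ∈ W ∧ z ∈ W ∧ Conn Q W ∧ W.card ≤ i + 1) ∧
      (y ∉ B → 1 + (k + 1) * i ≤ B.card) := by
  induction i with
  | zero =>
    refine ⟨{x}, by simpa using hx, by simp, ?_, by simp⟩
    intro z hz
    rw [Finset.mem_singleton.1 hz]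
    exact ⟨{x}, by simpa using hx, by simp, by simp, conn_singleton x, by simp⟩
  | succ i ih =>
    obtain ⟨B, hBZ, hxB, hB, hcard⟩ := ih
    refine ⟨B ∪ Z.filter (fun z => ∃ u ∈ B, Q.Adj u z), ?_, Finset.mem_union_left _ hxB, ?_, ?_⟩
    · exact Finset.union_subset hBZ (Finset.filter_subset _ _)
    · intro z hz
      rcases Finset.mem_union.1 hz with hz | hz
      · obtain ⟨W, h1, h2, h3, h4, h5⟩ := hB z hz
        exact ⟨W, h1, h2, h3, h4, by omega⟩
      · obtain ⟨hzZ, u, hu, huz⟩ := Finset.mem_filter.1 hz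
        obtain ⟨W, h1, h2, h3, h4, h5⟩ := hB u hu
        refine ⟨W ∪ {z}, Finset.union_subset h1 (by simpa using hzZ), Finset.mem_union_left _ h2,
          Finset.mem_union_right _ (by simp), ?_, ?_⟩
        · exact h4.union_touch (conn_singleton z) ⟨u, h3, z, by simp, huz⟩
        · have := Finset.card_union_le W {z}
          rw [Finset.card_singleton] at this
          omega
    · intro hy
      have hyB : y ∉ B := fun h' => hy (Finset.mem_union_left _ h')
      have h1 := hcard hyB
      have key : k + 1 ≤ ((B ∪ Z.filter (fun z => ∃ u ∈ B, Q.Adj u z)) \ B).card := by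
        by_contra hcon
        have h2 := h ((B ∪ Z.filter (fun z => ∃ u ∈ B, Q.Adj u z)) \ B) (by omega)
          (fun h' => (Finset.mem_sdiff.1 h').2 hxB) (fun h' => hy (Finset.mem_sdiff.1 h').1)
        obtain ⟨u, hu, v, hv, huv⟩ := joined_split (P := B) h2 hxB hyB
        have hu' : u ∈ B := (Finset.mem_inter.1 hu).2
        obtain ⟨hv1, hv2⟩ := Finset.mem_sdiff.1 hv
        obtain ⟨hv3, hv4⟩ := Finset.mem_sdiff.1 hv1
        apply hv4
        exact Finset.mem_sdiff.2 ⟨Finset.mem_union_right _ (Finset.mem_filter.2 ⟨hv3, u, hu', huv⟩), hv2⟩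
      have h3 : ((B ∪ Z.filter (fun z => ∃ u ∈ B, Q.Adj u z)) \ B).card + B.card
          = (B ∪ Z.filter (fun z => ∃ u ∈ B, Q.Adj u z)).card :=
        Finset.card_sdiff_add_card_eq_card Finset.subset_union_left
      rw [← h3, mul_add, mul_one]
      omega

/-- F2: short connected sets. -/
theorem short_path (Q : SimpleGraph V) (Z : Finset V) {k L : ℕ} {x y : V} (hx : x ∈ Z) (hy : y ∈ Z)
    (h : ∀ S : Finset V, S.card ≤ k → x ∉ S → y ∉ S → Joined Q (Z \ S) x y) (hL : Z.card ≤ (k + 1) * L) :
    ∃ W ⊆ Z, x ∈ W ∧ y ∈ W ∧ Conn Q W ∧ W.card ≤ L + 2 := by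
  obtain ⟨B, hBZ, hxB, hB, hcard⟩ := F2_aux Q Z hx h L
  have hyB : y ∈ B := by
    by_contra hy'
    have h1 := hcard hy'
    have h2 := Finset.card_le_card hBZ
    omega
  obtain ⟨W, h1, h2, h3, h4, h5⟩ := hB y hyB
  exact ⟨W, h1, h2, h3, h4, by omega⟩

/-! Row F3 -/
/-- F3: greedy linking. -/
theorem greedy_link {Y : Type} [Fintype Y] [DecidableEq Y] (Q : SimpleGraph Y) (Z I : Finset Y) (hIZ : I ⊆ Z) {k L m : ℕ}
    (h : ∀ S : Finset Y, S.card ≤ 2 * k → ∀ x ∈ I \ S, ∀ y ∈ I \ S, Joined Q (Z \ S) x y)
    (hZ : Z.card ≤ (k + 1) * L) (hm : (L + 2) * m ≤ k)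
    (τ γ : Type) [Fintype τ] (x : τ → Y) (grp : τ → γ) (hτ : Fintype.card τ ≤ m)
    (hx : Function.Injective x) (hxI : ∀ i, x i ∈ I) :
    ∃ W : γ → Finset Y, (∀ i, x i ∈ W (grp i)) ∧ (∀ i, Conn Q (W (grp i))) ∧
      ∀ g g', g ≠ g' → Disjoint (W g) (W g') := by
  have main : ∀ T : Finset τ, ∃ W : γ → Finset Y,
      (∀ i ∈ T, x i ∈ W (grp i) ∧ Conn Q (W (grp i))) ∧
      (∀ g, (∀ i ∈ T, grp i ≠ g) → W g = ∅) ∧
      (∀ i, i ∉ T → ∀ g, x i ∉ W g) ∧
      (∀ g, W g ⊆ Z) ∧
      (∀ g g', g ≠ g' → Disjoint (W g) (W g')) ∧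
      (T.biUnion (fun i => W (grp i))).card ≤ (L + 1) * T.card := by
    intro T
    induction T using Finset.induction_on with
    | empty =>
      exact ⟨fun _ => ∅, by simp, by simp, by simp, by simp, by simp, by simp⟩
    | insert i0 T hi0 ih =>
      obtain ⟨W, ha, hb, hc, hd, he, hf⟩ := ih
      have hx0Z : x i0 ∈ Z := hIZ (hxI i0)
      by_cases hex : ∃ i1 ∈ T, grp i1 = grp i0
      · obtain ⟨i1, hi1, hg1⟩ := hex
        set Un := T.biUnion (fun i => W (grp i)) with hUn
        set S := (Un ∪ ((Finset.univ.filter (fun i => i ∉ T)).image x)) \ {x i0, x i1} with hS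
        have hTm : T.card ≤ m := (Finset.card_le_univ T).trans hτ
        have hScard : S.card ≤ k := by
          calc S.card ≤ (Un ∪ ((Finset.univ.filter (fun i => i ∉ T)).image x)).card :=
                Finset.card_le_card Finset.sdiff_subset
            _ ≤ Un.card + ((Finset.univ.filter (fun i => i ∉ T)).image x).card :=
                Finset.card_union_le _ _
            _ ≤ (L + 1) * T.card + m := by
                apply Nat.add_le_add hf
                exact Finset.card_image_le.trans ((Finset.card_le_univ _).trans hτ)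
            _ ≤ (L + 1) * m + m := Nat.add_le_add_right (Nat.mul_le_mul_left _ hTm) _
            _ = (L + 2) * m := by ring
            _ ≤ k := hm
        have hx0S : x i0 ∉ S := by
          rw [hS]; simp
        have hx1S : x i1 ∉ S := by
          rw [hS]; simp
        have hx1Z : x i1 ∈ Z := hIZ (hxI i1)
        obtain ⟨W0, hW0Z, hx0W, hx1W, hW0c, hW0card⟩ := short_path Q (Z \ S) (k := k) (L := L)
          (x := x i0) (y := x i1) (Finset.mem_sdiff.2 ⟨hx0Z, hx0S⟩) (Finset.mem_sdiff.2 ⟨hx1Z, hx1S⟩)
          (by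
            intro S1 hS1 h0 h1
            rw [sdiff_sdiff_left]
            refine h (S ∪ S1) ?_ _ ?_ _ ?_
            · exact (Finset.card_union_le _ _).trans (by omega)
            · exact Finset.mem_sdiff.2 ⟨hxI i0, by simp [hx0S, h0]⟩
            · exact Finset.mem_sdiff.2 ⟨hxI i1, by simp [hx1S, h1]⟩)
          ((Finset.card_le_card Finset.sdiff_subset).trans hZ)
        have hWg0 : Conn Q (W (grp i0) ∪ W0) := by
          have h1 := ha i1 hi1
          rw [hg1] at h1
          exact h1.2.union_mem hW0c h1.1 hx1W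
        have hx1g0 : x i1 ∈ W (grp i0) := by
          have h1 := (ha i1 hi1).1
          rwa [hg1] at h1
        refine ⟨Function.update W (grp i0) (W (grp i0) ∪ W0), ?_, ?_, ?_, ?_, ?_, ?_⟩
        · intro i hi
          by_cases hg : grp i = grp i0
          · rw [hg, Function.update_self]
            refine ⟨?_, hWg0⟩
            rcases Finset.mem_insert.1 hi with h1 | h1
            · rw [h1]; exact Finset.mem_union_right _ hx0W
            · have h2 := (ha i h1).1
              rw [hg] at h2
              exact Finset.mem_union_left _ h2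
          · rw [Function.update_of_ne hg]
            rcases Finset.mem_insert.1 hi with h1 | h1
            · exact absurd (by rw [h1]) hg
            · exact ha i h1
        · intro g hg
          have h1 : g ≠ grp i0 := fun h2 => hg i0 (Finset.mem_insert_self _ _) h2.symm
          rw [Function.update_of_ne h1]
          exact hb g (fun i hi => hg i (Finset.mem_insert_of_mem hi))
        · intro i hi g
          have hiT : i ∉ T := fun h1 => hi (Finset.mem_insert_of_mem h1)
          have hii0 : i ≠ i0 := fun h1 => hi (h1 ▸ Finset.mem_insert_self _ _)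
          have hii1 : i ≠ i1 := fun h1 => hiT (h1 ▸ hi1)
          by_cases hg : g = grp i0
          · rw [hg, Function.update_self, Finset.mem_union]
            rintro (h1 | h1)
            · exact hc i hiT _ h1
            · have h2 := (Finset.mem_sdiff.1 (hW0Z h1)).2
              apply h2
              rw [hS, Finset.mem_sdiff]
              refine ⟨Finset.mem_union_right _ (Finset.mem_image.2 ⟨i, ?_, rfl⟩), ?_⟩
              · exact Finset.mem_filter.2 ⟨Finset.mem_univ _, hiT⟩
              · rw [Finset.mem_insert, Finset.mem_singleton]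
                rintro (h3 | h3)
                · exact hii0 (hx h3)
                · exact hii1 (hx h3)
          · rw [Function.update_of_ne hg]
            exact hc i hiT g
        · intro g
          by_cases hg : g = grp i0
          · rw [hg, Function.update_self]
            exact Finset.union_subset (hd _) (hW0Z.trans Finset.sdiff_subset)
          · rw [Function.update_of_ne hg]
            exact hd g
        · have key : ∀ g, g ≠ grp i0 → Disjoint (W (grp i0) ∪ W0) (W g) := by
            intro g hg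
            rw [Finset.disjoint_union_left]
            refine ⟨he _ _ (Ne.symm hg), ?_⟩
            rw [Finset.disjoint_left]
            intro z hz hzg
            have h1 : ∃ i ∈ T, grp i = g := by
              by_contra hcon
              push Not at hcon
              have h2 := hb g hcon
              rw [h2] at hzg
              exact absurd hzg (Finset.notMem_empty z)
            obtain ⟨i, hiT, hig⟩ := h1
            have hzUn : z ∈ Un := Finset.mem_biUnion.2 ⟨i, hiT, by rw [hig]; exact hzg⟩
            have h2 := (Finset.mem_sdiff.1 (hW0Z hz)).2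
            have h3 : z = x i0 ∨ z = x i1 := by
              by_contra hcon
              apply h2
              rw [hS, Finset.mem_sdiff]
              refine ⟨Finset.mem_union_left _ hzUn, ?_⟩
              rw [Finset.mem_insert, Finset.mem_singleton]
              exact hcon
            rcases h3 with h3 | h3
            · rw [h3] at hzg
              exact hc i0 hi0 g hzg
            · rw [h3] at hzg
              exact (Finset.disjoint_left.1 (he (grp i0) g (Ne.symm hg)) hx1g0) hzg
          intro g g' hgg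
          by_cases hg : g = grp i0
          · by_cases hg' : g' = grp i0
            · exact absurd (hg.trans hg'.symm) hgg
            · rw [hg, Function.update_self, Function.update_of_ne hg']
              exact key g' hg'
          · by_cases hg' : g' = grp i0
            · rw [hg', Function.update_self, Function.update_of_ne hg]
              exact (key g hg).symm
            · rw [Function.update_of_ne hg, Function.update_of_ne hg']
              exact he g g' hgg
        · have hsub : ((insert i0 T).biUnion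
              (fun i => Function.update W (grp i0) (W (grp i0) ∪ W0) (grp i))) ⊆
              Un ∪ (W0.erase (x i1)) := by
            intro z hz
            obtain ⟨i, hi, hzi⟩ := Finset.mem_biUnion.1 hz
            have hx1Un : x i1 ∈ Un := Finset.mem_biUnion.2 ⟨i1, hi1, (ha i1 hi1).1⟩
            have hW0' : ∀ z ∈ W0, z ∈ Un ∪ (W0.erase (x i1)) := by
              intro z hz
              by_cases h1 : z = x i1
              · rw [h1]; exact Finset.mem_union_left _ hx1Un
              · exact Finset.mem_union_right _ (Finset.mem_erase.2 ⟨h1, hz⟩)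
            by_cases hg : grp i = grp i0
            · simp only [hg, Function.update_self] at hzi
              rcases Finset.mem_union.1 hzi with h1 | h1
              · exact Finset.mem_union_left _
                  (Finset.mem_biUnion.2 ⟨i1, hi1, by rw [hg1]; exact h1⟩)
              · exact hW0' z h1
            · rw [Function.update_of_ne hg] at hzi
              rcases Finset.mem_insert.1 hi with h1 | h1
              · exact absurd (by rw [h1]) hg
              · exact Finset.mem_union_left _ (Finset.mem_biUnion.2 ⟨i, h1, hzi⟩)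
          have hWer : (W0.erase (x i1)).card ≤ L + 1 := by
            rw [Finset.card_erase_of_mem hx1W]; omega
          calc ((insert i0 T).biUnion
              (fun i => Function.update W (grp i0) (W (grp i0) ∪ W0) (grp i))).card
              ≤ (Un ∪ (W0.erase (x i1))).card := Finset.card_le_card hsub
            _ ≤ Un.card + (W0.erase (x i1)).card := Finset.card_union_le _ _
            _ ≤ (L + 1) * T.card + (L + 1) := Nat.add_le_add hf hWer
            _ = (L + 1) * (insert i0 T).card := by
                rw [Finset.card_insert_of_notMem hi0]; ring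
      · push Not at hex
        have hg0 : W (grp i0) = ∅ := hb _ hex
        refine ⟨Function.update W (grp i0) {x i0}, ?_, ?_, ?_, ?_, ?_, ?_⟩
        · intro i hi
          rcases Finset.mem_insert.1 hi with h1 | h1
          · rw [h1, Function.update_self]
            exact ⟨Finset.mem_singleton_self _, conn_singleton _⟩
          · rw [Function.update_of_ne (hex i h1)]
            exact ha i h1
        · intro g hg
          have h1 : g ≠ grp i0 := fun h2 => hg i0 (Finset.mem_insert_self _ _) h2.symm
          rw [Function.update_of_ne h1]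
          exact hb g (fun i hi => hg i (Finset.mem_insert_of_mem hi))
        · intro i hi g
          have hiT : i ∉ T := fun h1 => hi (Finset.mem_insert_of_mem h1)
          have hii0 : i ≠ i0 := fun h1 => hi (h1 ▸ Finset.mem_insert_self _ _)
          by_cases hg : g = grp i0
          · rw [hg, Function.update_self, Finset.mem_singleton]
            exact fun h1 => hii0 (hx h1)
          · rw [Function.update_of_ne hg]
            exact hc i hiT g
        · intro g
          by_cases hg : g = grp i0
          · rw [hg, Function.update_self]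
            exact Finset.singleton_subset_iff.2 hx0Z
          · rw [Function.update_of_ne hg]
            exact hd g
        · intro g g' hgg
          by_cases hg : g = grp i0
          · by_cases hg' : g' = grp i0
            · exact absurd (hg.trans hg'.symm) hgg
            · rw [hg, Function.update_self, Function.update_of_ne hg',
                Finset.disjoint_singleton_left]
              exact hc i0 hi0 g'
          · by_cases hg' : g' = grp i0
            · rw [hg', Function.update_self, Function.update_of_ne hg,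
                Finset.disjoint_singleton_right]
              exact hc i0 hi0 g
            · rw [Function.update_of_ne hg, Function.update_of_ne hg']
              exact he g g' hgg
        · have hsub : ((insert i0 T).biUnion
              (fun i => Function.update W (grp i0) {x i0} (grp i))) ⊆
              T.biUnion (fun i => W (grp i)) ∪ {x i0} := by
            intro z hz
            obtain ⟨i, hi, hzi⟩ := Finset.mem_biUnion.1 hz
            rcases Finset.mem_insert.1 hi with h1 | h1
            · rw [h1, Function.update_self] at hzi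
              exact Finset.mem_union_right _ hzi
            · rw [Function.update_of_ne (hex i h1)] at hzi
              exact Finset.mem_union_left _ (Finset.mem_biUnion.2 ⟨i, h1, hzi⟩)
          calc ((insert i0 T).biUnion
              (fun i => Function.update W (grp i0) {x i0} (grp i))).card
              ≤ (T.biUnion (fun i => W (grp i)) ∪ {x i0}).card := Finset.card_le_card hsub
            _ ≤ (T.biUnion (fun i => W (grp i))).card + ({x i0} : Finset Y).card :=
                Finset.card_union_le _ _
            _ ≤ (L + 1) * T.card + (L + 1) := by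
                rw [Finset.card_singleton]; exact Nat.add_le_add hf (by omega)
            _ = (L + 1) * (insert i0 T).card := by
                rw [Finset.card_insert_of_notMem hi0]; ring
  obtain ⟨W, ha, -, -, -, he, -⟩ := main Finset.univ
  exact ⟨W, fun i => (ha i (Finset.mem_univ _)).1, fun i => (ha i (Finset.mem_univ _)).2, he⟩

/-! Row F4b -/
/-- F4b: linking in the hub, with degrees. -/
theorem hub_link2 {Y : Type} [Fintype Y] [DecidableEq Y] (Q : SimpleGraph Y) {ρ m : ℕ} (hm : 1 ≤ m)
    (hne : 0 < Fintype.card Y) (hcard : Fintype.card Y ≤ ρ)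
    (hdeg : ∀ y, ρ ≤ 2 * (Finset.univ.filter (fun x => x ≠ y ∧ Q.Adj y x)).card + 2) (hρ : 2048 * m ≤ ρ) :
    ∃ IQ : Finset Y, m ≤ IQ.card ∧ (∀ v ∈ IQ, ρ ≤ 4 * (nbIn Q IQ v).card) ∧
      ∀ (τ γ : Type) [Fintype τ] (x : τ → Y) (grp : τ → γ),
      Fintype.card τ ≤ m → Function.Injective x → (∀ i, x i ∈ IQ) →
      ∃ W : γ → Finset Y, (∀ i, x i ∈ W (grp i)) ∧ (∀ i, Conn Q (W (grp i))) ∧
        ∀ g g', g ≠ g' → Disjoint (W g) (W g') := by
  obtain ⟨IQ, hIU, hIne, hbd, hjoin⟩ := zi Q Finset.univ
    (by rw [← Finset.card_pos, Finset.card_univ]; exact hne) (2 * (ρ / 32))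
  have hk1 : 32 * (ρ / 32) ≤ ρ := Nat.mul_div_le ρ 32
  have hk2 : ρ < 32 * (ρ / 32 + 1) := Nat.lt_mul_div_succ ρ (by norm_num)
  set k := ρ / 32 with hk
  have hdegI : ∀ v ∈ IQ, ρ ≤ 4 * (nbIn Q IQ v).card := by
    intro v hv
    have h1 : Finset.univ.filter (fun x => x ≠ v ∧ Q.Adj v x) ⊆ nbIn Q IQ v ∪ bd Q Finset.univ IQ := by
      intro u hu
      obtain ⟨-, -, hadj⟩ := Finset.mem_filter.1 hu
      by_cases hI : u ∈ IQ
      · exact Finset.mem_union_left _ (Finset.mem_filter.2 ⟨hI, hadj⟩)
      · exact Finset.mem_union_right _ (Finset.mem_filter.2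
          ⟨Finset.mem_sdiff.2 ⟨Finset.mem_univ u, hI⟩, v, hv, hadj⟩)
    have h2 := (Finset.card_le_card h1).trans (Finset.card_union_le _ _)
    have h3 := hdeg v
    omega
  obtain ⟨v0, hv0⟩ := hIne
  have hcI : m ≤ IQ.card := by
    have h1 := hdegI v0 hv0
    have h2 : (nbIn Q IQ v0).card ≤ IQ.card := Finset.card_le_card (Finset.filter_subset _ _)
    omega
  refine ⟨IQ, hcI, hdegI, fun τ γ _ x grp hτ hx hxI => ?_⟩
  refine greedy_link Q (IQ ∪ bd Q Finset.univ IQ) IQ Finset.subset_union_left (k := k) (L := 34) (m := m)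
    (fun S hS x hx y hy => hjoin S hS x hx y hy) ?_ ?_ τ γ x grp hτ hx hxI
  · have h1 : (IQ ∪ bd Q Finset.univ IQ).card ≤ Fintype.card Y := Finset.card_le_univ _
    omega
  · omega

/-! Row F4 -/
/-- F4: linking in the hub. -/
theorem hub_link {Y : Type} [Fintype Y] [DecidableEq Y] (Q : SimpleGraph Y) {ρ m : ℕ} (hm : 1 ≤ m)
    (hne : 0 < Fintype.card Y) (hcard : Fintype.card Y ≤ ρ)
    (hdeg : ∀ y, ρ ≤ 2 * (Finset.univ.filter (fun x => x ≠ y ∧ Q.Adj y x)).card + 2) (hρ : 2048 * m ≤ ρ) :
    ∃ IQ : Finset Y, m ≤ IQ.card ∧ ∀ (τ γ : Type) [Fintype τ] (x : τ → Y) (grp : τ → γ),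
      Fintype.card τ ≤ m → Function.Injective x → (∀ i, x i ∈ IQ) →
      ∃ W : γ → Finset Y, (∀ i, x i ∈ W (grp i)) ∧ (∀ i, Conn Q (W (grp i))) ∧
        ∀ g g', g ≠ g' → Disjoint (W g) (W g') := by
  have huniv : (Finset.univ : Finset Y).Nonempty := by
    rw [← Finset.card_pos, Finset.card_univ]
    exact hne
  obtain ⟨I, -, hI1, hI2, hI3⟩ := zi Q Finset.univ huniv (2 * (ρ / 32))
  refine ⟨I, ?_, ?_⟩
  · obtain ⟨v, hv⟩ := hI1
    have h1 : (Finset.univ.filter (fun x => x ≠ v ∧ Q.Adj v x)).card ≤
        (I ∪ bd Q Finset.univ I).card := by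
      refine Finset.card_le_card fun x hx => ?_
      obtain ⟨-, -, hadj⟩ := Finset.mem_filter.1 hx
      by_cases hxI : x ∈ I
      · exact Finset.mem_union_left _ hxI
      · exact Finset.mem_union_right _ (mem_bd.2 ⟨Finset.mem_univ x, hxI, v, hv, hadj⟩)
    have h2 := Finset.card_union_le I (bd Q Finset.univ I)
    have h3 := hdeg v
    omega
  · intro τ γ _ x grp hτ hx hxI
    have hZ : (I ∪ bd Q Finset.univ I).card ≤ (ρ / 32 + 1) * 34 := by
      have h4 : (I ∪ bd Q Finset.univ I).card ≤ Fintype.card Y := Finset.card_le_univ _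
      omega
    exact greedy_link Q (I ∪ bd Q Finset.univ I) I Finset.subset_union_left hI3 hZ
      (by omega : (34 + 2) * m ≤ ρ / 32) τ γ x grp hτ hx hxI

/-! Row F5 -/
/-- F5: lifting connected sets of the hub. -/
theorem lift_conn {h : ℕ} (P : Fin h → Finset V) (hP : ∀ y, Conn G (P y)) (Q : SimpleGraph (Fin h))
    (hQ : ∀ x y, Q.Adj x y → Touch G (P x) (P y)) {W : Finset (Fin h)} (hW : Conn Q W) : Conn G (W.biUnion P) := by
  obtain ⟨x0, hx0⟩ := hW.nonempty
  obtain ⟨v0, hv0⟩ := (hP x0).nonempty
  have hsub : ∀ y ∈ W, P y ⊆ W.biUnion P := fun y hy => Finset.subset_biUnion_of_mem P hy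
  have hin : ∀ y ∈ W, ∀ u ∈ P y, ∀ v ∈ P y, Joined G (W.biUnion P) u v := fun y hy u hu v hv =>
    ((hP y).joined hu hv).mono (hsub y hy)
  let T : Finset (Fin h) := W.filter fun y => ∀ v ∈ P y, Joined G (W.biUnion P) v0 v
  have hT : ∀ y, y ∈ T ↔ y ∈ W ∧ ∀ v ∈ P y, Joined G (W.biUnion P) v0 v := fun y =>
    Finset.mem_filter
  have hall : ∀ y ∈ W, y ∈ T := by
    intro y hy
    by_contra hyT
    obtain ⟨u, hu, v, hv, huv⟩ := hW.pc T (Finset.filter_subset _ _)
      ⟨x0, (hT x0).2 ⟨hx0, fun v hv => hin x0 hx0 v0 hv0 v hv⟩⟩ ⟨y, Finset.mem_sdiff.2 ⟨hy, hyT⟩⟩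
    obtain ⟨hvW, hvT⟩ := Finset.mem_sdiff.1 hv
    obtain ⟨huW, huT⟩ := (hT u).1 hu
    obtain ⟨p, hp, q, hq, hpq⟩ := hQ u v huv
    apply hvT
    rw [hT]
    refine ⟨hvW, fun r hr => ?_⟩
    exact ((huT p hp).trans (joined_of_adj (hsub u huW hp) (hsub v hvW hq) hpq)).trans
      (hin v hvW q hq r hr)
  refine conn_of_joined (hsub x0 hx0 hv0) fun z hz => ?_
  obtain ⟨y, hy, hzy⟩ := Finset.mem_biUnion.1 hz
  exact ((hT y).1 (hall y hy)).2 z hzy

end HD
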