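import Pool.Agent.LibHD.X2

/-!
# LibHD : the two main theorems in terms of induced subgraphs and chromatic numbers
-/

set_option autoImplicit false

open scoped Classical

noncomputable section

namespace HD

/-- A clique model in the sense of `Model` gives one by sets of vertices. -/
theorem model_to_sets {V : Type} [Fintype V] [DecidableEq V] {G : SimpleGraph V} {U : Finset V} {k : ℕ}
    (h : Model G U k) :
    ∃ f : Fin k → Set V, (∀ i, (G.induce (f i)).Connected) ∧ (∀ i j, i ≠ j → Disjoint (f i) (f j)) ∧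
      (∀ i j, i ≠ j → ∃ u ∈ f i, ∃ v ∈ f j, G.Adj u v) := by
  obtain ⟨f, h1, h2⟩ := h
  refine ⟨fun i => (f i : Set V), fun i => (h1 i).2, fun i j hij => ?_, fun i j hij => ?_⟩
  · exact Finset.disjoint_coe.2 (h2 i j hij).1
  · obtain ⟨u, hu, v, hv, huv⟩ := (h2 i j hij).2
    exact ⟨u, Finset.mem_coe.2 hu, v, Finset.mem_coe.2 hv, huv⟩

/-- A colouring of `G[U]` in the sense of `Col` gives colourability of the induced graph. -/
theorem col_to_colorable {V : Type} [Fintype V] [DecidableEq V] {G : SimpleGraph V} {U : Finset V} {c : ℕ}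
    (h : Col G U c) (S : Set V) (hS : ∀ v ∈ S, v ∈ U) : (G.induce S).Colorable c := by
  obtain ⟨φ, h1, h2⟩ := h
  refine ⟨⟨fun v => ⟨φ v.1, h1 _ (hS _ v.2)⟩, ?_⟩⟩
  intro a b hab heq
  have h3 : G.Adj a.1 b.1 := hab
  exact h2 _ (hS _ a.2) _ (hS _ b.2) h3 (congrArg Fin.val heq)

/-- Rounding: a real bound `C * x` with `1 ≤ 2 * x` leaves room for a natural number between `C * x` and
`(C + 2) * x`. -/
theorem round_up {C x : ℝ} (hC : 0 ≤ C) (hx : 1 ≤ 2 * x) : ∃ c : ℕ, C * x ≤ (c : ℝ) ∧ (c : ℝ) ≤ (C + 2) * x := by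
  have hx0 : 0 ≤ x := by linarith
  refine ⟨⌈C * x⌉₊, Nat.le_ceil _, ?_⟩
  have h := Nat.ceil_lt_add_one (mul_nonneg hC hx0)
  nlinarith

theorem one_le_two_mul_log {t y : ℝ} (ht : 1 ≤ t) (hy : 0 ≤ y) : 1 ≤ 2 * (t * Real.log (2 + y)) := by
  have h1 : Real.log 2 ≤ Real.log (2 + y) := Real.log_le_log (by norm_num) (by linarith)
  have h2 : (0.6931471803 : ℝ) < Real.log 2 := Real.log_two_gt_d9
  nlinarith

/-- Small sets of vertices of graphs without a clique minor have small chromatic number. -/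
theorem small_sets : ∃ C : ℝ, 0 < C ∧ ∀ (V : Type) [Fintype V] (G : SimpleGraph V) (t : ℕ), 1 ≤ t →
    (¬ ∃ f : Fin (t + 1) → Set V, (∀ i, (G.induce (f i)).Connected) ∧ (∀ i j, i ≠ j → Disjoint (f i) (f j)) ∧
      (∀ i j, i ≠ j → ∃ u ∈ f i, ∃ v ∈ f j, G.Adj u v)) →
    ∀ w : ℕ, w ^ 2 ≤ t ^ 3 → ∃ c : ℕ, (c : ℝ) ≤ C * t * Real.log (2 + Real.log (1 + (w : ℝ) / t)) ∧
      ∀ S : Set V, S.ncard ≤ w → (G.induce S).Colorable c := by
  obtain ⟨C, hC, h⟩ := small_graphs
  refine ⟨2 * C + 4, by linarith, ?_⟩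
  intro V _ G t ht hno w hw
  have htR : (1 : ℝ) ≤ t := by exact_mod_cast ht
  set L : ℝ := Real.log (1 + (w : ℝ) / t) with hL
  have hL0 : 0 ≤ L := Real.log_nonneg (by have : (0 : ℝ) ≤ (w : ℝ) / t := by positivity
                                          linarith)
  have h1 := one_le_two_mul_log htR hL0
  obtain ⟨c, hc1, hc2⟩ := round_up (C := 2 * C) (by linarith) h1
  refine ⟨c, ?_, ?_⟩
  · have e : (2 * C + 4) * (t : ℝ) * Real.log (2 + L) = (2 * C + 2) * (t * Real.log (2 + L)) +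
        2 * (t * Real.log (2 + L)) := by ring
    rw [e]
    linarith
  · intro S hS
    have hfin : S.Finite := Set.toFinite S
    set U : Finset V := hfin.toFinset with hU
    have hcard : U.card ≤ w := by
      rw [hU, ← Set.ncard_eq_toFinset_card S hfin]
      exact hS
    refine col_to_colorable (h V G U (t + 1) c (by omega) ?_ ?_ ?_) S (fun v hv => by rw [hU]; exact hfin.mem_toFinset.2 hv)
    · calc U.card ^ 2 ≤ w ^ 2 := Nat.pow_le_pow_left hcard 2
        _ ≤ t ^ 3 := hw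
        _ ≤ (t + 1) ^ 3 := Nat.pow_le_pow_left (by omega) 3
    · intro hm
      exact hno (model_to_sets hm)
    · have hcU : (U.card : ℝ) ≤ w := by exact_mod_cast hcard
      have e2 : (U.card : ℝ) / ((t + 1 : ℕ) : ℝ) ≤ (w : ℝ) / t := by
        have hp : (0 : ℝ) < t := by linarith
        push_cast
        exact div_le_div₀ (by positivity) hcU hp (by linarith)
      have e0 : (0 : ℝ) ≤ (U.card : ℝ) / ((t + 1 : ℕ) : ℝ) := by positivity
      have e3 : Real.log (1 + (U.card : ℝ) / ((t + 1 : ℕ) : ℝ)) ≤ L := Real.log_le_log (by linarith) (by linarith)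
      have e4 : 0 ≤ Real.log (1 + (U.card : ℝ) / ((t + 1 : ℕ) : ℝ)) := Real.log_nonneg (by linarith)
      have e5 : Real.log (2 + Real.log (1 + (U.card : ℝ) / ((t + 1 : ℕ) : ℝ))) ≤ Real.log (2 + L) :=
        Real.log_le_log (by linarith) (by linarith)
      have e6 : 0 ≤ Real.log (2 + L) := Real.log_nonneg (by linarith)
      have e7 : C * ((t + 1 : ℕ) : ℝ) * Real.log (2 + Real.log (1 + (U.card : ℝ) / ((t + 1 : ℕ) : ℝ))) ≤
          C * ((t + 1 : ℕ) : ℝ) * Real.log (2 + L) := mul_le_mul_of_nonneg_left e5 (by positivity)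
      have e8 : C * ((t + 1 : ℕ) : ℝ) * Real.log (2 + L) ≤ 2 * C * (t * Real.log (2 + L)) := by
        have e9 : ((t + 1 : ℕ) : ℝ) ≤ 2 * t := by push_cast; linarith
        have e10 : C * ((t + 1 : ℕ) : ℝ) ≤ C * (2 * t) := mul_le_mul_of_nonneg_left e9 hC.le
        calc C * ((t + 1 : ℕ) : ℝ) * Real.log (2 + L) ≤ C * (2 * t) * Real.log (2 + L) :=
              mul_le_mul_of_nonneg_right e10 e6
          _ = _ := by ring
      linarith

/-- Some closed neighbourhood has small chromatic number. -/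
theorem local_sets : ∃ C : ℝ, 0 < C ∧ ∀ (V : Type) [Fintype V] [Nonempty V] (G : SimpleGraph V) (t : ℕ), 1 ≤ t →
    (¬ ∃ f : Fin (t + 1) → Set V, (∀ i, (G.induce (f i)).Connected) ∧ (∀ i j, i ≠ j → Disjoint (f i) (f j)) ∧
      (∀ i j, i ≠ j → ∃ u ∈ f i, ∃ v ∈ f j, G.Adj u v)) →
    ∃ v : V, ∃ c : ℕ, (c : ℝ) ≤ C * t * Real.log (2 + Real.log (1 + Real.log t)) ∧
      (G.induce (insert v (G.neighborSet v))).Colorable c := by
  obtain ⟨C, hC, h⟩ := local_bound
  refine ⟨4 * C + 4, by linarith, ?_⟩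
  intro V _ _ G t ht hno
  have htR : (1 : ℝ) ≤ t := by exact_mod_cast ht
  have hl0 : 0 ≤ Real.log (t : ℝ) := Real.log_nonneg htR
  set L : ℝ := Real.log (1 + Real.log (t : ℝ)) with hL
  have hL0 : 0 ≤ L := Real.log_nonneg (by linarith)
  have h1 := one_le_two_mul_log htR hL0
  obtain ⟨c, hc1, hc2⟩ := round_up (C := 4 * C) (by linarith) h1
  have key : C * ((t + 1 : ℕ) : ℝ) * Real.log (2 + Real.log (1 + Real.log ((t + 1 : ℕ) : ℝ))) ≤ c := by
    have hlog2 : Real.log 2 < 1 := by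
      have := Real.log_two_lt_d9
      linarith
    have e1 : Real.log ((t + 1 : ℕ) : ℝ) ≤ 1 + Real.log t := by
      have e9 : ((t + 1 : ℕ) : ℝ) ≤ 2 * t := by push_cast; linarith
      have : Real.log ((t + 1 : ℕ) : ℝ) ≤ Real.log (2 * t) := Real.log_le_log (by positivity) e9
      rw [Real.log_mul (by norm_num) (by positivity)] at this
      linarith
    have e1' : 0 ≤ Real.log ((t + 1 : ℕ) : ℝ) := Real.log_nonneg (by push_cast; linarith)
    have e2 : Real.log (1 + Real.log ((t + 1 : ℕ) : ℝ)) ≤ 1 + L := by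
      have : Real.log (1 + Real.log ((t + 1 : ℕ) : ℝ)) ≤ Real.log (2 * (1 + Real.log t)) :=
        Real.log_le_log (by linarith) (by linarith)
      rw [Real.log_mul (by norm_num) (by linarith)] at this
      linarith
    have e2' : 0 ≤ Real.log (1 + Real.log ((t + 1 : ℕ) : ℝ)) := Real.log_nonneg (by linarith)
    have e3 : Real.log (2 + Real.log (1 + Real.log ((t + 1 : ℕ) : ℝ))) ≤ 2 * Real.log (2 + L) := by
      have a1 : Real.log (2 + Real.log (1 + Real.log ((t + 1 : ℕ) : ℝ))) ≤ Real.log (2 * (2 + L)) :=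
        Real.log_le_log (by linarith) (by linarith)
      rw [Real.log_mul (by norm_num) (by linarith)] at a1
      have a2 : Real.log 2 ≤ Real.log (2 + L) := Real.log_le_log (by norm_num) (by linarith)
      linarith
    have e9 : ((t + 1 : ℕ) : ℝ) ≤ 2 * t := by push_cast; linarith
    have e6 : 0 ≤ Real.log (2 + L) := Real.log_nonneg (by linarith)
    calc C * ((t + 1 : ℕ) : ℝ) * Real.log (2 + Real.log (1 + Real.log ((t + 1 : ℕ) : ℝ)))
        ≤ C * ((t + 1 : ℕ) : ℝ) * (2 * Real.log (2 + L)) := mul_le_mul_of_nonneg_left e3 (by positivity)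
      _ ≤ C * (2 * t) * (2 * Real.log (2 + L)) :=
          mul_le_mul_of_nonneg_right (mul_le_mul_of_nonneg_left e9 hC.le) (by linarith)
      _ = 4 * C * (t * Real.log (2 + L)) := by ring
      _ ≤ c := hc1
  obtain ⟨v, hv⟩ := h V G (t + 1) c (by omega) (fun hm => hno (model_to_sets hm)) key
  refine ⟨v, c, ?_, ?_⟩
  · have e : (4 * C + 4) * (t : ℝ) * Real.log (2 + L) = (4 * C + 2) * (t * Real.log (2 + L)) +
        2 * (t * Real.log (2 + L)) := by ring
    rw [e]
    linarith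
  · refine col_to_colorable hv _ ?_
    intro u hu
    rcases Set.mem_insert_iff.1 hu with h2 | h2
    · rw [h2]
      exact Finset.mem_insert_self _ _
    · refine Finset.mem_insert_of_mem ?_
      unfold nbr
      refine Finset.mem_filter.2 ⟨Finset.mem_univ _, v, Finset.mem_singleton_self _, ?_⟩
      exact h2

end HD
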