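import Pool.Agent.LibHD.F

set_option autoImplicit false
set_option linter.unusedSectionVars false

open scoped Classical

noncomputable section

namespace HD

variable {V : Type*} [Fintype V] [DecidableEq V] {G : SimpleGraph V}

/-! Row G1 -/
/-- One dominating set, chosen greedily outside a small forbidden set. -/
theorem G1_dom {Y : Type} [Fintype Y] [DecidableEq Y] (Q : SimpleGraph Y) {ρ m s : ℕ}
    (hcard : Fintype.card Y ≤ ρ) (hρ : 2048 * m ≤ ρ) (hm : 1 ≤ m) (IQ : Finset Y) (hIQ : m ≤ IQ.card)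
    (hd : ∀ v ∈ IQ, ρ ≤ 4 * (nbIn Q IQ v).card) (A : Finset Y) (hA : A.card + s ≤ m) :
    ∀ j ≤ s, ∃ T : Finset Y, T ⊆ IQ ∧ Disjoint A T ∧ T.card = j ∧
      ((IQ.filter (fun v => ∀ u ∈ T, ¬ Q.Adj v u)).card : ℝ) ≤ (IQ.card : ℝ) * (4 / 5) ^ j := by
  intro j
  induction j with
  | zero =>
    intro _
    refine ⟨∅, Finset.empty_subset _, Finset.disjoint_empty_right _, rfl, ?_⟩
    rw [pow_zero, mul_one]
    exact_mod_cast Finset.card_filter_le _ _
  | succ j ih =>
    intro hj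
    obtain ⟨T, hT1, hT2, hT3, hT4⟩ := ih (by omega)
    set F := IQ \ (A ∪ T) with hF
    set un := IQ.filter (fun v => ∀ u ∈ T, ¬ Q.Adj v u) with hun
    have hAT : (A ∪ T).card ≤ m := by
      have := Finset.card_union_le A T
      omega
    -- many free neighbours
    have hfree : ∀ v ∈ IQ, ρ ≤ 5 * (nbIn Q F v).card := by
      intro v hv
      have h1 := hd v hv
      have h2 : nbIn Q IQ v ⊆ nbIn Q F v ∪ (A ∪ T) := by
        intro u hu
        rw [mem_nbIn] at hu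
        by_cases hu' : u ∈ A ∪ T
        · exact Finset.mem_union_right _ hu'
        · exact Finset.mem_union_left _ (mem_nbIn.2 ⟨Finset.mem_sdiff.2 ⟨hu.1, hu'⟩, hu.2⟩)
      have h3 := (Finset.card_le_card h2).trans (Finset.card_union_le _ _)
      omega
    have hFne : F.Nonempty := by
      have h1 : IQ.Nonempty := Finset.card_pos.1 (by omega)
      obtain ⟨v, hv⟩ := h1
      have h2 := hfree v hv
      have h3 : 0 < (nbIn Q F v).card := by omega
      obtain ⟨u, hu⟩ := Finset.card_pos.1 h3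
      exact ⟨u, (mem_nbIn.1 hu).1⟩
    have hFle : F.card ≤ ρ := (Finset.card_le_univ F).trans hcard
    -- double counting
    have hdc : ∑ u ∈ F, (un.filter (fun v => Q.Adj v u)).card = ∑ v ∈ un, (nbIn Q F v).card := by
      have := Finset.sum_card_bipartiteAbove_eq_sum_card_bipartiteBelow (s := F) (t := un) (fun u v => Q.Adj v u)
      exact this
    have hex : ∃ u ∈ F, un.card ≤ 5 * (un.filter (fun v => Q.Adj v u)).card := by
      by_contra hcon
      push Not at hcon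
      have h1 : ∑ u ∈ F, 5 * (un.filter (fun v => Q.Adj v u)).card < ∑ u ∈ F, un.card :=
        Finset.sum_lt_sum_of_nonempty hFne hcon
      rw [← Finset.mul_sum, hdc, Finset.sum_const, smul_eq_mul] at h1
      have h2 : un.card * ρ ≤ 5 * ∑ v ∈ un, (nbIn Q F v).card := by
        rw [Finset.mul_sum, ← smul_eq_mul, ← Finset.sum_const]
        exact Finset.sum_le_sum (fun v hv => hfree v (Finset.mem_filter.1 hv).1)
      have h3 : F.card * un.card ≤ un.card * ρ := by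
        rw [mul_comm]
        exact Nat.mul_le_mul_left _ hFle
      omega
    obtain ⟨u, huF, hu⟩ := hex
    have huIQ : u ∈ IQ := (Finset.mem_sdiff.1 huF).1
    have huAT : u ∉ A ∪ T := (Finset.mem_sdiff.1 huF).2
    rw [Finset.mem_union, not_or] at huAT
    refine ⟨insert u T, Finset.insert_subset huIQ hT1, ?_, ?_, ?_⟩
    · rw [Finset.disjoint_insert_right]
      exact ⟨huAT.1, hT2⟩
    · rw [Finset.card_insert_of_notMem huAT.2, hT3]
    · have h1 : IQ.filter (fun v => ∀ w ∈ insert u T, ¬ Q.Adj v w) = un.filter (fun v => ¬ Q.Adj v u) := by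
        ext v
        simp only [hun, Finset.mem_filter, Finset.mem_insert, forall_eq_or_imp]
        tauto
      rw [h1]
      have h2 := Finset.card_filter_add_card_filter_not (s := un) (fun v => Q.Adj v u)
      have h3 : 5 * (un.filter (fun v => ¬ Q.Adj v u)).card ≤ 4 * un.card := by omega
      have h4 : (5 : ℝ) * ((un.filter (fun v => ¬ Q.Adj v u)).card : ℝ) ≤ 4 * (un.card : ℝ) := by
        exact_mod_cast h3
      rw [pow_succ]
      have h5 : (un.card : ℝ) ≤ (IQ.card : ℝ) * (4 / 5) ^ j := hT4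
      linarith

/-- The disjoint dominating sets. -/
theorem G1_family {Y : Type} [Fintype Y] [DecidableEq Y] (Q : SimpleGraph Y) {ρ t s : ℕ} (ht : 1 ≤ t) (hs : 1 ≤ s)
    (hcard : Fintype.card Y ≤ ρ) (hρ : 2048 * (t * s) ≤ ρ) (hlog : (ρ : ℝ) < (5 / 4 : ℝ) ^ s)
    (IQ : Finset Y) (hIQ : t * s ≤ IQ.card) (hd : ∀ v ∈ IQ, ρ ≤ 4 * (nbIn Q IQ v).card) :
    ∀ i ≤ t, ∃ S : ℕ → Finset Y, (∀ j < i, S j ⊆ IQ ∧ (S j).card = s ∧ ∀ v ∈ IQ, ∃ u ∈ S j, Q.Adj v u) ∧
      ∀ j < i, ∀ k < i, j ≠ k → Disjoint (S j) (S k) := by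
  intro i
  induction i with
  | zero =>
    intro _
    exact ⟨fun _ => ∅, fun j hj => absurd hj (Nat.not_lt_zero j), fun j hj => absurd hj (Nat.not_lt_zero j)⟩
  | succ i ih =>
    intro hi
    obtain ⟨S, h1, h2⟩ := ih (by omega)
    have hA : ((Finset.range i).biUnion S).card + s ≤ t * s := by
      have h3 : ((Finset.range i).biUnion S).card ≤ ∑ j ∈ Finset.range i, (S j).card := Finset.card_biUnion_le
      have h4 : ∑ j ∈ Finset.range i, (S j).card = i * s := by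
        rw [Finset.sum_congr rfl (fun j hj => (h1 j (Finset.mem_range.1 hj)).2.1), Finset.sum_const,
          Finset.card_range, smul_eq_mul]
      have h5 : (i + 1) * s ≤ t * s := Nat.mul_le_mul_right s hi
      have h6 : (i + 1) * s = i * s + s := by ring
      omega
    have hm : 1 ≤ t * s := Nat.mul_pos ht hs
    obtain ⟨T, hT1, hT2, hT3, hT4⟩ := G1_dom Q hcard hρ hm IQ hIQ hd _ hA s le_rfl
    have hdomT : ∀ v ∈ IQ, ∃ u ∈ T, Q.Adj v u := by
      intro v hv
      by_contra hcon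
      push Not at hcon
      have h3 : v ∈ IQ.filter (fun v => ∀ u ∈ T, ¬ Q.Adj v u) := Finset.mem_filter.2 ⟨hv, hcon⟩
      have h4 : (1 : ℝ) ≤ ((IQ.filter (fun v => ∀ u ∈ T, ¬ Q.Adj v u)).card : ℝ) := by
        exact_mod_cast Finset.card_pos.2 ⟨v, h3⟩
      have h5 : (IQ.card : ℝ) ≤ ρ := by exact_mod_cast (Finset.card_le_univ IQ).trans hcard
      have h6 : (5 / 4 : ℝ) ^ s * (4 / 5) ^ s = 1 := by
        rw [← mul_pow]
        norm_num
      have h7 : (0 : ℝ) < (4 / 5) ^ s := by positivity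
      have h8 : (IQ.card : ℝ) * (4 / 5) ^ s < 1 := by
        rw [← h6]
        exact mul_lt_mul_of_pos_right (lt_of_le_of_lt h5 hlog) h7
      linarith
    refine ⟨fun j => if j = i then T else S j, ?_, ?_⟩
    · intro j hj
      by_cases hji : j = i
      · simp only [hji, if_true]
        exact ⟨hT1, hT3, hdomT⟩
      · simp only [hji, if_false]
        exact h1 j (by omega)
    · intro j hj k hk hjk
      have hTd : ∀ l < i, Disjoint (S l) T := by
        intro l hl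
        exact Finset.disjoint_of_subset_left (Finset.subset_biUnion_of_mem S (Finset.mem_range.2 hl)) hT2
      by_cases hji : j = i
      · have hki : k ≠ i := fun h => hjk (hji.trans h.symm)
        simp only [hji, if_true, hki, if_false]
        exact (hTd k (by omega)).symm
      · by_cases hki : k = i
        · simp only [hki, if_true, hji, if_false]
          exact hTd j (by omega)
        · simp only [hki, hji, if_false]
          exact h2 j (by omega) k (by omega) hjk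

/-- G1: a dense graph has a large clique model. -/
theorem dense_model {Y : Type} [Fintype Y] [DecidableEq Y] (Q : SimpleGraph Y) {ρ t s : ℕ} (ht : 1 ≤ t) (hs : 1 ≤ s)
    (hne : 0 < Fintype.card Y) (hcard : Fintype.card Y ≤ ρ)
    (hdeg : ∀ y, ρ ≤ 2 * (Finset.univ.filter (fun x => x ≠ y ∧ Q.Adj y x)).card + 2)
    (hρ : 2048 * (t * s) ≤ ρ) (hlog : (ρ : ℝ) < (5 / 4 : ℝ) ^ s) : Model Q Finset.univ t := by
  have hm : 1 ≤ t * s := Nat.mul_pos ht hs
  obtain ⟨IQ, hIQ, hd, hlink⟩ := hub_link2 Q hm hne hcard hdeg hρ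
  obtain ⟨S, hS1, hS2⟩ := G1_family Q ht hs hcard hρ hlog IQ hIQ hd t le_rfl
  have hcs : ∀ i : Fin t, (S i).card = s := fun i => (hS1 i i.2).2.1
  obtain ⟨W, hW1, hW2, hW3⟩ := hlink (Fin t × Fin s) (Fin t)
    (fun p => (((Finset.equivFinOfCardEq (hcs p.1)).symm p.2 : {x // x ∈ S p.1}) : Y)) Prod.fst
    (by simp) (by
      rintro ⟨i, k⟩ ⟨j, l⟩ h
      simp only at h
      have hi : (((Finset.equivFinOfCardEq (hcs i)).symm k : {x // x ∈ S i}) : Y) ∈ S i := Subtype.prop _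
      have hj : (((Finset.equivFinOfCardEq (hcs j)).symm l : {x // x ∈ S j}) : Y) ∈ S j := Subtype.prop _
      have hij : i = j := by
        by_contra hne'
        have h3 := hS2 i i.2 j j.2 (fun h => hne' (Fin.ext h))
        exact Finset.disjoint_left.1 h3 hi (h ▸ hj)
      subst hij
      have h4 := (Finset.equivFinOfCardEq (hcs i)).symm.injective (Subtype.ext h)
      rw [h4])
    (fun p => (hS1 p.1 p.1.2).1 (Subtype.prop _))
  have hSW : ∀ i : Fin t, S i ⊆ W i := by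
    intro i y hy
    have h1 := hW1 (i, (Finset.equivFinOfCardEq (hcs i)) ⟨y, hy⟩)
    simpa using h1
  refine ⟨W, ?_, ?_⟩
  · intro i
    exact ⟨Finset.subset_univ _, hW2 (i, ⟨0, hs⟩)⟩
  · intro i j hij
    refine ⟨hW3 i j hij, ?_⟩
    have h1 : (S j).Nonempty := Finset.card_pos.1 (by rw [hcs j]; exact hs)
    obtain ⟨v, hv⟩ := h1
    obtain ⟨u, hu, huv⟩ := (hS1 i i.2).2.2 v ((hS1 j j.2).1 hv)
    exact ⟨u, hSW i hu, v, hSW j hv, huv.symm⟩

/-! Row G2 -/
theorem G2_num {t : ℕ} (ht : 1 ≤ t) {ρ : ℕ} (hρ : 2 ^ 20 * t * (1 + Real.log t) < (ρ : ℝ)) :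
    ∃ s : ℕ, 1 ≤ s ∧ (ρ : ℝ) < (5 / 4 : ℝ) ^ s ∧ 2048 * (t * s) ≤ ρ := by
  have htR : (1 : ℝ) ≤ t := by exact_mod_cast ht
  have hl : 0 ≤ Real.log t := Real.log_nonneg htR
  set ℓ := Real.log t with hℓ
  set ρ0 : ℝ := 2 ^ 20 * t * (1 + ℓ) with hρ0
  have hρ0pos : 0 < ρ0 := by positivity
  have hρpos : (0 : ℝ) < ρ := hρ0pos.trans hρ
  set x : ℝ := ρ / ρ0 with hx
  have hx1 : 1 ≤ x := by rw [hx, le_div_iff₀ hρ0pos]; linarith
  have hρx : (ρ : ℝ) = x * ρ0 := by rw [hx]; field_simp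
  have hlog54 : 1 / 5 ≤ Real.log (5 / 4) := by
    have := Real.one_sub_inv_le_log_of_pos (show (0 : ℝ) < 5 / 4 by norm_num)
    norm_num at this ⊢
    linarith
  have hlρ0 : Real.log ρ0 ≤ 14 + 2 * ℓ := by
    rw [hρ0, Real.log_mul (by positivity) (by positivity), Real.log_mul (by norm_num) (by positivity),
      Real.log_pow]
    have h1 := Real.log_two_lt_d9
    have h2 : Real.log (1 + ℓ) ≤ 1 + ℓ - 1 := Real.log_le_sub_one_of_pos (by positivity)
    push_cast
    rw [← hℓ]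
    linarith
  have hlρ : Real.log ρ ≤ 13 + 2 * ℓ + x := by
    rw [hρx, Real.log_mul (by positivity) hρ0pos.ne']
    have h2 : Real.log x ≤ x - 1 := Real.log_le_sub_one_of_pos (by positivity)
    linarith
  have hρ1 : (1 : ℝ) ≤ ρ := by
    have : 0 < ρ := by exact_mod_cast hρpos
    exact_mod_cast this
  have hlρ0' : 0 ≤ Real.log ρ := Real.log_nonneg hρ1
  have hl54 : 0 < Real.log (5 / 4) := by linarith
  refine ⟨⌊Real.log ρ / Real.log (5 / 4)⌋₊ + 1, by omega, ?_, ?_⟩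
  · have h1 := Nat.lt_floor_add_one (Real.log ρ / Real.log (5 / 4))
    rw [div_lt_iff₀ hl54] at h1
    rw [← Real.log_lt_log_iff hρpos (by positivity), Real.log_pow]
    push_cast
    exact h1
  · have h1 : ((⌊Real.log ρ / Real.log (5 / 4)⌋₊ : ℕ) : ℝ) ≤ Real.log ρ / Real.log (5 / 4) :=
      Nat.floor_le (by positivity)
    have h2 : Real.log ρ / Real.log (5 / 4) ≤ 5 * Real.log ρ := by
      rw [div_le_iff₀ hl54]
      nlinarith
    have h3 : ((⌊Real.log ρ / Real.log (5 / 4)⌋₊ + 1 : ℕ) : ℝ) ≤ 66 + 10 * ℓ + 5 * x := by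
      push_cast
      linarith
    have h4 : (2048 * ((t : ℝ) * ((⌊Real.log ρ / Real.log (5 / 4)⌋₊ + 1 : ℕ) : ℝ))) ≤ ρ := by
      have h5 : (t : ℝ) * ((⌊Real.log ρ / Real.log (5 / 4)⌋₊ + 1 : ℕ) : ℝ) ≤ t * (66 + 10 * ℓ + 5 * x) :=
        mul_le_mul_of_nonneg_left h3 (by positivity)
      have h6 : 2048 * (66 + 10 * ℓ + 5 * x) ≤ x * (2 ^ 20 * (1 + ℓ)) := by
        have h7 : 0 ≤ (x - 1) * ℓ := mul_nonneg (by linarith) hl
        nlinarith
      have h8 : (t : ℝ) * (2048 * (66 + 10 * ℓ + 5 * x)) ≤ t * (x * (2 ^ 20 * (1 + ℓ))) :=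
        mul_le_mul_of_nonneg_left h6 (by positivity)
      have h9 : (t : ℝ) * (x * (2 ^ 20 * (1 + ℓ))) = ρ := by
        rw [hρx, hρ0]
        ring
      linarith
    exact_mod_cast h4

/-- G2: graphs without a K_t model have a vertex of degree O(t log t). -/
theorem low_degree {U : Finset V} {t : ℕ} (ht : 1 ≤ t) (hU : U.Nonempty) (hmod : ¬ Model G U t) :
    ∃ v ∈ U, ((nbIn G U v).card : ℝ) ≤ 2 ^ 20 * t * (1 + Real.log t) := by
  by_contra hcon
  push Not at hcon
  set ρ0 : ℝ := 2 ^ 20 * t * (1 + Real.log t) with hρ0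
  have hdeg : ∀ v ∈ U, ⌊ρ0⌋₊ + 1 ≤ (nbIn G U v).card := by
    intro v hv
    have h1 := hcon v hv
    have h2 : 0 ≤ ρ0 := by
      have htR : (1 : ℝ) ≤ t := by exact_mod_cast ht
      have := Real.log_nonneg htR
      positivity
    exact Nat.succ_le_of_lt ((Nat.floor_lt h2).2 h1)
  obtain ⟨h, ρ, P, hP, hPd, hh, hkρ, hhρ, hd⟩ := hub_exists (G := G) (by omega) hU hdeg
  have hρlt : ρ0 < (ρ : ℝ) := by
    have h1 := Nat.lt_floor_add_one ρ0
    have h2 : ((⌊ρ0⌋₊ + 1 : ℕ) : ℝ) ≤ ρ := by exact_mod_cast hkρ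
    push_cast at h2
    linarith
  obtain ⟨s, hs, hs1, hs2⟩ := G2_num ht hρlt
  obtain ⟨Q, hQ'⟩ : ∃ Q : SimpleGraph (Fin h), ∀ x y, Q.Adj x y ↔ x ≠ y ∧ Touch G (P x) (P y) :=
    ⟨{ Adj := fun x y => x ≠ y ∧ Touch G (P x) (P y)
       symm := ⟨fun x y hxy => ⟨hxy.1.symm, hxy.2.symm⟩⟩
       loopless := ⟨fun x hx => hx.1 rfl⟩ }, fun x y => Iff.rfl⟩
  have hQ : ∀ x y, Q.Adj x y → Touch G (P x) (P y) := fun x y hxy => ((hQ' x y).1 hxy).2
  have hmodel : Model Q Finset.univ t := by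
    refine dense_model Q (ρ := ρ) ht hs (by rw [Fintype.card_fin]; exact hh)
      (by rw [Fintype.card_fin]; exact hhρ) (fun y => ?_) hs2 hs1
    have h1 := hd y
    refine h1.trans (Nat.add_le_add_right (Nat.mul_le_mul_left 2 (Finset.card_le_card fun x hx => ?_)) 2)
    obtain ⟨-, h3, h4⟩ := Finset.mem_filter.1 hx
    exact Finset.mem_filter.2 ⟨Finset.mem_univ x, h3, (hQ' y x).2 ⟨h3.symm, h4⟩⟩
  obtain ⟨f, hf1, hf2⟩ := hmodel
  apply hmod
  refine ⟨fun i => (f i).biUnion P, fun i => ⟨?_, ?_⟩, fun i j hij => ⟨?_, ?_⟩⟩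
  · exact Finset.biUnion_subset.2 fun x _ => (hP x).1
  · exact lift_conn P (fun y => (hP y).2) Q hQ (hf1 i).2
  · rw [Finset.disjoint_left]
    intro u hu hu'
    obtain ⟨x, hx, hux⟩ := Finset.mem_biUnion.1 hu
    obtain ⟨y, hy, huy⟩ := Finset.mem_biUnion.1 hu'
    have hxy : x ≠ y := fun hxy => Finset.disjoint_left.1 (hf2 i j hij).1 hx (hxy ▸ hy)
    exact Finset.disjoint_left.1 (hPd x y hxy) hux huy
  · obtain ⟨x, hx, y, hy, hxy⟩ := (hf2 i j hij).2
    exact (hQ x y hxy).mono (Finset.subset_biUnion_of_mem P hx) (Finset.subset_biUnion_of_mem P hy)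

end HD
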