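import Pool.Agent.LibHD.Basic

set_option autoImplicit false
set_option linter.unusedSectionVars false

open scoped Classical

noncomputable section

namespace HD

variable {V : Type*} [Fintype V] [DecidableEq V] {G : SimpleGraph V}

/-! Row M1 -/
theorem M1_conn_mono {H H' : SimpleGraph V} (hle : H' ≤ H) {Y : Finset V} (h : Conn H' Y) : Conn H Y := by
  apply PC.conn _ h.nonempty
  intro P hP h1 h2
  obtain ⟨u, hu, v, hv, huv⟩ := h.pc P hP h1 h2
  exact ⟨u, hu, v, hv, hle huv⟩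

theorem M1_joined_mono {H H' : SimpleGraph V} (hle : H' ≤ H) {S : Finset V} {a b : V}
    (h : Joined H' S a b) : Joined H S a b := by
  obtain ⟨Y, h1, h2, h3, h4⟩ := h
  exact ⟨Y, h1, h2, h3, M1_conn_mono hle h4⟩

/-- the component of `a` in `H'[Y]`: either it contains `b` or an edge of `H` not in `H'` leaves it. -/
theorem M1_leave {H H' : SimpleGraph V} {Y : Finset V} (hY : Conn H Y) {a b : V} (ha : a ∈ Y)
    (hb : b ∈ Y) (hab : ¬ Joined H' Y a b) :
    ∃ u v, u ∈ Y ∧ v ∈ Y ∧ H.Adj u v ∧ ¬ H'.Adj u v ∧ Joined H' Y a u := by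
  have h1 : ((comp H' Y a)).Nonempty := ⟨a, mem_comp_self ha⟩
  have h2 : (Y \ comp H' Y a).Nonempty :=
    ⟨b, Finset.mem_sdiff.2 ⟨hb, fun h => hab (mem_comp.1 h)⟩⟩
  obtain ⟨u, hu, v, hv, huv⟩ := hY.pc _ (comp_subset Y a) h1 h2
  refine ⟨u, v, comp_subset Y a hu, (Finset.mem_sdiff.1 hv).1, huv, ?_, mem_comp.1 hu⟩
  intro h3
  exact (Finset.mem_sdiff.1 hv).2 (comp_closed hu (Finset.mem_sdiff.1 hv).1 h3)

/-- trimming a connected set -/
theorem M1_trim {H : SimpleGraph V} {Y P : Finset V} (hY : Conn H Y) {a p : V} (ha : a ∈ Y)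
    (hYP : Y ∩ P = {p}) :
    ∃ Z : Finset V, Z ⊆ Y ∧ Conn H Z ∧ a ∈ Z ∧ p ∈ Z ∧
      ∀ z ∈ Z, z = p ∨ (a ∉ P ∧ Joined H (Finset.univ \ P) a z) := by
  have hp : p ∈ Y ∩ P := by rw [hYP]; exact Finset.mem_singleton_self p
  have hpY := (Finset.mem_inter.1 hp).1
  by_cases hap : a = p
  · refine ⟨{p}, ?_, conn_singleton p, by simp [hap], by simp, ?_⟩
    · simpa using hpY
    · intro z hz
      exact Or.inl (Finset.mem_singleton.1 hz)
  have haS : a ∈ Y \ {p} := by simp [ha, hap]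
  have hsub : Y \ {p} ⊆ Finset.univ \ P := by
    intro z hz
    rw [Finset.mem_sdiff, Finset.mem_singleton] at hz
    rw [Finset.mem_sdiff]
    refine ⟨Finset.mem_univ _, fun hzP => hz.2 ?_⟩
    have h1 : z ∈ Y ∩ P := Finset.mem_inter.2 ⟨hz.1, hzP⟩
    rw [hYP] at h1
    exact Finset.mem_singleton.1 h1
  have hCsub : comp H (Y \ {p}) a ⊆ Y \ {p} := comp_subset _ _
  have htouch : Touch H (comp H (Y \ {p}) a) {p} := by
    have h1 : (comp H (Y \ {p}) a).Nonempty := ⟨a, mem_comp_self haS⟩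
    have h2 : (Y \ comp H (Y \ {p}) a).Nonempty := by
      refine ⟨p, Finset.mem_sdiff.2 ⟨hpY, fun h => ?_⟩⟩
      have := hCsub h
      simp at this
    obtain ⟨u, hu, v, hv, huv⟩ := hY.pc _ (hCsub.trans Finset.sdiff_subset) h1 h2
    refine ⟨u, hu, v, ?_, huv⟩
    by_contra hvp
    have h3 : v ∈ Y \ {p} := Finset.mem_sdiff.2 ⟨(Finset.mem_sdiff.1 hv).1, hvp⟩
    exact (Finset.mem_sdiff.1 hv).2 (comp_closed hu h3 huv)
  refine ⟨comp H (Y \ {p}) a ∪ {p}, ?_, (conn_comp haS).union_touch (conn_singleton p) htouch,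
    Finset.mem_union_left _ (mem_comp_self haS), by simp, ?_⟩
  · apply Finset.union_subset (hCsub.trans Finset.sdiff_subset)
    simpa using hpY
  · intro z hz
    rcases Finset.mem_union.1 hz with h1 | h1
    · right
      have h2 := hsub haS
      exact ⟨(Finset.mem_sdiff.1 h2).2, (mem_comp.1 h1).mono hsub⟩
    · exact Or.inl (Finset.mem_singleton.1 h1)

/-- `m` disjoint sets meeting an `m`-set: each element is hit, exactly once. -/
theorem M1_hits {m : ℕ} {F : Fin m → Finset V} {P : Finset V} (hP : P.card = m)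
    (h1 : ∀ i, (F i ∩ P).Nonempty) (h2 : ∀ i j, i ≠ j → Disjoint (F i) (F j)) :
    ∀ p ∈ P, ∃ i, F i ∩ P = {p} := by
  choose f hf using h1
  have hf1 : ∀ i, f i ∈ F i := fun i => (Finset.mem_inter.1 (hf i)).1
  have hf2 : ∀ i, f i ∈ P := fun i => (Finset.mem_inter.1 (hf i)).2
  have hinj : Function.Injective f := by
    intro i j hij
    by_contra hne
    exact Finset.disjoint_left.1 (h2 i j hne) (hf1 i) (hij ▸ hf1 j)
  have himg : Finset.univ.image f = P := by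
    apply Finset.eq_of_subset_of_card_le
    · intro z hz
      obtain ⟨i, _, rfl⟩ := Finset.mem_image.1 hz
      exact hf2 i
    · rw [Finset.card_image_of_injective _ hinj, Finset.card_univ, Fintype.card_fin, hP]
  intro p hp
  have hp' := hp
  rw [← himg] at hp'
  obtain ⟨i, _, hi⟩ := Finset.mem_image.1 hp'
  refine ⟨i, ?_⟩
  ext z
  rw [Finset.mem_singleton, Finset.mem_inter]
  constructor
  · rintro ⟨hz1, hz2⟩
    rw [← himg] at hz2
    obtain ⟨j, _, hj⟩ := Finset.mem_image.1 hz2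
    have hji : j = i := by
      by_contra hne
      exact Finset.disjoint_left.1 (h2 j i hne) (hf1 j) (hj ▸ hz1)
    rw [← hj, hji, hi]
  · rintro rfl
    exact ⟨hi ▸ hf1 i, hp⟩

/-- the linkage from `A` to `P`, indexed by `P` and trimmed. -/
theorem M1_linked {H : SimpleGraph V} {m : ℕ} {A P : Finset V} (hP : P.card = m)
    (h : ∃ F : Fin m → Finset V, (∀ i, Conn H (F i) ∧ (F i ∩ A).Nonempty ∧ (F i ∩ P).Nonempty) ∧
      ∀ i j, i ≠ j → Disjoint (F i) (F j)) :
    ∃ Z : V → Finset V, (∀ p ∈ P, Conn H (Z p) ∧ (Z p ∩ A).Nonempty ∧ p ∈ Z p ∧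
      ∀ z ∈ Z p, z = p ∨ ∃ a ∈ A \ P, Joined H (Finset.univ \ P) a z) ∧
      ∀ p ∈ P, ∀ p' ∈ P, p ≠ p' → Disjoint (Z p) (Z p') := by
  obtain ⟨F, hF1, hF2⟩ := h
  have hhit := M1_hits hP (fun i => (hF1 i).2.2) hF2
  have key : ∀ p : V, ∃ Z : Finset V, p ∈ P → Conn H Z ∧ (Z ∩ A).Nonempty ∧ p ∈ Z ∧
      (∀ z ∈ Z, z = p ∨ ∃ a ∈ A \ P, Joined H (Finset.univ \ P) a z) ∧
      ∃ i, F i ∩ P = {p} ∧ Z ⊆ F i := by
    intro p
    by_cases hp : p ∈ P
    · obtain ⟨i, hi⟩ := hhit p hp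
      obtain ⟨hc, ⟨a, ha⟩, _⟩ := hF1 i
      rw [Finset.mem_inter] at ha
      obtain ⟨Z, hZ1, hZ2, hZ3, hZ4, hZ5⟩ := M1_trim hc ha.1 hi
      refine ⟨Z, fun _ => ⟨hZ2, ⟨a, Finset.mem_inter.2 ⟨hZ3, ha.2⟩⟩, hZ4, ?_, i, hi, hZ1⟩⟩
      intro z hz
      rcases hZ5 z hz with h1 | ⟨h1, h2⟩
      · exact Or.inl h1
      · exact Or.inr ⟨a, Finset.mem_sdiff.2 ⟨ha.2, h1⟩, h2⟩
    · exact ⟨∅, fun h => absurd h hp⟩
  choose Z hZ using key
  refine ⟨Z, fun p hp => ⟨(hZ p hp).1, (hZ p hp).2.1, (hZ p hp).2.2.1, (hZ p hp).2.2.2.1⟩, ?_⟩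
  intro p hp p' hp' hne
  obtain ⟨i, hi, hi'⟩ := (hZ p hp).2.2.2.2
  obtain ⟨j, hj, hj'⟩ := (hZ p' hp').2.2.2.2
  have hij : i ≠ j := by
    rintro rfl
    rw [hi] at hj
    exact hne (Finset.singleton_injective hj)
  exact (hF2 i j hij).mono hi' hj'

/-- the claim of the proof: `(A, S ∪ {x})` is good in `H'`. -/
theorem M1_claim {H H' : SimpleGraph V} {m : ℕ} {A B S : Finset V} {x y : V}
    (hdiff : ∀ u v, H.Adj u v → ¬ H'.Adj u v → (u = x ∧ v = y) ∨ (u = y ∧ v = x))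
    (h : ∀ S : Finset V, S.card < m → ∃ a ∈ A \ S, ∃ b ∈ B \ S, Joined H (Finset.univ \ S) a b)
    (hS : ∀ a ∈ A \ S, ∀ b ∈ B \ S, ¬ Joined H' (Finset.univ \ S) a b)
    (hy : ∃ b ∈ B \ S, Joined H' (Finset.univ \ S) y b) :
    ∀ T : Finset V, T.card < m → ∃ a ∈ A \ T, ∃ b ∈ (insert x S) \ T,
      Joined H' (Finset.univ \ T) a b := by
  intro T hT
  obtain ⟨a, ha, b, hb, Y, hY1, hY2, hY3, hY4⟩ := h T hT
  by_cases hR : (comp H' Y a ∩ insert x S).Nonempty
  · obtain ⟨p, hp⟩ := hR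
    rw [Finset.mem_inter] at hp
    have h1 : Joined H' (Finset.univ \ T) a p := (mem_comp.1 hp.1).mono hY1
    have h2 := h1.mem_right
    exact ⟨a, ha, p, Finset.mem_sdiff.2 ⟨hp.2, (Finset.mem_sdiff.1 h2).2⟩, h1⟩
  · exfalso
    have hRsub : comp H' Y a ⊆ Finset.univ \ S := by
      intro z hz
      refine Finset.mem_sdiff.2 ⟨Finset.mem_univ _, fun hzS => hR ?_⟩
      exact ⟨z, Finset.mem_inter.2 ⟨hz, Finset.mem_insert_of_mem hzS⟩⟩
    have hconn : Conn H' (comp H' Y a) := conn_comp hY2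
    have haS : a ∈ A \ S := by
      have := hRsub (mem_comp_self hY2)
      exact Finset.mem_sdiff.2 ⟨(Finset.mem_sdiff.1 ha).1, (Finset.mem_sdiff.1 this).2⟩
    have hjoin : ∀ z ∈ comp H' Y a, Joined H' (Finset.univ \ S) a z := by
      intro z hz
      exact ⟨_, hRsub, mem_comp_self hY2, hz, hconn⟩
    have hbR : ¬ Joined H' Y a b := by
      intro hj
      have hb' : b ∈ comp H' Y a := mem_comp.2 hj
      have hbS : b ∈ B \ S :=
        Finset.mem_sdiff.2 ⟨(Finset.mem_sdiff.1 hb).1, (Finset.mem_sdiff.1 (hRsub hb')).2⟩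
      exact hS a haS b hbS (hjoin b hb')
    obtain ⟨u, v, hu, hv, huv, huv', hau⟩ := M1_leave hY4 hY2 hY3 hbR
    have hu' : u ∈ comp H' Y a := mem_comp.2 hau
    rcases hdiff u v huv huv' with ⟨h1, _⟩ | ⟨h1, _⟩
    · exact hR ⟨u, Finset.mem_inter.2 ⟨hu', by rw [h1]; exact Finset.mem_insert_self _ _⟩⟩
    · obtain ⟨b', hb', hyb⟩ := hy
      have h3 := hjoin u hu'
      rw [h1] at h3
      exact hS a haS b' hb' (h3.trans hyb)

theorem M1_symm_good {H : SimpleGraph V} {m : ℕ} {A B : Finset V}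
    (h : ∀ S : Finset V, S.card < m → ∃ a ∈ A \ S, ∃ b ∈ B \ S, Joined H (Finset.univ \ S) a b) :
    ∀ S : Finset V, S.card < m → ∃ a ∈ B \ S, ∃ b ∈ A \ S, Joined H (Finset.univ \ S) a b := by
  intro S hS
  obtain ⟨a, ha, b, hb, hj⟩ := h S hS
  exact ⟨b, hb, a, ha, hj.symm⟩

theorem M1_step {H H' : SimpleGraph V} (hle : H' ≤ H) {m : ℕ} {A B S : Finset V} {x y : V}
    (hxy : H.Adj x y)
    (hdiff : ∀ u v, H.Adj u v → ¬ H'.Adj u v → (u = x ∧ v = y) ∨ (u = y ∧ v = x))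
    (ih : ∀ A B : Finset V,
      (∀ S : Finset V, S.card < m → ∃ a ∈ A \ S, ∃ b ∈ B \ S, Joined H' (Finset.univ \ S) a b) →
      ∃ F : Fin m → Finset V, (∀ i, Conn H' (F i) ∧ (F i ∩ A).Nonempty ∧ (F i ∩ B).Nonempty) ∧
      ∀ i j, i ≠ j → Disjoint (F i) (F j))
    (h : ∀ S : Finset V, S.card < m → ∃ a ∈ A \ S, ∃ b ∈ B \ S, Joined H (Finset.univ \ S) a b)
    (hcard : S.card < m)
    (hS : ∀ a ∈ A \ S, ∀ b ∈ B \ S, ¬ Joined H' (Finset.univ \ S) a b)
    (hx : ∃ a ∈ A \ S, Joined H' (Finset.univ \ S) x a)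
    (hy : ∃ b ∈ B \ S, Joined H' (Finset.univ \ S) y b) :
    ∃ F : Fin m → Finset V, (∀ i, Conn H (F i) ∧ (F i ∩ A).Nonempty ∧ (F i ∩ B).Nonempty) ∧
      ∀ i j, i ≠ j → Disjoint (F i) (F j) := by
  have hxS : x ∉ S := by
    obtain ⟨a, _, hj⟩ := hx
    exact (Finset.mem_sdiff.1 hj.mem_left).2
  have hyS : y ∉ S := by
    obtain ⟨a, _, hj⟩ := hy
    exact (Finset.mem_sdiff.1 hj.mem_left).2
  have hcardP : (insert x S).card = m := by
    rw [Finset.card_insert_of_notMem hxS]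
    by_contra hne
    have hlt : (insert x S).card < m := by
      rw [Finset.card_insert_of_notMem hxS]; omega
    obtain ⟨a, ha, b, hb, Y, hY1, hY2, hY3, hY4⟩ := h _ hlt
    have hxY : x ∉ Y := by
      intro hxY
      have := hY1 hxY
      simp at this
    have hY' : Conn H' Y := by
      apply PC.conn _ hY4.nonempty
      intro P hP h1 h2
      obtain ⟨u, hu, v, hv, huv⟩ := hY4.pc P hP h1 h2
      refine ⟨u, hu, v, hv, ?_⟩
      by_contra hno
      rcases hdiff u v huv hno with ⟨h3, _⟩ | ⟨_, h3⟩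
      · exact hxY (h3 ▸ hP hu)
      · exact hxY (h3 ▸ (Finset.mem_sdiff.1 hv).1)
    have hsub : ∀ {C : Finset V} {c : V}, c ∈ C \ insert x S → c ∈ C \ S := by
      intro C c hc
      rw [Finset.mem_sdiff] at hc ⊢
      exact ⟨hc.1, fun h => hc.2 (Finset.mem_insert_of_mem h)⟩
    exact hS a (hsub ha) b (hsub hb) ⟨Y, fun z hz => hsub (hY1 hz), hY2, hY3, hY'⟩
  have hcardQ : (insert y S).card = m := by
    rw [Finset.card_insert_of_notMem hyS]
    rw [Finset.card_insert_of_notMem hxS] at hcardP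
    exact hcardP
  have hdiff' : ∀ u v, H.Adj u v → ¬ H'.Adj u v → (u = y ∧ v = x) ∨ (u = x ∧ v = y) :=
    fun u v h1 h2 => (hdiff u v h1 h2).symm
  have hgoodP := M1_claim hdiff h hS hy
  have hgoodQ := M1_claim (A := B) (B := A) hdiff' (M1_symm_good h)
    (fun b hb a ha hj => hS a ha b hb hj.symm) hx
  obtain ⟨Z1, hZ1, hZ1d⟩ := M1_linked hcardP (ih _ _ hgoodP)
  obtain ⟨Z2, hZ2, hZ2d⟩ := M1_linked hcardQ (ih _ _ hgoodQ)
  have hmonoP : Finset.univ \ insert x S ⊆ Finset.univ \ S :=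
    Finset.sdiff_subset_sdiff (Finset.Subset.refl _) (Finset.subset_insert _ _)
  have hmonoQ : Finset.univ \ insert y S ⊆ Finset.univ \ S :=
    Finset.sdiff_subset_sdiff (Finset.Subset.refl _) (Finset.subset_insert _ _)
  have hcommon : ∀ p ∈ insert x S, ∀ q ∈ insert y S, ∀ z, z ∈ Z1 p → z ∈ Z2 q →
      z ∈ S ∧ z = p ∧ z = q := by
    intro p hp q hq z hz1 hz2
    have hzS : z ∈ S := by
      by_contra hzS
      have h1 : ∃ a ∈ A \ S, Joined H' (Finset.univ \ S) a z := by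
        rcases (hZ1 p hp).2.2.2 z hz1 with h3 | ⟨a, ha, hj⟩
        · rcases Finset.mem_insert.1 hp with h4 | h4
          · obtain ⟨a, ha, hj⟩ := hx
            refine ⟨a, ha, ?_⟩
            rw [h3, h4]
            exact hj.symm
          · exact absurd (h3 ▸ h4) hzS
        · refine ⟨a, ?_, hj.mono hmonoP⟩
          rw [Finset.mem_sdiff] at ha ⊢
          exact ⟨ha.1, fun h => ha.2 (Finset.mem_insert_of_mem h)⟩
      have h2 : ∃ b ∈ B \ S, Joined H' (Finset.univ \ S) b z := by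
        rcases (hZ2 q hq).2.2.2 z hz2 with h3 | ⟨a, ha, hj⟩
        · rcases Finset.mem_insert.1 hq with h4 | h4
          · obtain ⟨a, ha, hj⟩ := hy
            refine ⟨a, ha, ?_⟩
            rw [h3, h4]
            exact hj.symm
          · exact absurd (h3 ▸ h4) hzS
        · refine ⟨a, ?_, hj.mono hmonoQ⟩
          rw [Finset.mem_sdiff] at ha ⊢
          exact ⟨ha.1, fun h => ha.2 (Finset.mem_insert_of_mem h)⟩
      obtain ⟨a, ha, hja⟩ := h1
      obtain ⟨b, hb, hjb⟩ := h2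
      exact hS a ha b hb (hja.trans hjb.symm)
    refine ⟨hzS, ?_, ?_⟩
    · rcases (hZ1 p hp).2.2.2 z hz1 with h3 | ⟨a, ha, hj⟩
      · exact h3
      · exact absurd (Finset.mem_insert_of_mem hzS) (Finset.mem_sdiff.1 hj.mem_right).2
    · rcases (hZ2 q hq).2.2.2 z hz2 with h3 | ⟨a, ha, hj⟩
      · exact h3
      · exact absurd (Finset.mem_insert_of_mem hzS) (Finset.mem_sdiff.1 hj.mem_right).2
  obtain ⟨g, hg⟩ : ∃ g : V → V, g = fun p => if p ∈ S then p else y := ⟨_, rfl⟩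
  have hgS : ∀ p ∈ S, g p = p := by
    intro p hp
    rw [hg]; simp [hp]
  have hgx : g x = y := by
    rw [hg]; simp [hxS]
  have hgQ : ∀ p ∈ insert x S, g p ∈ insert y S := by
    intro p hp
    rcases Finset.mem_insert.1 hp with h1 | h1
    · rw [h1, hgx]; exact Finset.mem_insert_self _ _
    · rw [hgS p h1]; exact Finset.mem_insert_of_mem h1
  have hginj : ∀ p ∈ insert x S, ∀ p' ∈ insert x S, g p = g p' → p = p' := by
    intro p hp p' hp' hpp
    rcases Finset.mem_insert.1 hp with h1 | h1 <;> rcases Finset.mem_insert.1 hp' with h2 | h2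
    · rw [h1, h2]
    · rw [h1, hgx, hgS p' h2] at hpp
      exact absurd (hpp ▸ h2) hyS
    · rw [h2, hgx, hgS p h1] at hpp
      exact absurd (hpp ▸ h1) hyS
    · rwa [hgS p h1, hgS p' h2] at hpp
  obtain ⟨e⟩ : Nonempty (Fin m ≃ {p // p ∈ insert x S}) := by
    refine ⟨(Fintype.equivFinOfCardEq ?_).symm⟩
    rw [Fintype.card_coe, hcardP]
  refine ⟨fun i => Z1 (e i).1 ∪ Z2 (g (e i).1), ?_, ?_⟩
  · intro i
    obtain ⟨p, hpe⟩ : ∃ p, p = (e i).1 := ⟨_, rfl⟩
    have hp : p ∈ insert x S := by rw [hpe]; exact (e i).2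
    dsimp only
    rw [← hpe]
    obtain ⟨c1, n1, m1, _⟩ := hZ1 p hp
    obtain ⟨c2, n2, m2, _⟩ := hZ2 (g p) (hgQ p hp)
    refine ⟨?_, ?_, ?_⟩
    · rcases Finset.mem_insert.1 hp with h1 | h1
      · refine (M1_conn_mono hle c1).union_touch (M1_conn_mono hle c2) ⟨x, ?_, y, ?_, hxy⟩
        · rw [h1] at m1 ⊢; exact m1
        · rw [h1, hgx] at m2 ⊢; exact m2
      · rw [hgS p h1] at c2 m2 ⊢
        exact (M1_conn_mono hle c1).union_mem (M1_conn_mono hle c2) m1 m2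
    · obtain ⟨z, hz⟩ := n1
      rw [Finset.mem_inter] at hz
      exact ⟨z, Finset.mem_inter.2 ⟨Finset.mem_union_left _ hz.1, hz.2⟩⟩
    · obtain ⟨z, hz⟩ := n2
      rw [Finset.mem_inter] at hz
      exact ⟨z, Finset.mem_inter.2 ⟨Finset.mem_union_right _ hz.1, hz.2⟩⟩
  · intro i j hij
    have hne : (e i).1 ≠ (e j).1 := fun h => hij (e.injective (Subtype.ext h))
    have hpi := (e i).2
    have hpj := (e j).2
    have hcross : ∀ p ∈ insert x S, ∀ p' ∈ insert x S, p ≠ p' → ∀ z, z ∈ Z1 p → z ∉ Z2 (g p') := by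
      intro p hp p' hp' hpp z hz1 hz2
      obtain ⟨h1, h2, h3⟩ := hcommon p hp (g p') (hgQ p' hp') z hz1 hz2
      rcases Finset.mem_insert.1 hp' with h4 | h4
      · rw [h4, hgx] at h3
        exact hyS (h3 ▸ h1)
      · rw [hgS p' h4] at h3
        exact hpp (h2.symm.trans h3)
    rw [Finset.disjoint_left]
    intro z hz1 hz2
    rcases Finset.mem_union.1 hz1 with h1 | h1 <;> rcases Finset.mem_union.1 hz2 with h2 | h2
    · exact Finset.disjoint_left.1 (hZ1d _ hpi _ hpj hne) h1 h2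
    · exact hcross _ hpi _ hpj hne z h1 h2
    · exact hcross _ hpj _ hpi hne.symm z h2 h1
    · exact Finset.disjoint_left.1 (hZ2d _ (hgQ _ hpi) _ (hgQ _ hpj)
        (fun h => hne (hginj _ hpi _ hpj h))) h1 h2

/-- M1: Menger's theorem for vertex sets. -/
theorem menger (H : SimpleGraph V) (A B : Finset V) (m : ℕ)
    (h : ∀ S : Finset V, S.card < m → ∃ a ∈ A \ S, ∃ b ∈ B \ S, Joined H (Finset.univ \ S) a b) :
    ∃ F : Fin m → Finset V, (∀ i, Conn H (F i) ∧ (F i ∩ A).Nonempty ∧ (F i ∩ B).Nonempty) ∧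
      ∀ i j, i ≠ j → Disjoint (F i) (F j) := by
  have hwf : WellFounded (fun a b : SimpleGraph V => a < b) := wellFounded_lt
  induction H using hwf.induction generalizing A B with
  | _ H ih =>
    by_cases hE : ∃ x y, H.Adj x y
    · obtain ⟨x, y, hxy⟩ := hE
      obtain ⟨H', hH'⟩ : ∃ H' : SimpleGraph V, H' = H.deleteEdges {s(x, y)} := ⟨_, rfl⟩
      have hle : H' ≤ H := by rw [hH']; exact SimpleGraph.deleteEdges_le _
      have hdiff : ∀ u v, H.Adj u v → ¬ H'.Adj u v → (u = x ∧ v = y) ∨ (u = y ∧ v = x) := by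
        intro u v h1 h2
        rw [hH', SimpleGraph.deleteEdges_adj] at h2
        have h3 : s(u, v) ∈ ({s(x, y)} : Set (Sym2 V)) := by
          by_contra h4
          exact h2 ⟨h1, h4⟩
        rw [Set.mem_singleton_iff, Sym2.eq_iff] at h3
        exact h3
      have hnot : ¬ H'.Adj x y := by
        rw [hH', SimpleGraph.deleteEdges_adj]
        simp
      have hlt : H' < H := lt_of_le_of_ne hle (by
        rintro heq
        rw [heq] at hnot
        exact hnot hxy)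
      by_cases hg : ∀ S : Finset V, S.card < m →
          ∃ a ∈ A \ S, ∃ b ∈ B \ S, Joined H' (Finset.univ \ S) a b
      · obtain ⟨F, hF1, hF2⟩ := ih H' hlt A B hg
        exact ⟨F, fun i => ⟨M1_conn_mono hle (hF1 i).1, (hF1 i).2⟩, hF2⟩
      · push Not at hg
        obtain ⟨S, hcard, hS⟩ := hg
        obtain ⟨a, ha, b, hb, Y, hY1, hY2, hY3, hY4⟩ := h S hcard
        have hnj : ¬ Joined H' Y a b := fun hj => hS a ha b hb (hj.mono hY1)
        obtain ⟨u, v, hu, hv, huv, huv', hau⟩ := M1_leave hY4 hY2 hY3 hnj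
        obtain ⟨u', v', hu', hv', h2, h2', hbu⟩ := M1_leave hY4 hY3 hY2 (fun hj => hnj hj.symm)
        have hvb : u' = v ∧ v' = u := by
          have e1 := hdiff u v huv huv'
          have e2 := hdiff u' v' h2 h2'
          have hne : u' ≠ u := by
            rintro rfl
            exact hnj (hau.trans hbu.symm)
          rcases e1 with ⟨a1, a2⟩ | ⟨a1, a2⟩ <;> rcases e2 with ⟨b1, b2⟩ | ⟨b1, b2⟩
          · exact absurd (b1.trans a1.symm) hne
          · exact ⟨b1.trans a2.symm, b2.trans a1.symm⟩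
          · exact ⟨b1.trans a2.symm, b2.trans a1.symm⟩
          · exact absurd (b1.trans a1.symm) hne
        have hdiff2 : ∀ p q, H.Adj p q → ¬ H'.Adj p q → (p = u ∧ q = v) ∨ (p = v ∧ q = u) := by
          intro p q h3 h4
          rcases hdiff u v huv huv' with ⟨a1, a2⟩ | ⟨a1, a2⟩
          · rw [a1, a2]; exact hdiff p q h3 h4
          · rw [a1, a2]; exact (hdiff p q h3 h4).symm
        refine M1_step hle huv hdiff2 (fun A B => ih H' hlt A B) h hcard hS
          ⟨a, ha, (hau.mono hY1).symm⟩ ⟨b, hb, ?_⟩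
        rw [← hvb.1]
        exact (hbu.mono hY1).symm
    · have hsing : ∀ {S : Finset V} {a b : V}, Joined H S a b → a = b := by
        intro S a b hj
        by_contra hne
        obtain ⟨u, _, v, _, huv⟩ := joined_split (P := {a}) hj (by simp)
          (by simpa using fun h => hne h.symm)
        exact hE ⟨u, v, huv⟩
      have hcard : m ≤ (A ∩ B).card := by
        by_contra hlt
        obtain ⟨a, ha, b, hb, hj⟩ := h (A ∩ B) (by omega)
        have hab := hsing hj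
        subst hab
        rw [Finset.mem_sdiff] at ha hb
        exact ha.2 (Finset.mem_inter.2 ⟨ha.1, hb.1⟩)
      obtain ⟨T, hT1, hT2⟩ := Finset.exists_subset_card_eq hcard
      obtain ⟨e⟩ : Nonempty (Fin m ≃ {p // p ∈ T}) := by
        refine ⟨(Fintype.equivFinOfCardEq ?_).symm⟩
        rw [Fintype.card_coe, hT2]
      refine ⟨fun i => {(e i).1}, ?_, ?_⟩
      · intro i
        have h1 := hT1 (e i).2
        rw [Finset.mem_inter] at h1
        exact ⟨conn_singleton _, ⟨(e i).1, by simp [h1.1]⟩, ⟨(e i).1, by simp [h1.2]⟩⟩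
      · intro i j hij
        rw [Finset.disjoint_singleton]
        exact fun h => hij (e.injective (Subtype.ext h))

end HD
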