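import Pool.Agent.LibHD.F
import Pool.Agent.LibHD.M
import Pool.Agent.LibHD.C

set_option autoImplicit false
set_option linter.unusedSectionVars false

open scoped Classical

noncomputable section

namespace HD

variable {V : Type*} [Fintype V] [DecidableEq V] {G : SimpleGraph V}

/-! Row X1 -/
theorem X1_sdr {A1 : Finset V} {k : ℕ} {τ : Type} [Fintype τ] (hτ : Fintype.card τ ≤ k)
    (w : τ → V) (hw : ∀ i, k ≤ (nbIn G A1 (w i)).card) :
    ∃ s : τ → V, Function.Injective s ∧ ∀ i, s i ∈ A1 ∧ G.Adj (w i) (s i) := by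
  obtain ⟨s, h1, h2⟩ := (Finset.all_card_le_biUnion_card_iff_exists_injective
    (fun i => nbIn G A1 (w i))).1 (by
      intro T
      rcases T.eq_empty_or_nonempty with rfl | ⟨i, hi⟩
      · simp
      · calc T.card ≤ Fintype.card τ := Finset.card_le_univ T
          _ ≤ k := hτ
          _ ≤ (nbIn G A1 (w i)).card := hw i
          _ ≤ _ := Finset.card_le_card (Finset.subset_biUnion_of_mem (fun i => nbIn G A1 (w i)) hi))
  exact ⟨s, h1, fun i => mem_nbIn.1 (h2 i)⟩

omit [Fintype V] in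
theorem X1_conn_res {X Y : Finset V} (hY : Y ⊆ X) (h : Conn G Y) : Conn (res G X) Y := by
  unfold Conn at *
  refine h.mono ?_
  rintro ⟨a, ha⟩ ⟨b, hb⟩ hab
  exact ⟨hab, hY (by exact_mod_cast ha), hY (by exact_mod_cast hb)⟩

omit [Fintype V] in
theorem X1_conn_of_res {X Y : Finset V} (h : Conn (res G X) Y) : Conn G Y := by
  unfold Conn at *
  refine h.mono ?_
  rintro ⟨a, ha⟩ ⟨b, hb⟩ hab
  exact hab.1

omit [Fintype V] in
theorem X1_sub {X Y : Finset V} {x : V} (h : Conn (res G X) Y) (hxY : x ∈ Y) (hxX : x ∈ X) :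
    Y ⊆ X := by
  unfold Conn at h
  have key : ∀ (a b : (Y : Set V)), ((res G X).induce (Y : Set V)).Reachable a b →
      a.1 ∈ X → b.1 ∈ X := by
    intro a b hab
    obtain ⟨w⟩ := hab
    induction w with
    | nil => exact id
    | cons hadj w ih =>
      intro _
      exact ih hadj.2.2
  intro y hy
  exact key ⟨x, hxY⟩ ⟨y, hy⟩ (h.preconnected _ _) hxX


/-- X1: disjoint fans from terminals to the hub. -/
theorem fans {A1 D : Finset V} {k : ℕ}
    (hP : ∀ S : Finset V, S.card ≤ k → ∀ x ∈ A1 \ S, ∀ y ∈ A1 \ S, Joined G ((A1 ∪ D) \ S) x y)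
    {τ : Type} [Fintype τ] [DecidableEq τ] (hτ : Fintype.card τ ≤ k)
    (w u : τ → V) (hw : ∀ i, k ≤ (nbIn G A1 (w i)).card) (hu : ∀ i, k ≤ (nbIn G A1 (u i)).card) :
    ∃ (σ : Equiv.Perm τ) (F : τ → Finset V),
      (∀ i, F i ⊆ A1 ∪ D ∧ Conn G (F i) ∧ Touch G {w i} (F i) ∧ Touch G (F i) {u (σ i)}) ∧
      ∀ i j, i ≠ j → Disjoint (F i) (F j) := by
  obtain ⟨s, hs1, hs2⟩ := X1_sdr (G := G) (A1 := A1) hτ w hw
  obtain ⟨s', hs1', hs2'⟩ := X1_sdr (G := G) (A1 := A1) hτ u hu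
  have hcA : (Finset.univ.image s).card = Fintype.card τ := by
    rw [Finset.card_image_of_injective _ hs1, Finset.card_univ]
  have hcB : (Finset.univ.image s').card = Fintype.card τ := by
    rw [Finset.card_image_of_injective _ hs1', Finset.card_univ]
  obtain ⟨F, hF, hFd⟩ := menger (res G (A1 ∪ D)) (Finset.univ.image s) (Finset.univ.image s')
    (Fintype.card τ) (by
      intro S hS
      obtain ⟨a, ha, ha'⟩ := Finset.exists_mem_notMem_of_card_lt_card (hcA.symm ▸ hS)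
      obtain ⟨b, hb, hb'⟩ := Finset.exists_mem_notMem_of_card_lt_card (hcB.symm ▸ hS)
      refine ⟨a, Finset.mem_sdiff.2 ⟨ha, ha'⟩, b, Finset.mem_sdiff.2 ⟨hb, hb'⟩, ?_⟩
      obtain ⟨i, _, rfl⟩ := Finset.mem_image.1 ha
      obtain ⟨j, _, rfl⟩ := Finset.mem_image.1 hb
      obtain ⟨Y, h1, h2, h3, h4⟩ := hP S (by omega) (s i) (Finset.mem_sdiff.2 ⟨(hs2 i).1, ha'⟩)
        (s' j) (Finset.mem_sdiff.2 ⟨(hs2' j).1, hb'⟩)
      refine ⟨Y, ?_, h2, h3, X1_conn_res (h1.trans Finset.sdiff_subset) h4⟩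
      intro y hy
      exact Finset.mem_sdiff.2 ⟨Finset.mem_univ y, (Finset.mem_sdiff.1 (h1 hy)).2⟩)
  have hp : ∀ i, ∃ p : τ, s p ∈ F i := by
    intro i
    obtain ⟨a, ha⟩ := (hF i).2.1
    obtain ⟨p, _, rfl⟩ := Finset.mem_image.1 (Finset.mem_inter.1 ha).2
    exact ⟨p, (Finset.mem_inter.1 ha).1⟩
  have hq : ∀ i, ∃ q : τ, s' q ∈ F i := by
    intro i
    obtain ⟨a, ha⟩ := (hF i).2.2
    obtain ⟨p, _, rfl⟩ := Finset.mem_image.1 (Finset.mem_inter.1 ha).2
    exact ⟨p, (Finset.mem_inter.1 ha).1⟩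
  choose p hp using hp
  choose q hq using hq
  have hpi : Function.Injective p := by
    intro i j hij
    by_contra hne
    have h1 := hp j
    rw [← hij] at h1
    exact Finset.disjoint_left.1 (hFd i j hne) (hp i) h1
  have hqi : Function.Injective q := by
    intro i j hij
    by_contra hne
    have h1 := hq j
    rw [← hij] at h1
    exact Finset.disjoint_left.1 (hFd i j hne) (hq i) h1
  have hpb : Function.Bijective p :=
    (Fintype.bijective_iff_injective_and_card p).2 ⟨hpi, Fintype.card_fin _⟩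
  have hqb : Function.Bijective q :=
    (Fintype.bijective_iff_injective_and_card q).2 ⟨hqi, Fintype.card_fin _⟩
  let ep := Equiv.ofBijective p hpb
  let eq := Equiv.ofBijective q hqb
  have hep : ∀ i, p (ep.symm i) = i := fun i => Equiv.apply_symm_apply ep i
  have hsF : ∀ i, s i ∈ F (ep.symm i) := by
    intro i
    have h1 := hp (ep.symm i)
    rwa [hep] at h1
  refine ⟨ep.symm.trans eq, fun i => F (ep.symm i), ?_, ?_⟩
  · intro i
    refine ⟨?_, X1_conn_of_res (hF _).1, ?_, ?_⟩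
    · exact X1_sub (hF _).1 (hsF i) (Finset.mem_union_left _ (hs2 i).1)
    · exact ⟨w i, Finset.mem_singleton_self _, s i, hsF i, (hs2 i).2⟩
    · exact ⟨s' (q (ep.symm i)), hq _, u (q (ep.symm i)), Finset.mem_singleton_self _,
        (hs2' _).2.symm⟩
  · intro i j hij
    apply hFd
    intro h
    exact hij (ep.symm.injective h)

/-! Row X2 -/
omit [Fintype V] in
theorem X2_pieces {B : Finset V} {r g : ℕ}
    (W : Fin r → Fin r → Finset V) (hW : ∀ a b, a < b → W a b ⊆ B ∧ Model G (W a b) (2 * g))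
    (hdis : ∀ a b c d, a < b → c < d → (a, b) ≠ (c, d) → Disjoint (W a b) (W c d)) :
    ∃ E : Fin r → Fin g → Fin r → Finset V,
      (∀ a b a', a ≠ a' → E a b a' ⊆ B ∧ Conn G (E a b a')) ∧
      (∀ a b a' c d c', a ≠ a' → c ≠ c' → (a, b, a') ≠ (c, d, c') →
        Disjoint (E a b a') (E c d c')) ∧
      (∀ a b a' b', a ≠ a' → Touch G (E a b a') (E a' b' a)) ∧
      (∀ a b a' b', a ≠ a' → b ≠ b' → Touch G (E a b a') (E a b' a')) := by
  have hex : ∀ a b, ∃ f : Fin (2 * g) → Finset V, a < b → IsModel G (W a b) f := by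
    intro a b
    by_cases h : a < b
    · obtain ⟨f, hf⟩ := (hW a b h).2
      exact ⟨f, fun _ => hf⟩
    · exact ⟨fun _ => ∅, fun h' => absurd h' h⟩
  choose f hf using hex
  let i1 : Fin g → Fin (2 * g) := fun b => ⟨b.1, by have := b.2; omega⟩
  let i2 : Fin g → Fin (2 * g) := fun b => ⟨g + b.1, by have := b.2; omega⟩
  have hi1 : ∀ b b', b ≠ b' → i1 b ≠ i1 b' := by
    intro b b' h h'
    apply h
    have := congrArg Fin.val h'
    exact Fin.ext this
  have hi2 : ∀ b b', b ≠ b' → i2 b ≠ i2 b' := by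
    intro b b' h h'
    apply h
    have : g + b.1 = g + b'.1 := congrArg Fin.val h'
    exact Fin.ext (by omega)
  have hi12 : ∀ b b', i1 b ≠ i2 b' := by
    intro b b' h'
    have : b.1 = g + b'.1 := congrArg Fin.val h'
    have := b.2
    omega
  let E : Fin r → Fin g → Fin r → Finset V := fun a b a' =>
    if a < a' then f a a' (i1 b) else f a' a (i2 b)
  have hE1 : ∀ a b a', a < a' → E a b a' = f a a' (i1 b) := by
    intro a b a' h
    exact if_pos h
  have hE2 : ∀ a b a', a' < a → E a b a' = f a' a (i2 b) := by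
    intro a b a' h
    exact if_neg (not_lt.2 h.le)
  have hsub : ∀ a a', a < a' → ∀ i, f a a' i ⊆ B ∧ Conn G (f a a' i) := by
    intro a a' h i
    exact ⟨((hf a a' h).1 i).1.trans (hW a a' h).1, ((hf a a' h).1 i).2⟩
  have hd : ∀ a a' c c' i j, a < a' → c < c' → (a, a', i) ≠ (c, c', j) →
      Disjoint (f a a' i) (f c c' j) := by
    intro a a' c c' i j h h' hne
    by_cases h1 : (a, a') = (c, c')
    · obtain ⟨rfl, rfl⟩ := Prod.mk.inj h1
      have hij : i ≠ j := by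
        rintro rfl
        exact hne rfl
      exact ((hf a a' h).2 i j hij).1
    · exact Disjoint.mono ((hf a a' h).1 i).1 ((hf c c' h').1 j).1 (hdis a a' c c' h h' h1)
  refine ⟨E, ?_, ?_, ?_, ?_⟩
  · intro a b a' hne
    rcases lt_or_gt_of_ne hne with h | h
    · rw [hE1 a b a' h]
      exact hsub a a' h _
    · rw [hE2 a b a' h]
      exact hsub a' a h _
  · intro a b a' c d c' hne hne' hn
    rcases lt_or_gt_of_ne hne with h | h <;> rcases lt_or_gt_of_ne hne' with h' | h'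
    · rw [hE1 a b a' h, hE1 c d c' h']
      apply hd _ _ _ _ _ _ h h'
      intro he
      simp only [Prod.mk.injEq] at he
      obtain ⟨e1, e2, e3⟩ := he
      subst e1; subst e2
      by_cases hb : b = d
      · exact hn (by rw [hb])
      · exact hi1 b d hb e3
    · rw [hE1 a b a' h, hE2 c d c' h']
      apply hd _ _ _ _ _ _ h h'
      intro he
      simp only [Prod.mk.injEq] at he
      exact hi12 b d he.2.2
    · rw [hE2 a b a' h, hE1 c d c' h']
      apply hd _ _ _ _ _ _ h h'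
      intro he
      simp only [Prod.mk.injEq] at he
      exact hi12 d b he.2.2.symm
    · rw [hE2 a b a' h, hE2 c d c' h']
      apply hd _ _ _ _ _ _ h h'
      intro he
      simp only [Prod.mk.injEq] at he
      obtain ⟨e1, e2, e3⟩ := he
      subst e1; subst e2
      by_cases hb : b = d
      · exact hn (by rw [hb])
      · exact hi2 b d hb e3
  · intro a b a' b' hne
    rcases lt_or_gt_of_ne hne with h | h
    · rw [hE1 a b a' h, hE2 a' b' a h]
      exact ((hf a a' h).2 _ _ (hi12 b b')).2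
    · rw [hE2 a b a' h, hE1 a' b' a h]
      exact ((hf a' a h).2 _ _ (hi12 b' b).symm).2
  · intro a b a' b' hne hb
    rcases lt_or_gt_of_ne hne with h | h
    · rw [hE1 a b a' h, hE1 a b' a' h]
      exact ((hf a a' h).2 _ _ (hi1 b b' hb)).2
    · rw [hE2 a b a' h, hE2 a b' a' h]
      exact ((hf a' a h).2 _ _ (hi2 b b' hb)).2

theorem X2_star {ι : Type*} (s : Finset ι) (S : Finset V) (T : ι → Finset V) (hS : Conn G S)
    (hT : ∀ c ∈ s, Conn G (T c) ∧ Touch G S (T c)) : Conn G (S ∪ s.biUnion T) := by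
  induction s using Finset.induction_on with
  | empty => simpa using hS
  | insert a s ha ih =>
    have h1 := ih (fun c hc => hT c (Finset.mem_insert_of_mem hc))
    have h2 := hT a (Finset.mem_insert_self a s)
    have h3 := h1.union_touch h2.1 (h2.2.mono Finset.subset_union_left (Finset.Subset.refl _))
    have h4 : S ∪ (insert a s).biUnion T = S ∪ s.biUnion T ∪ T a := by
      rw [Finset.biUnion_insert, Finset.union_assoc, Finset.union_comm (T a)]
    rw [h4]
    exact h3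

theorem X2_main {B A1 A2 D : Finset V} {r' g h : ℕ} (hr : 0 < r')
    (h1 : Disjoint B A1) (h2 : Disjoint B A2) (h3 : Disjoint B D) (h4 : Disjoint A1 A2) (h6 : Disjoint A2 D)
    (E : Fin (r' + 1) → Fin g → Fin (r' + 1) → Finset V)
    (hE1 : ∀ a b a', a ≠ a' → E a b a' ⊆ B ∧ Conn G (E a b a'))
    (hE2 : ∀ a b a' c d c', a ≠ a' → c ≠ c' → (a, b, a') ≠ (c, d, c') →
        Disjoint (E a b a') (E c d c'))
    (hE3 : ∀ a b a' b', a ≠ a' → Touch G (E a b a') (E a' b' a))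
    (hE4 : ∀ a b a' b', a ≠ a' → b ≠ b' → Touch G (E a b a') (E a b' a'))
    (P : Fin h → Finset V) (hP1 : ∀ y, P y ⊆ A2) (hP2 : ∀ x y, x ≠ y → Disjoint (P x) (P y))
    (F : Fin (r' + 1) × Fin g × Fin r' → Finset V)
    (hF1 : ∀ p, F p ⊆ A1 ∪ D) (hF2 : ∀ p, Conn G (F p))
    (hF3 : ∀ p, Touch G (E p.1 p.2.1 (p.1.succAbove p.2.2)) (F p))
    (hF4 : ∀ p q, p ≠ q → Disjoint (F p) (F q))
    (W : Fin (r' + 1) × Fin g → Finset (Fin h))
    (hW1 : ∀ q, Conn G ((W q).biUnion P))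
    (hW2 : ∀ q q', q ≠ q' → Disjoint (W q) (W q'))
    (hW3 : ∀ p, Touch G ((W (p.1, p.2.1)).biUnion P) (F p)) :
    Model G (B ∪ A1 ∪ A2 ∪ D) ((r' + 1) * g) := by
  have hsa : ∀ (a : Fin (r' + 1)) (c : Fin r'), a ≠ a.succAbove c := fun a c =>
    (Fin.succAbove_ne a c).symm
  let T : Fin (r' + 1) × Fin g → Fin r' → Finset V := fun q c =>
    E q.1 q.2 (q.1.succAbove c) ∪ F (q.1, q.2, c)
  let Z : Fin (r' + 1) × Fin g → Finset V := fun q =>
    (W q).biUnion P ∪ Finset.univ.biUnion (T q)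
  have hmem : ∀ q x, x ∈ Z q → (∃ y ∈ W q, x ∈ P y) ∨
      (∃ c, x ∈ E q.1 q.2 (q.1.succAbove c)) ∨ ∃ c, x ∈ F (q.1, q.2, c) := by
    intro q x hx
    rcases Finset.mem_union.1 hx with hx | hx
    · left
      obtain ⟨y, hy, hxy⟩ := Finset.mem_biUnion.1 hx
      exact ⟨y, hy, hxy⟩
    · obtain ⟨c, _, hc⟩ := Finset.mem_biUnion.1 hx
      rcases Finset.mem_union.1 hc with hc | hc
      · exact Or.inr (Or.inl ⟨c, hc⟩)
      · exact Or.inr (Or.inr ⟨c, hc⟩)
  have hEZ : ∀ (q : Fin (r' + 1) × Fin g) (c : Fin r'), E q.1 q.2 (q.1.succAbove c) ⊆ Z q := by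
    intro q c x hx
    exact Finset.mem_union_right _ (Finset.mem_biUnion.2 ⟨c, Finset.mem_univ c,
      Finset.mem_union_left _ hx⟩)
  have hmodel : IsModel G (B ∪ A1 ∪ A2 ∪ D) Z := by
    refine ⟨fun q => ⟨?_, ?_⟩, fun q q' hqq => ⟨?_, ?_⟩⟩
    · intro x hx
      rcases hmem q x hx with ⟨y, _, hy⟩ | ⟨c, hc⟩ | ⟨c, hc⟩
      · have := hP1 y hy
        simp only [Finset.mem_union]
        tauto
      · have := (hE1 q.1 q.2 _ (hsa q.1 c)).1 hc
        simp only [Finset.mem_union]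
        tauto
      · have := hF1 _ hc
        simp only [Finset.mem_union] at this ⊢
        tauto
    · apply X2_star
      · exact hW1 q
      · intro c _
        refine ⟨(hE1 q.1 q.2 _ (hsa q.1 c)).2.union_touch (hF2 _) (hF3 (q.1, q.2, c)), ?_⟩
        exact (hW3 (q.1, q.2, c)).mono (Finset.Subset.refl _) Finset.subset_union_right
    · rw [Finset.disjoint_left]
      intro x hx hx'
      have d1 := fun (z : V) (hz : z ∈ B) (hz' : z ∈ A1) => Finset.disjoint_left.1 h1 hz hz'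
      have d2 := fun (z : V) (hz : z ∈ B) (hz' : z ∈ A2) => Finset.disjoint_left.1 h2 hz hz'
      have d3 := fun (z : V) (hz : z ∈ B) (hz' : z ∈ D) => Finset.disjoint_left.1 h3 hz hz'
      have d4 := fun (z : V) (hz : z ∈ A1) (hz' : z ∈ A2) => Finset.disjoint_left.1 h4 hz hz'
      have d6 := fun (z : V) (hz : z ∈ A2) (hz' : z ∈ D) => Finset.disjoint_left.1 h6 hz hz'
      have dE : ∀ q : Fin (r' + 1) × Fin g, (∃ c, x ∈ E q.1 q.2 (q.1.succAbove c)) → x ∈ B := by
        rintro q ⟨c, hc⟩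
        exact (hE1 q.1 q.2 _ (hsa q.1 c)).1 hc
      have dF : ∀ q : Fin (r' + 1) × Fin g, (∃ c, x ∈ F (q.1, q.2, c)) → x ∈ A1 ∨ x ∈ D := by
        rintro q ⟨c, hc⟩
        exact Finset.mem_union.1 (hF1 _ hc)
      have dP : ∀ q : Fin (r' + 1) × Fin g, (∃ y ∈ W q, x ∈ P y) → x ∈ A2 := by
        rintro q ⟨y, _, hc⟩
        exact hP1 _ hc
      have hq3 : ∀ c c' : Fin r', (q.1, q.2, c) ≠ (q'.1, q'.2, c') := by
        intro c c' he
        simp only [Prod.mk.injEq] at he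
        exact hqq (Prod.ext he.1 he.2.1)
      have hq4 : ∀ c c' : Fin (r' + 1), (q.1, q.2, c) ≠ (q'.1, q'.2, c') := by
        intro c c' he
        simp only [Prod.mk.injEq] at he
        exact hqq (Prod.ext he.1 he.2.1)
      rcases hmem q x hx with ha | ha | ha <;> rcases hmem q' x hx' with hb | hb | hb
      · obtain ⟨y, hy, hxy⟩ := ha
        obtain ⟨y', hy', hxy'⟩ := hb
        by_cases hyy : y = y'
        · subst hyy
          exact Finset.disjoint_left.1 (hW2 q q' hqq) hy hy'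
        · exact Finset.disjoint_left.1 (hP2 y y' hyy) hxy hxy'
      · exact d2 x (dE _ hb) (dP _ ha)
      · rcases dF _ hb with hb | hb
        · exact d4 x hb (dP _ ha)
        · exact d6 x (dP _ ha) hb
      · exact d2 x (dE _ ha) (dP _ hb)
      · obtain ⟨c, hc⟩ := ha
        obtain ⟨c', hc'⟩ := hb
        exact Finset.disjoint_left.1 (hE2 _ _ _ _ _ _ (hsa q.1 c) (hsa q'.1 c') (hq4 _ _)) hc hc'
      · rcases dF _ hb with hb | hb
        · exact d1 x (dE _ ha) hb
        · exact d3 x (dE _ ha) hb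
      · rcases dF _ ha with ha | ha
        · exact d4 x ha (dP _ hb)
        · exact d6 x (dP _ hb) ha
      · rcases dF _ ha with ha | ha
        · exact d1 x (dE _ hb) ha
        · exact d3 x (dE _ hb) ha
      · obtain ⟨c, hc⟩ := ha
        obtain ⟨c', hc'⟩ := hb
        exact Finset.disjoint_left.1 (hF4 _ _ (hq3 c c')) hc hc'
    · by_cases ha : q.1 = q'.1
      · have hb : q.2 ≠ q'.2 := fun hb => hqq (Prod.ext ha hb)
        have h5 := hE4 q.1 q.2 (q.1.succAbove ⟨0, hr⟩) q'.2 (hsa _ _) hb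
        apply h5.mono (hEZ q ⟨0, hr⟩)
        have h7 := hEZ q' ⟨0, hr⟩
        rw [← ha] at h7
        exact h7
      · obtain ⟨c, hc⟩ := Fin.exists_succAbove_eq (x := q'.1) (y := q.1) (Ne.symm ha)
        obtain ⟨c', hc'⟩ := Fin.exists_succAbove_eq (x := q.1) (y := q'.1) ha
        have h5 := hE3 q.1 q.2 q'.1 q'.2 ha
        apply h5.mono
        · have h7 := hEZ q c
          rw [hc] at h7
          exact h7
        · have h7 := hEZ q' c'
          rw [hc'] at h7
          exact h7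
  have h5 := hmodel.model
  rwa [Fintype.card_prod, Fintype.card_fin, Fintype.card_fin] at h5

/-- X2: linking pieces to a large clique model. -/
theorem linking {B A1 A2 D : Finset V} {r g m k : ℕ} (hr : 2 ≤ r) (hg : 1 ≤ g) (hm : m = r * g * (r - 1))
    (hk : 2 ^ 11 * m ≤ k)
    (h1 : Disjoint B A1) (h2 : Disjoint B A2) (h3 : Disjoint B D) (h4 : Disjoint A1 A2) (h6 : Disjoint A2 D)
    (hP : ∀ S : Finset V, S.card ≤ k → ∀ x ∈ A1 \ S, ∀ y ∈ A1 \ S, Joined G ((A1 ∪ D) \ S) x y)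
    (hB1 : ∀ v ∈ B, k ≤ (nbIn G A1 v).card) (hA21 : ∀ v ∈ A2, k ≤ (nbIn G A1 v).card)
    (hA22 : ∀ v ∈ A2, k ≤ (nbIn G A2 v).card) (hA2 : A2.Nonempty)
    (W : Fin r → Fin r → Finset V) (hW : ∀ a b, a < b → W a b ⊆ B ∧ Model G (W a b) (2 * g))
    (hdis : ∀ a b c d, a < b → c < d → (a, b) ≠ (c, d) → Disjoint (W a b) (W c d)) :
    Model G (B ∪ A1 ∪ A2 ∪ D) (r * g) := by
  obtain ⟨r', rfl⟩ : ∃ r', r = r' + 1 := ⟨r - 1, by omega⟩
  have hr' : 0 < r' := by omega
  rw [Nat.add_sub_cancel] at hm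
  have hm1 : 1 ≤ m := by
    rw [hm]
    exact Nat.mul_pos (Nat.mul_pos (Nat.succ_pos _) hg) hr'
  have hk2 : 2048 * m ≤ k := by
    have : (2 : ℕ) ^ 11 = 2048 := by norm_num
    rw [this] at hk
    exact hk
  have hmk : m ≤ k := by omega
  obtain ⟨h, ρ, P, hPc, hPd, h0, hkρ, hhρ, hdeg⟩ := hub_exists (G := G) (A := A2) (k := k)
    (by omega) hA2 hA22
  obtain ⟨Q, hQ⟩ : ∃ Q : SimpleGraph (Fin h), ∀ x y, Q.Adj x y ↔ x ≠ y ∧ Touch G (P x) (P y) :=
    ⟨{ Adj := fun x y => x ≠ y ∧ Touch G (P x) (P y)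
       symm := ⟨fun x y hxy => ⟨hxy.1.symm, hxy.2.symm⟩⟩
       loopless := ⟨fun x hx => hx.1 rfl⟩ }, fun x y => Iff.rfl⟩
  obtain ⟨IQ, hIQ, hlink⟩ := hub_link Q (ρ := ρ) (m := m) hm1 (by rwa [Fintype.card_fin])
    (by rwa [Fintype.card_fin]) (by
      intro y
      have h1 := hdeg y
      refine le_trans h1 (Nat.add_le_add_right (Nat.mul_le_mul_left 2
        (Finset.card_le_card ?_)) 2)
      intro x hx
      rw [Finset.mem_filter] at hx ⊢
      exact ⟨hx.1, hx.2.1, (hQ y x).2 ⟨hx.2.1.symm, hx.2.2⟩⟩) (by omega)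
  obtain ⟨E, hE1, hE2, hE3, hE4⟩ := X2_pieces W hW hdis
  have hsa : ∀ (a : Fin (r' + 1)) (c : Fin r'), a ≠ a.succAbove c := fun a c =>
    (Fin.succAbove_ne a c).symm
  have hcard : Fintype.card (Fin (r' + 1) × Fin g × Fin r') = m := by
    rw [Fintype.card_prod, Fintype.card_prod, Fintype.card_fin, Fintype.card_fin,
      Fintype.card_fin, hm, mul_assoc]
  obtain ⟨x0⟩ : Nonempty ((Fin (r' + 1) × Fin g × Fin r') ↪ IQ) := by
    apply Function.Embedding.nonempty_of_card_le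
    rw [hcard, Fintype.card_coe]
    exact hIQ
  have hwex : ∀ p : Fin (r' + 1) × Fin g × Fin r', ∃ w, w ∈ E p.1 p.2.1 (p.1.succAbove p.2.2) :=
    fun p => (hE1 p.1 p.2.1 _ (hsa _ _)).2.nonempty
  choose w hw using hwex
  have huex : ∀ p : Fin (r' + 1) × Fin g × Fin r', ∃ u, u ∈ P (x0 p).1 :=
    fun p => (hPc (x0 p).1).2.nonempty
  choose u hu using huex
  obtain ⟨σ, F, hF, hFd⟩ := fans (G := G) (A1 := A1) (D := D) (k := k) hP
    (τ := Fin (r' + 1) × Fin g × Fin r') (by rw [hcard]; exact hmk) w u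
    (fun p => hB1 _ ((hE1 p.1 p.2.1 _ (hsa _ _)).1 (hw p)))
    (fun p => hA21 _ ((hPc _).1 (hu p)))
  obtain ⟨W', hW1, hW2, hW3⟩ := hlink (Fin (r' + 1) × Fin g × Fin r') (Fin (r' + 1) × Fin g)
    (fun p => (x0 (σ p)).1) (fun p => (p.1, p.2.1)) (by rw [hcard])
    (by
      intro p q hpq
      have h5 : x0 (σ p) = x0 (σ q) := Subtype.ext hpq
      exact σ.injective (x0.injective h5))
    (fun p => (x0 (σ p)).2)
  refine X2_main (P := P) hr' h1 h2 h3 h4 h6 E hE1 hE2 hE3 hE4 (fun y => (hPc y).1) hPd F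
    (fun p => (hF p).1) (fun p => (hF p).2.1) ?_ hFd W' ?_ hW3 ?_
  · intro p
    exact (hF p).2.2.1.mono (Finset.singleton_subset_iff.2 (hw p)) (Finset.Subset.refl _)
  · intro q
    exact lift_conn P (fun y => (hPc y).2) Q (fun x y hxy => ((hQ x y).1 hxy).2)
      (hW2 (q.1, q.2, ⟨0, hr'⟩))
  · intro p
    have h5 := (hF p).2.2.2.symm
    apply h5.mono _ (Finset.Subset.refl _)
    rw [Finset.singleton_subset_iff, Finset.mem_biUnion]
    exact ⟨_, hW1 p, hu (σ p)⟩

end HD
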