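import Pool.Agent.LibHD.B
import Pool.Agent.LibHD.E3
import Pool.Agent.LibHD.X1
import Pool.Agent.LibHD.G

set_option autoImplicit false
set_option linter.unusedSectionVars false

open scoped Classical

noncomputable section

namespace HD

variable {V : Type*} [Fintype V] [DecidableEq V] {G : SimpleGraph V}

/-! Row X3 -/
/-- X3: the main step. -/
theorem main_step {U : Finset V} {t r g m c1 J k : ℕ} (ht : 1 ≤ t) (hr : 2 ≤ r) (hg : 1 ≤ g) (htr : t ≤ r * g)
    (hm : m = r * g * (r - 1)) (hU : U.card ≤ (2 ^ 11 * m) ^ 2)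
    (hJ : (U.card : ℝ) ≤ t * Real.exp ((2 : ℝ) ^ J))
    (hk : 4 * (((r * r : ℕ)) : ℝ) * Real.exp 1 ≤ Real.exp k)
    (hc1 : ∀ W ⊆ U, ¬ Model G W (2 * g) → Col G W c1) (hmod : ¬ Model G U t) :
    Col G U (3 * (2 ^ 26 * m) + 3 * (4 * t * k + J * c1 + t)) := by
  by_contra hcon
  set X := 4 * t * k + J * c1 + t with hX
  have hm1 : 1 ≤ m := by
    rw [hm]
    have h1 : 1 ≤ r - 1 := by omega
    have h2 : 1 ≤ r * g := Nat.mul_pos (by omega) hg
    exact Nat.mul_pos h2 h1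
  obtain ⟨I, D, hIU, hDU, hID, hDc, hnI, hdeg, hrel⟩ := core (κ := 2 ^ 26 * m) hcon (by omega)
  have hc0 : 3 * (2 ^ 26 * m) + 3 * X - 2 * (2 ^ 26 * m) = 2 ^ 26 * m + 3 * X := by omega
  rw [hc0] at hnI hdeg
  have hk0 : 2 ^ 15 * (2 ^ 11 * m) = 2 ^ 26 * m := by ring
  obtain ⟨c, hc⟩ := good_partition (G := G) (I := I) (D := D) (k := 2 ^ 11 * m) (by omega) hID
    (by rw [hk0]; exact hDc) ((Finset.card_le_card hIU).trans hU)
    (fun v hv => by rw [hk0]; exact (Nat.le_add_right _ _).trans (hdeg v hv))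
    (fun S hS => hrel S (by rw [hk0] at hS; exact hS))
  have hj : ∃ j : Fin 3, ¬ Col G (I.filter (fun v => c v = j)) X := by
    by_contra hall
    push Not at hall
    apply hnI
    refine (((hall 0).union (hall 1)).union (hall 2)).mono ?_ (by omega)
    intro v hv
    have h3 : c v = 0 ∨ c v = 1 ∨ c v = 2 := by
      have : ∀ x : Fin 3, x = 0 ∨ x = 1 ∨ x = 2 := by decide
      exact this (c v)
    simp only [Finset.mem_union, Finset.mem_filter]
    rcases h3 with h3 | h3 | h3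
    · exact Or.inl (Or.inl ⟨hv, h3⟩)
    · exact Or.inl (Or.inr ⟨hv, h3⟩)
    · exact Or.inr ⟨hv, h3⟩
  obtain ⟨j, hjn⟩ := hj
  obtain ⟨j1, j2, hj1, hj2, hj12⟩ : ∃ j1 j2 : Fin 3, j ≠ j1 ∧ j ≠ j2 ∧ j1 ≠ j2 := by
    have : ∀ j : Fin 3, ∃ j1 j2 : Fin 3, j ≠ j1 ∧ j ≠ j2 ∧ j1 ≠ j2 := by decide
    exact this j
  have hsubU : ∀ i : Fin 3, I.filter (fun v => c v = i) ⊆ U := fun i => (Finset.filter_subset _ _).trans hIU
  have hdisj : ∀ a b : Fin 3, a ≠ b → Disjoint (I.filter (fun v => c v = a)) (I.filter (fun v => c v = b)) := by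
    intro a b hab
    rw [Finset.disjoint_left]
    intro v h1 h2
    exact hab ((Finset.mem_filter.1 h1).2.symm.trans (Finset.mem_filter.1 h2).2)
  have hdD : ∀ a : Fin 3, Disjoint (I.filter (fun v => c v = a)) D := fun a =>
    Finset.disjoint_of_subset_left (Finset.filter_subset _ _) hID
  have hW : ∃ W : Fin (r * r) → Finset V, (∀ i, W i ⊆ I.filter (fun v => c v = j) ∧ ¬ Col G (W i) c1) ∧
      ∀ i j, i ≠ j → Disjoint (W i) (W j) := by
    by_contra hno
    apply hjn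
    refine lemmaA ht ?_ (fun h => hmod (h.mono (hsubU j) (by omega))) hk ?_ hno
    · exact Nat.mul_pos (by omega) (by omega)
    · refine le_trans ?_ hJ
      exact_mod_cast Finset.card_le_card (hsubU j)
  obtain ⟨W, hW1, hW2⟩ := hW
  have hIne : I.Nonempty := by
    rw [Finset.nonempty_iff_ne_empty]
    intro h
    apply hnI
    rw [h]
    exact col_empty _
  obtain ⟨v0, hv0⟩ := hIne
  have hA2ne : (I.filter (fun v => c v = j2)).Nonempty := by
    have h1 := (hc j2).2 v0 hv0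
    have h2 : 0 < (nbIn G (I.filter (fun v => c v = j2)) v0).card := by omega
    obtain ⟨u, hu⟩ := Finset.card_pos.1 h2
    exact ⟨u, (mem_nbIn.1 hu).1⟩
  have hmem : ∀ (i : Fin 3) v, v ∈ I.filter (fun v => c v = i) → v ∈ I := fun i v hv => (Finset.mem_filter.1 hv).1
  have hlink := linking (G := G) (B := I.filter (fun v => c v = j)) (A1 := I.filter (fun v => c v = j1))
    (A2 := I.filter (fun v => c v = j2)) (D := D) (r := r) (g := g) (m := m) (k := 2 ^ 11 * m) hr hg hm le_rfl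
    (hdisj j j1 hj1) (hdisj j j2 hj2) (hdD j) (hdisj j1 j2 hj12) (hdD j2) (hc j1).1
    (fun v hv => (hc j1).2 v (hmem j v hv)) (fun v hv => (hc j1).2 v (hmem j2 v hv))
    (fun v hv => (hc j2).2 v (hmem j2 v hv)) hA2ne (fun a b => W (finProdFinEquiv (a, b))) ?_ ?_
  · apply hmod
    refine hlink.mono ?_ htr
    refine Finset.union_subset (Finset.union_subset (Finset.union_subset (hsubU j) (hsubU j1)) (hsubU j2)) hDU
  · intro a b _
    refine ⟨(hW1 _).1, ?_⟩
    by_contra hno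
    exact (hW1 (finProdFinEquiv (a, b))).2 (hc1 _ ((hW1 _).1.trans (hsubU j)) hno)
  · intro a b a' b' _ _ hne
    apply hW2
    intro h
    exact hne (finProdFinEquiv.injective h)

/-! Row X4 -/
private theorem X4_exp {r : ℕ} (hr : 24 ≤ r) : 4 * (((r * r : ℕ)) : ℝ) * Real.exp 1 ≤ Real.exp r := by
  have hr' : (24 : ℝ) ≤ r := by exact_mod_cast hr
  set y : ℝ := ((r : ℝ) - 1) / 2 with hy
  have hy0 : 0 ≤ y := by rw [hy]; linarith
  have hy1 : 11 ≤ y := by rw [hy]; linarith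
  have h1 : 1 + y + y ^ 2 / 2 ≤ Real.exp y := Real.quadratic_le_exp_of_nonneg hy0
  have h2 : 2 * (r : ℝ) ≤ 1 + y + y ^ 2 / 2 := by
    have h3 : (r : ℝ) = 2 * y + 1 := by rw [hy]; ring
    rw [h3]
    nlinarith
  have h4 : 2 * (r : ℝ) ≤ Real.exp y := h2.trans h1
  have h5 : Real.exp r = Real.exp y * Real.exp y * Real.exp 1 := by
    rw [← Real.exp_add, ← Real.exp_add]
    congr 1
    rw [hy]; ring
  rw [h5]
  apply mul_le_mul_of_nonneg_right _ (Real.exp_pos 1).le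
  push_cast
  nlinarith [Real.exp_pos y]

private theorem X4_claim {U : Finset V} {Jp r : ℕ} (hJ : 1 ≤ Jp) (hr : r = 24 * Jp) :
    ∀ i : ℕ, i ≤ Jp → ∀ t : ℕ, 1 ≤ t → ∀ W ⊆ U, ¬ Model G W t → U.card * r ^ (2 * i) ≤ t ^ 2 →
      (U.card : ℝ) * (r : ℝ) ^ i ≤ t * Real.exp ((2 : ℝ) ^ Jp) → r ^ i ≤ t →
      Col G W (t * (2 ^ 30 * r + 2 ^ (Jp + 3 - i))) := by
  have hr24 : 24 ≤ r := by rw [hr]; omega
  have hr0 : 0 < r := by omega
  intro i
  induction i with
  | zero =>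
    intro _ t ht W hW hmod _ h2 _
    have hmod' : ¬ Model G W (t + 1) := fun h => hmod (h.mono (Finset.Subset.refl _) (Nat.le_succ t))
    have hk : (W.card : ℝ) ≤ t * Real.exp ((2 ^ Jp : ℕ) : ℝ) := by
      have h3 : (W.card : ℝ) ≤ U.card := by exact_mod_cast Finset.card_le_card hW
      rw [pow_zero, mul_one] at h2
      push_cast
      exact h3.trans h2
    refine (apriori ht hmod' hk).mono (Finset.Subset.refl _) ?_
    have h4 : 1 ≤ 2 ^ Jp := Nat.one_le_two_pow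
    have h5 : 2 ^ (Jp + 3 - 0) = 8 * 2 ^ Jp := by
      rw [Nat.sub_zero, pow_add]; ring
    rw [h5]
    nlinarith [Nat.zero_le (t * r)]
  | succ i ih =>
    intro hi t ht W hW hmod h1 h2 h3
    have hrt : r ≤ t := by
      calc r = r ^ 1 := (pow_one r).symm
        _ ≤ r ^ (i + 1) := Nat.pow_le_pow_right hr0 (by omega)
        _ ≤ t := h3
    obtain ⟨g, hg1, hg2⟩ : ∃ g : ℕ, t ≤ r * g ∧ r * g ≤ 2 * t := by
      refine ⟨t / r + 1, ?_, ?_⟩
      · have := Nat.div_add_mod t r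
        have h4 := Nat.mod_lt t hr0
        rw [Nat.mul_add, Nat.mul_one]
        omega
      · have h4 : r * (t / r) ≤ t := Nat.mul_div_le t r
        rw [Nat.mul_add, Nat.mul_one]
        omega
    have hg : 1 ≤ g := by
      rcases Nat.eq_zero_or_pos g with h | h
      · rw [h] at hg1; omega
      · exact h
    have hNW : W.card ≤ U.card := Finset.card_le_card hW
    have hr1 : 1 ≤ r - 1 := by omega
    -- m
    have hm1 : t ≤ r * g * (r - 1) := hg1.trans (Nat.le_mul_of_pos_right _ hr1)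
    have hm2 : r * g * (r - 1) ≤ 2 * t * r := Nat.mul_le_mul hg2 (Nat.sub_le r 1)
    have hU : W.card ≤ (2 ^ 11 * (r * g * (r - 1))) ^ 2 := by
      calc W.card ≤ U.card := hNW
        _ ≤ U.card * r ^ (2 * (i + 1)) := Nat.le_mul_of_pos_right _ (Nat.pow_pos hr0)
        _ ≤ t ^ 2 := h1
        _ ≤ (2 ^ 11 * (r * g * (r - 1))) ^ 2 := by
          apply Nat.pow_le_pow_left
          omega
    have hJ' : (W.card : ℝ) ≤ t * Real.exp ((2 : ℝ) ^ Jp) := by
      have h4 : (W.card : ℝ) ≤ U.card := by exact_mod_cast hNW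
      have h5 : (1 : ℝ) ≤ (r : ℝ) ^ (i + 1) := one_le_pow₀ (by exact_mod_cast hr0)
      calc (W.card : ℝ) ≤ U.card := h4
        _ ≤ U.card * (r : ℝ) ^ (i + 1) := le_mul_of_one_le_right (Nat.cast_nonneg _) h5
        _ ≤ _ := h2
    have hc1 : ∀ W' ⊆ W, ¬ Model G W' (2 * g) →
        Col G W' ((2 * g) * (2 ^ 30 * r + 2 ^ (Jp + 3 - i))) := by
      intro W' hW' hmod'
      apply ih (by omega) (2 * g) (by omega) W' (hW'.trans hW) hmod'
      · have h4 : r ^ 2 * (U.card * r ^ (2 * i)) ≤ r ^ 2 * (2 * g) ^ 2 := by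
          calc r ^ 2 * (U.card * r ^ (2 * i)) = U.card * r ^ (2 * (i + 1)) := by ring
            _ ≤ t ^ 2 := h1
            _ ≤ (r * (2 * g)) ^ 2 := Nat.pow_le_pow_left (by nlinarith) 2
            _ = r ^ 2 * (2 * g) ^ 2 := by ring
        exact Nat.le_of_mul_le_mul_left h4 (Nat.pow_pos hr0)
      · have hr0' : (0 : ℝ) < r := by exact_mod_cast hr0
        have h4 : (r : ℝ) * (U.card * (r : ℝ) ^ i) ≤ r * (((2 * g : ℕ) : ℝ) * Real.exp ((2 : ℝ) ^ Jp)) := by
          have h5 : (t : ℝ) ≤ r * ((2 * g : ℕ) : ℝ) := by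
            have : t ≤ r * (2 * g) := by nlinarith
            exact_mod_cast this
          calc (r : ℝ) * (U.card * (r : ℝ) ^ i) = U.card * (r : ℝ) ^ (i + 1) := by ring
            _ ≤ t * Real.exp ((2 : ℝ) ^ Jp) := h2
            _ ≤ (r * ((2 * g : ℕ) : ℝ)) * Real.exp ((2 : ℝ) ^ Jp) :=
              mul_le_mul_of_nonneg_right h5 (Real.exp_pos _).le
            _ = _ := by ring
        exact le_of_mul_le_mul_left h4 hr0'
      · have h4 : r * r ^ i ≤ r * (2 * g) := by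
          calc r * r ^ i = r ^ (i + 1) := by ring
            _ ≤ t := h3
            _ ≤ r * (2 * g) := by nlinarith
        exact Nat.le_of_mul_le_mul_left h4 hr0
    have hmain := main_step (r := r) (g := g) (m := r * g * (r - 1)) (J := Jp) (k := r) ht (by omega) hg hg1
      rfl hU hJ' (X4_exp hr24) hc1 hmod
    refine hmain.mono (Finset.Subset.refl _) ?_
    obtain ⟨e, he⟩ : ∃ e, Jp + 3 - i = e + 1 ∧ Jp + 3 - (i + 1) = e := ⟨Jp + 3 - (i + 1), by omega, rfl⟩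
    have hE : 2 ^ (e + 1) = 2 ^ e * 2 := pow_succ 2 e
    rw [he.1, he.2, hE]
    generalize 2 ^ e = E
    generalize hm : r * g * (r - 1) = m at hm2
    have h6 : 6 * (Jp * (2 * g)) ≤ t := by
      have h7 : 24 * Jp * g ≤ 2 * t := by rw [← hr]; exact hg2
      nlinarith
    have h8 : 3 * (Jp * (2 * g * (2 ^ 30 * r + E * 2))) ≤ t * (2 ^ 29 * r + E) := by
      calc 3 * (Jp * (2 * g * (2 ^ 30 * r + E * 2))) = 6 * (Jp * (2 * g)) * (2 ^ 29 * r + E) := by ring
        _ ≤ t * (2 ^ 29 * r + E) := Nat.mul_le_mul_right _ h6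
    have h9 : t ≤ t * r := Nat.le_mul_of_pos_right _ hr0
    have h10 : t * (2 ^ 30 * r + E) = 2 ^ 30 * (t * r) + t * E := by ring
    have h11 : t * (2 ^ 29 * r + E) = 2 ^ 29 * (t * r) + t * E := by ring
    have h12 : 2 * t * r = 2 * (t * r) := by ring
    have h13 : 4 * t * r = 4 * (t * r) := by ring
    rw [h10, h13, Nat.mul_add 3, Nat.mul_add 3]
    rw [h11] at h8
    rw [h12] at hm2
    omega

/-- X4: the iteration. -/
theorem iterate_step {U : Finset V} {t Jp : ℕ} (hJ : 1 ≤ Jp) (ht : 1 ≤ t)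
    (h1 : U.card * (24 * Jp) ^ (2 * Jp) ≤ t ^ 2)
    (h2 : (U.card : ℝ) * (24 * (Jp : ℝ)) ^ Jp ≤ t * Real.exp ((2 : ℝ) ^ Jp))
    (hmod : ¬ Model G U t) : Col G U (2 ^ 36 * Jp * t) := by
  rcases Finset.eq_empty_or_nonempty U with hU | hU
  · rw [hU]; exact col_empty _
  have hN : 1 ≤ U.card := Finset.card_pos.2 hU
  have h3 : (24 * Jp) ^ Jp ≤ t := by
    have h4 : ((24 * Jp) ^ Jp) ^ 2 ≤ t ^ 2 := by
      calc ((24 * Jp) ^ Jp) ^ 2 = (24 * Jp) ^ (2 * Jp) := by rw [← pow_mul, mul_comm 2 Jp]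
        _ ≤ U.card * (24 * Jp) ^ (2 * Jp) := Nat.le_mul_of_pos_left _ hN
        _ ≤ t ^ 2 := h1
    exact (Nat.pow_le_pow_iff_left (by norm_num)).1 h4
  have h5 := X4_claim (G := G) (U := U) hJ rfl Jp le_rfl t ht U (Finset.Subset.refl _) hmod h1
    (by push_cast; exact h2) h3
  refine h5.mono (Finset.Subset.refl _) ?_
  have h6 : Jp + 3 - Jp = 3 := by omega
  rw [h6]
  have h7 : t * (2 ^ 30 * (24 * Jp) + 2 ^ 3) = 24 * 2 ^ 30 * (Jp * t) + 8 * t := by ring
  have h8 : 2 ^ 36 * Jp * t = 2 ^ 36 * (Jp * t) := by ring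
  have h9 : t ≤ Jp * t := Nat.le_mul_of_pos_left _ hJ
  rw [h7, h8]
  omega

/-! Row X5 -/
theorem X5_aux_exp (n : ℕ) (hn : 5 ≤ n) : (24 * (n : ℝ)) ≤ Real.exp n := by
  induction n, hn using Nat.le_induction with
  | base =>
    have h1 : (2.7 : ℝ) ≤ Real.exp 1 := by
      have := Real.exp_one_gt_d9
      linarith
    have h2 : Real.exp ((5 : ℕ) : ℝ) = Real.exp 1 ^ 5 := by
      rw [← Real.exp_nat_mul]; norm_num
    rw [h2]
    have h3 : (2.7 : ℝ) ^ 5 ≤ Real.exp 1 ^ 5 := pow_le_pow_left₀ (by norm_num) h1 5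
    have h4 : (24 * ((5 : ℕ) : ℝ)) ≤ (2.7 : ℝ) ^ 5 := by norm_num
    exact h4.trans h3
  | succ n hn ih =>
    have h1 : Real.exp ((n + 1 : ℕ) : ℝ) = Real.exp n * Real.exp 1 := by
      rw [← Real.exp_add]; push_cast; rfl
    rw [h1]
    have h2 : (2 : ℝ) ≤ Real.exp 1 := by
      have := Real.exp_one_gt_d9
      linarith
    have h3 : (5 : ℝ) ≤ n := by exact_mod_cast hn
    have h4 : 0 < Real.exp n := Real.exp_pos _
    push_cast
    nlinarith

theorem X5_aux_pow (J : ℕ) (hJ : 10 ≤ J) : 4 * (J + 5) ^ 2 ≤ 2 ^ J := by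
  induction J, hJ using Nat.le_induction with
  | base => norm_num
  | succ n hn ih =>
    have h1 : 2 ^ (n + 1) = 2 * 2 ^ n := pow_succ' 2 n
    rw [h1]
    nlinarith

/-- X5: the theorem for small graphs. -/
theorem small_graphs : ∃ C : ℝ, 0 < C ∧ ∀ (V : Type) [Fintype V] [DecidableEq V] (G : SimpleGraph V) (U : Finset V) (t c : ℕ),
    1 ≤ t → U.card ^ 2 ≤ t ^ 3 → ¬ Model G U t →
    C * t * Real.log (2 + Real.log (1 + (U.card : ℝ) / t)) ≤ c → Col G U c := by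
  refine ⟨2 ^ 50, by positivity, ?_⟩
  intro V _ _ G U t c ht hU hmod hc
  rcases U.eq_empty_or_nonempty with hE | hE
  · rw [hE]; exact col_empty c
  have ht0 : (0 : ℝ) < t := by exact_mod_cast ht
  have hcard : 1 ≤ U.card := hE.card_pos
  have hcard0 : (0 : ℝ) < U.card := by exact_mod_cast hcard
  set x : ℝ := (U.card : ℝ) / t with hx
  have hx0 : 0 < x := div_pos hcard0 ht0
  have hxU : (U.card : ℝ) = x * t := by rw [hx]; field_simp
  have hmod' : ¬ Model G U (t + 1) := fun h => hmod (h.mono (Finset.Subset.refl _) (Nat.le_succ t))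
  have hlog2 : (1 / 2 : ℝ) ≤ Real.log 2 := by
    have := Real.log_two_gt_d9
    linarith
  have hlog1 : 0 ≤ Real.log (1 + x) := Real.log_nonneg (by linarith)
  have hex : ∃ J : ℕ, x ≤ Real.exp ((2 : ℝ) ^ J) := by
    obtain ⟨J, hJ⟩ := pow_unbounded_of_one_lt x (by norm_num : (1 : ℝ) < 2)
    refine ⟨J, ?_⟩
    have := Real.add_one_le_exp ((2 : ℝ) ^ J)
    linarith
  have hJ := Nat.find_spec hex
  set J := Nat.find hex with hJdef
  rcases Nat.lt_or_ge J 10 with hJ10 | hJ10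
  · -- case B
    have h1 : (2 : ℝ) ^ J ≤ 512 := by
      calc (2 : ℝ) ^ J ≤ 2 ^ 9 := pow_le_pow_right₀ (by norm_num) (by omega)
        _ = 512 := by norm_num
    have h2 : (U.card : ℝ) ≤ t * Real.exp ((512 : ℕ) : ℝ) := by
      rw [hxU, mul_comm]
      apply mul_le_mul_of_nonneg_left _ ht0.le
      exact hJ.trans (Real.exp_le_exp.2 (by push_cast; exact h1))
    have h3 := apriori ht hmod' h2
    refine h3.mono (Finset.Subset.refl _) ?_
    have h4 : Real.log 2 ≤ Real.log (2 + Real.log (1 + x)) :=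
      Real.log_le_log (by norm_num) (by linarith)
    have h5 : (2049 : ℝ) * t ≤ c := by
      have h6 : (2 : ℝ) ^ 50 * t * (1 / 2) ≤ (2 : ℝ) ^ 50 * t * Real.log (2 + Real.log (1 + x)) := by
        apply mul_le_mul_of_nonneg_left (by linarith) (by positivity)
      have h7 : (2049 : ℝ) * t ≤ (2 : ℝ) ^ 50 * t * (1 / 2) := by nlinarith
      linarith
    have h8 : 2049 * t ≤ c := by exact_mod_cast h5
    omega
  · -- case A
    have hmin : ¬ x ≤ Real.exp ((2 : ℝ) ^ (J - 1)) := Nat.find_min hex (by omega)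
    rw [not_le] at hmin
    have hlogx : (2 : ℝ) ^ (J - 1) < Real.log x := by
      rw [Real.lt_log_iff_exp_lt hx0]; exact hmin
    have hx2 : x ^ 2 ≤ t := by
      rw [hx, div_pow, div_le_iff₀ (by positivity)]
      have : ((U.card : ℝ)) ^ 2 ≤ (t : ℝ) ^ 3 := by exact_mod_cast hU
      nlinarith
    have hlogt : (2 : ℝ) ^ J < Real.log t := by
      have h1 : Real.log (x ^ 2) ≤ Real.log t := Real.log_le_log (pow_pos hx0 2) hx2
      rw [Real.log_pow] at h1
      have h2 : (2 : ℝ) ^ J = 2 * 2 ^ (J - 1) := by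
        rw [← pow_succ']; congr 1; omega
      rw [h2]
      push_cast at h1
      linarith
    set Jp := J + 5 with hJp
    have hpow : 4 * (J + 5) ^ 2 ≤ 2 ^ J := X5_aux_pow J hJ10
    have hpowR : 4 * (Jp : ℝ) ^ 2 ≤ (2 : ℝ) ^ J := by
      rw [hJp]; exact_mod_cast hpow
    have hexp := X5_aux_exp Jp (by omega)
    have hP1 : (24 * (Jp : ℝ)) ^ Jp ≤ Real.exp ((Jp : ℝ) ^ 2) := by
      calc (24 * (Jp : ℝ)) ^ Jp ≤ (Real.exp Jp) ^ Jp := pow_le_pow_left₀ (by positivity) hexp _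
        _ = Real.exp ((Jp : ℝ) ^ 2) := by rw [← Real.exp_nat_mul]; ring_nf
    have hP1pos : (0 : ℝ) ≤ (24 * (Jp : ℝ)) ^ Jp := by positivity
    have hP2 : ((24 * (Jp : ℝ)) ^ (2 * Jp)) ^ 2 ≤ t := by
      have h1 : ((24 * (Jp : ℝ)) ^ (2 * Jp)) ^ 2 = ((24 * (Jp : ℝ)) ^ Jp) ^ 4 := by
        rw [← pow_mul, ← pow_mul]; ring_nf
      rw [h1]
      calc ((24 * (Jp : ℝ)) ^ Jp) ^ 4 ≤ (Real.exp ((Jp : ℝ) ^ 2)) ^ 4 :=
            pow_le_pow_left₀ hP1pos hP1 4
        _ = Real.exp (4 * (Jp : ℝ) ^ 2) := by rw [← Real.exp_nat_mul]; norm_num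
        _ ≤ Real.exp (Real.log t) := Real.exp_le_exp.2 (by linarith)
        _ = t := Real.exp_log ht0
    have h1 : U.card * (24 * Jp) ^ (2 * Jp) ≤ t ^ 2 := by
      have h3 : ((U.card : ℝ)) ^ 2 ≤ (t : ℝ) ^ 3 := by exact_mod_cast hU
      have h4 : ((U.card : ℝ) * (24 * (Jp : ℝ)) ^ (2 * Jp)) ^ 2 ≤ ((t : ℝ) ^ 2) ^ 2 := by
        rw [mul_pow]
        calc (U.card : ℝ) ^ 2 * ((24 * (Jp : ℝ)) ^ (2 * Jp)) ^ 2 ≤ (t : ℝ) ^ 3 * t :=
              mul_le_mul h3 hP2 (by positivity) (by positivity)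
          _ = ((t : ℝ) ^ 2) ^ 2 := by ring
      have h5 : (U.card : ℝ) * (24 * (Jp : ℝ)) ^ (2 * Jp) ≤ (t : ℝ) ^ 2 :=
        (sq_le_sq₀ (mul_nonneg hcard0.le (pow_nonneg (mul_nonneg (by norm_num)
          (Nat.cast_nonneg _)) _)) (pow_nonneg ht0.le 2)).1 h4
      exact_mod_cast h5
    have h2 : (U.card : ℝ) * (24 * (Jp : ℝ)) ^ Jp ≤ t * Real.exp ((2 : ℝ) ^ Jp) := by
      rw [hxU, mul_comm x, mul_assoc]
      apply mul_le_mul_of_nonneg_left _ ht0.le
      calc x * (24 * (Jp : ℝ)) ^ Jp ≤ Real.exp ((2 : ℝ) ^ J) * Real.exp ((Jp : ℝ) ^ 2) :=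
            mul_le_mul hJ hP1 hP1pos (Real.exp_pos _).le
        _ = Real.exp ((2 : ℝ) ^ J + (Jp : ℝ) ^ 2) := by rw [Real.exp_add]
        _ ≤ Real.exp ((2 : ℝ) ^ Jp) := by
            apply Real.exp_le_exp.2
            have h6 : (2 : ℝ) ^ Jp = 2 ^ J * 32 := by rw [hJp, pow_add]; norm_num
            rw [h6]
            have h7 : (0 : ℝ) < 2 ^ J := by positivity
            nlinarith
    have h3 := iterate_step (G := G) (by omega : 1 ≤ Jp) ht h1 h2 hmod
    refine h3.mono (Finset.Subset.refl _) ?_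
    have hJ1 : (9 : ℝ) ≤ ((J - 1 : ℕ) : ℝ) := by
      have : 9 ≤ J - 1 := by omega
      exact_mod_cast this
    have h4 : ((J - 1 : ℕ) : ℝ) * (1 / 2) ≤ Real.log (2 + Real.log (1 + x)) := by
      have h5 : Real.log x ≤ Real.log (1 + x) := Real.log_le_log hx0 (by linarith)
      have h6 : Real.log ((2 : ℝ) ^ (J - 1)) ≤ Real.log (2 + Real.log (1 + x)) :=
        Real.log_le_log (by positivity) (by linarith)
      rw [Real.log_pow] at h6
      nlinarith
    have h5 : (2 : ℝ) ^ 36 * (Jp : ℝ) * t ≤ c := by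
      have h6 : (2 : ℝ) ^ 50 * t * (((J - 1 : ℕ) : ℝ) * (1 / 2)) ≤
          (2 : ℝ) ^ 50 * t * Real.log (2 + Real.log (1 + x)) :=
        mul_le_mul_of_nonneg_left h4 (by positivity)
      have h7 : (Jp : ℝ) = ((J - 1 : ℕ) : ℝ) + 6 := by
        have : Jp = (J - 1) + 6 := by omega
        exact_mod_cast this
      have h8 : (2 : ℝ) ^ 36 * (Jp : ℝ) * t ≤ (2 : ℝ) ^ 50 * t * (((J - 1 : ℕ) : ℝ) * (1 / 2)) := by
        rw [h7]
        have h9 : (2 : ℝ) ^ 36 * (((J - 1 : ℕ) : ℝ) + 6) ≤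
            (2 : ℝ) ^ 50 * (((J - 1 : ℕ) : ℝ) * (1 / 2)) := by
          norm_num
          linarith
        calc (2 : ℝ) ^ 36 * (((J - 1 : ℕ) : ℝ) + 6) * t
            ≤ (2 : ℝ) ^ 50 * (((J - 1 : ℕ) : ℝ) * (1 / 2)) * t :=
              mul_le_mul_of_nonneg_right h9 ht0.le
          _ = (2 : ℝ) ^ 50 * t * (((J - 1 : ℕ) : ℝ) * (1 / 2)) := by ring
      linarith
    exact_mod_cast h5

/-! Row X6 -/
theorem X6_exp {l : ℝ} (hl : 200 ≤ l) : 2 ^ 42 * (1 + l) ^ 2 ≤ Real.exp l := by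
  have h1 : Real.exp l = Real.exp (l / 2) * Real.exp (l / 2) := by rw [← Real.exp_add]; congr 1; ring
  have h2 := Real.quadratic_le_exp_of_nonneg (x := l / 2) (by linarith)
  have h3 : (1 + l) ^ 2 ≤ 8 * Real.exp (l / 2) := by nlinarith
  have h4 : (2:ℝ) ^ 45 ≤ Real.exp (l / 2) := by
    have h5 : Real.exp 100 ≤ Real.exp (l / 2) := Real.exp_le_exp.2 (by linarith)
    have h6 : (2:ℝ) ^ 100 ≤ Real.exp 100 := by
      have h7 : (2:ℝ) ≤ Real.exp 1 := by have := Real.exp_one_gt_d9; linarith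
      have h8 : Real.exp 100 = (Real.exp 1) ^ 100 := by rw [← Real.exp_nat_mul]; norm_num
      rw [h8]
      exact pow_le_pow_left₀ (by norm_num) h7 100
    have h9 : (2:ℝ) ^ 45 ≤ 2 ^ 100 := by norm_num
    linarith
  have h5 : 0 < Real.exp (l / 2) := Real.exp_pos _
  rw [h1]
  calc 2 ^ 42 * (1 + l) ^ 2 ≤ 2 ^ 42 * (8 * Real.exp (l / 2)) := by
        exact mul_le_mul_of_nonneg_left h3 (by norm_num)
    _ = 2 ^ 45 * Real.exp (l / 2) := by ring
    _ ≤ Real.exp (l / 2) * Real.exp (l / 2) := mul_le_mul_of_nonneg_right h4 h5.le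

theorem X6_exp20 : (2:ℝ) ^ 21 * 201 ≤ Real.exp 20 := by
  have h8 : Real.exp 20 = (Real.exp 1) ^ 20 := by rw [← Real.exp_nat_mul]; norm_num
  rw [h8]
  have h1 : (2.7182818283 : ℝ) ^ 20 ≤ (Real.exp 1) ^ 20 :=
    pow_le_pow_left₀ (by norm_num) Real.exp_one_gt_d9.le 20
  refine le_trans ?_ h1
  norm_num

theorem X6_log {x y l : ℝ} (hl : 0 ≤ l) (hx0 : 0 ≤ x) (hx : x ≤ 2 ^ 21 * (1 + l)) (hy : y = Real.log (1 + l)) :
    Real.log (2 + Real.log (1 + x)) ≤ 5 * Real.log (2 + y) := by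
  have hy0 : 0 ≤ y := by rw [hy]; exact Real.log_nonneg (by linarith)
  have h1 : Real.log (1 + x) ≤ 16 + y := by
    have h2 : 1 + x ≤ 2 ^ 22 * (1 + l) := by nlinarith
    have h3 : Real.log (1 + x) ≤ Real.log (2 ^ 22 * (1 + l)) := Real.log_le_log (by linarith) h2
    rw [Real.log_mul (by positivity) (by linarith), Real.log_pow, ← hy] at h3
    have h4 := Real.log_two_lt_d9
    push_cast at h3
    linarith
  have h0 : 0 ≤ Real.log (1 + x) := Real.log_nonneg (by linarith)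
  have h2 : 2 + Real.log (1 + x) ≤ (2 + y) ^ 5 := by
    have h3 : (2 + y) ^ 5 = 32 + 80 * y + 80 * y ^ 2 + 40 * y ^ 3 + 10 * y ^ 4 + y ^ 5 := by ring
    rw [h3]
    have : 0 ≤ 80 * y ^ 2 + 40 * y ^ 3 + 10 * y ^ 4 + y ^ 5 := by positivity
    linarith
  calc Real.log (2 + Real.log (1 + x)) ≤ Real.log ((2 + y) ^ 5) := Real.log_le_log (by linarith) h2
    _ = 5 * Real.log (2 + y) := by rw [Real.log_pow]; norm_num

/-- X6: the local bound for all graphs. -/
theorem local_bound : ∃ C : ℝ, 0 < C ∧ ∀ (V : Type) [Fintype V] [DecidableEq V] [Nonempty V] (G : SimpleGraph V) (t c : ℕ),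
    1 ≤ t → ¬ Model G Finset.univ t → C * t * Real.log (2 + Real.log (1 + Real.log t)) ≤ c →
    ∃ v : V, Col G (insert v (nbr G {v})) c := by
  obtain ⟨C0, hC0, hsg⟩ := small_graphs
  refine ⟨5 * C0 + 200, by positivity, ?_⟩
  intro V _ _ _ G t c ht hmod hc
  obtain ⟨v, -, hv⟩ := low_degree ht Finset.univ_nonempty hmod
  refine ⟨v, ?_⟩
  have htR : (1:ℝ) ≤ (t:ℝ) := by exact_mod_cast ht
  have ht0 : (0:ℝ) < (t:ℝ) := by linarith
  have hl0 : 0 ≤ Real.log t := Real.log_nonneg htR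
  have hy0 : 0 ≤ Real.log (1 + Real.log t) := Real.log_nonneg (by linarith)
  have hL2 : Real.log 2 ≤ Real.log (2 + Real.log (1 + Real.log t)) := Real.log_le_log (by norm_num) (by linarith)
  have hlog2 := Real.log_two_gt_d9
  set W : Finset V := insert v (nbr G {v}) with hW
  have hcard : (W.card : ℝ) ≤ 2 ^ 21 * (t * (1 + Real.log t)) := by
    have h1 : W ⊆ insert v (nbIn G Finset.univ v) := by
      intro u hu
      rw [hW, Finset.mem_insert] at hu
      rw [Finset.mem_insert]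
      rcases hu with hu | hu
      · exact Or.inl hu
      · right
        obtain ⟨w, hw, hadj⟩ := mem_nbr.1 hu
        rw [Finset.mem_singleton] at hw
        rw [hw] at hadj
        exact mem_nbIn.2 ⟨Finset.mem_univ _, hadj⟩
    have h2 : W.card ≤ (nbIn G Finset.univ v).card + 1 :=
      (Finset.card_le_card h1).trans (Finset.card_insert_le _ _)
    have h3 : (W.card : ℝ) ≤ ((nbIn G Finset.univ v).card : ℝ) + 1 := by exact_mod_cast h2
    have h4 : (1:ℝ) ≤ t * (1 + Real.log t) := by nlinarith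
    nlinarith [hv]
  have hmodW : ¬ Model G W t := fun h => hmod (h.mono (Finset.subset_univ _) le_rfl)
  have hx : (W.card : ℝ) / t ≤ 2 ^ 21 * (1 + Real.log t) := by
    rw [div_le_iff₀ ht0]
    linarith
  by_cases hl : 200 ≤ Real.log t
  · refine hsg V G W t c ht ?_ hmodW ?_
    · have h1 := X6_exp hl
      rw [Real.exp_log ht0] at h1
      have h2 : (W.card : ℝ) ^ 2 ≤ (t:ℝ) ^ 3 := by
        calc (W.card : ℝ) ^ 2 ≤ (2 ^ 21 * (t * (1 + Real.log t))) ^ 2 := pow_le_pow_left₀ (by positivity) hcard 2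
          _ = t ^ 2 * (2 ^ 42 * (1 + Real.log t) ^ 2) := by ring
          _ ≤ t ^ 2 * t := mul_le_mul_of_nonneg_left h1 (by positivity)
          _ = (t:ℝ) ^ 3 := by ring
      exact_mod_cast h2
    · refine le_trans ?_ hc
      have h1 := X6_log hl0 (by positivity) hx rfl
      calc C0 * t * Real.log (2 + Real.log (1 + (W.card : ℝ) / t)) ≤
          C0 * t * (5 * Real.log (2 + Real.log (1 + Real.log t))) := mul_le_mul_of_nonneg_left h1 (by positivity)
        _ ≤ (5 * C0 + 200) * t * Real.log (2 + Real.log (1 + Real.log t)) := by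
            have h2 : 0 ≤ (t:ℝ) * Real.log (2 + Real.log (1 + Real.log t)) := by
              apply mul_nonneg ht0.le
              linarith
            nlinarith
  · push Not at hl
    have h1 : (W.card : ℝ) ≤ t * Real.exp ((20 : ℕ) : ℝ) := by
      have h2 := X6_exp20
      push_cast
      calc (W.card : ℝ) ≤ 2 ^ 21 * (t * (1 + Real.log t)) := hcard
        _ ≤ 2 ^ 21 * (t * 201) := by
            refine mul_le_mul_of_nonneg_left (mul_le_mul_of_nonneg_left (by linarith) ht0.le) (by norm_num)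
        _ = t * (2 ^ 21 * 201) := by ring
        _ ≤ t * Real.exp 20 := mul_le_mul_of_nonneg_left h2 ht0.le
    have h2 := apriori (G := G) ht (fun h => hmodW (h.mono (Finset.Subset.refl _) (by omega))) h1
    refine h2.mono (Finset.Subset.refl _) ?_
    have h3 : ((4 * t * 20 + t : ℕ) : ℝ) ≤ (c : ℝ) := by
      refine le_trans ?_ hc
      push_cast
      have h4 : (200:ℝ) * t * 0.69 ≤ (5 * C0 + 200) * t * Real.log (2 + Real.log (1 + Real.log t)) := by
        refine mul_le_mul ?_ (by linarith) (by norm_num) (by positivity)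
        nlinarith
      nlinarith
    exact_mod_cast h3

end HD
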